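import Mathlib

/-!
# Invariant random subgroups of a locally compact group: definitions

* the Chabauty topology on the space `ClosedSubgroup G` and its Borel σ-algebra;
* invariant random subgroups, ergodicity, lattice IRSs, weak-* limits;
* `Close B U H L`: the closed subgroups `H`, `L` are close at scale `(B, U)`.
-/

set_option autoImplicit false

namespace Helper418IRS

open MeasureTheory Set Topology Filter
open scoped Pointwise ENNReal

section Space

variable (G : Type) [Group G] [TopologicalSpace G]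

/-- The Chabauty topology on the set of closed subgroups of `G`: it is generated by the sets
`{H | H ∩ K = ∅}`, `K` compact, and `{H | H ∩ U ≠ ∅}`, `U` open. -/
instance chabauty : TopologicalSpace (ClosedSubgroup G) :=
  TopologicalSpace.generateFrom
    ({s | ∃ K : Set G, IsCompact K ∧ s = {H : ClosedSubgroup G | Disjoint (H : Set G) K}} ∪
     {s | ∃ U : Set G, IsOpen U ∧ s = {H : ClosedSubgroup G | ((H : Set G) ∩ U).Nonempty}})

instance : MeasurableSpace (ClosedSubgroup G) := borel _

instance : BorelSpace (ClosedSubgroup G) := ⟨rfl⟩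

/-- The whole group as a closed subgroup. -/
def whole : ClosedSubgroup G where
  toSubgroup := ⊤
  isClosed' := isClosed_univ

end Space

variable {G : Type} [Group G] [TopologicalSpace G] [IsTopologicalGroup G]

/-- The conjugate `g H g⁻¹`. -/
def conj (g : G) (H : ClosedSubgroup G) : ClosedSubgroup G where
  toSubgroup := H.toSubgroup.comap (MulAut.conj g⁻¹).toMonoidHom
  isClosed' := by
    have h : IsClosed (H.toSubgroup.carrier) := H.isClosed'
    exact h.preimage (f := fun x => g⁻¹ * x * g⁻¹⁻¹) (by fun_prop)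

theorem mem_conj {g x : G} {H : ClosedSubgroup G} : x ∈ conj g H ↔ g⁻¹ * x * g ∈ H := by
  show (MulAut.conj g⁻¹) x ∈ H.toSubgroup ↔ _
  simp [MulAut.conj_apply]
  rfl

theorem conj_conj (g h : G) (H : ClosedSubgroup G) : conj g (conj h H) = conj (g * h) H := by
  apply SetLike.ext
  intro x
  rw [mem_conj, mem_conj, mem_conj]
  simp only [mul_inv_rev, mul_assoc]

theorem conj_one (H : ClosedSubgroup G) : conj 1 H = H := by
  apply SetLike.ext
  intro x
  rw [mem_conj]
  simp

theorem conj_self {g : G} {H : ClosedSubgroup G} (hg : g ∈ H) : conj g H = H := by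
  apply SetLike.ext
  intro x
  rw [mem_conj]
  have hi : g⁻¹ ∈ H := inv_mem hg
  constructor
  · intro h
    have := mul_mem (mul_mem hg h) hi
    simpa [mul_assoc] using this
  · intro h
    exact mul_mem (mul_mem hi h) hg

/-- An invariant random subgroup: a probability measure on the space of closed subgroups that is
invariant under conjugation. -/
def IsIRS (μ : Measure (ClosedSubgroup G)) : Prop :=
  IsProbabilityMeasure μ ∧ ∀ g : G, μ.map (conj g) = μ

/-- Ergodicity of a measure for the conjugation action. -/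
def IsErgodic (μ : Measure (ClosedSubgroup G)) : Prop :=
  ∀ S : Set (ClosedSubgroup G), MeasurableSet S → (∀ g : G, conj g ⁻¹' S = S) →
    μ S = 0 ∨ μ Sᶜ = 0

/-- `ν` is a `G`-invariant probability measure on `G ⧸ Γ`. -/
def InvProb [MeasurableSpace G] (Γ : Subgroup G) (ν : Measure (G ⧸ Γ)) : Prop :=
  IsProbabilityMeasure ν ∧ ∀ g : G, ν.map (fun x => g • x) = ν

/-- The map `g Γ ↦ g N g⁻¹`; it is well defined (does not depend on the chosen representative
`x.out`) when `Γ` normalises `N`, see `cosetConj_mk`. -/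
noncomputable def cosetConj (Γ : Subgroup G) (N : ClosedSubgroup G) (x : G ⧸ Γ) :
    ClosedSubgroup G :=
  conj x.out N

theorem cosetConj_mk {Γ : Subgroup G} {N : ClosedSubgroup G} (h : ∀ γ ∈ Γ, conj γ N = N) (g : G) :
    cosetConj Γ N (g : G ⧸ Γ) = conj g N := by
  unfold cosetConj
  obtain ⟨γ, hγ⟩ := QuotientGroup.mk_out_eq_mul Γ g
  rw [hγ, ← conj_conj, h γ γ.2]

theorem cosetConj_smul {Γ : Subgroup G} {N : ClosedSubgroup G} (h : ∀ γ ∈ Γ, conj γ N = N) (g : G)
    (x : G ⧸ Γ) : cosetConj Γ N (g • x) = conj g (cosetConj Γ N x) := by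
  induction x using QuotientGroup.induction_on with
  | H a =>
    rw [cosetConj_mk h a, conj_conj]
    exact cosetConj_mk h (g * a)

/-- A lattice IRS: the push-forward `μ_Γ` of the `G`-invariant probability measure on `G ⧸ Γ` under
`g Γ ↦ g Γ g⁻¹`, for a lattice `Γ`, i.e. a discrete subgroup such that `G ⧸ Γ` carries a
`G`-invariant probability measure. -/
def IsLatticeIRS [MeasurableSpace G] (μ : Measure (ClosedSubgroup G)) : Prop :=
  ∃ Γ : ClosedSubgroup G, DiscreteTopology Γ ∧
    ∃ ν : Measure (G ⧸ Γ.toSubgroup), InvProb Γ.toSubgroup ν ∧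
      μ = ν.map (cosetConj Γ.toSubgroup Γ)

/-- Weak-* convergence of measures on the space of closed subgroups. -/
def WeakLim (μk : ℕ → Measure (ClosedSubgroup G)) (μ : Measure (ClosedSubgroup G)) : Prop :=
  ∀ f : ClosedSubgroup G → ℝ, Continuous f →
    Tendsto (fun k => ∫ H, f H ∂(μk k)) atTop (𝓝 (∫ H, f H ∂μ))

/-- No small subgroups. -/
def NSS (G : Type) [Group G] [TopologicalSpace G] : Prop :=
  ∃ U ∈ 𝓝 (1 : G), ∀ g : G, (∀ n : ℕ, g ^ n ∈ U) → g = 1

/-- The subgroup of all `l` with `l N l⁻¹ = N`. -/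
def nrm (N : ClosedSubgroup G) : Subgroup G where
  carrier := {l | conj l N = N}
  mul_mem' := by
    intro a b ha hb
    simp only [mem_setOf_eq] at *
    rw [← conj_conj, hb, ha]
  one_mem' := conj_one N
  inv_mem' := by
    intro a ha
    simp only [mem_setOf_eq] at *
    calc conj a⁻¹ N = conj a⁻¹ (conj a N) := by rw [ha]
      _ = N := by rw [conj_conj, inv_mul_cancel, conj_one]

theorem mem_nrm {N : ClosedSubgroup G} {l : G} : l ∈ nrm N ↔ conj l N = N := Iff.rfl

theorem le_nrm (N : ClosedSubgroup G) : N.toSubgroup ≤ nrm N := fun _ h => conj_self h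

instance nrm_normal (N : ClosedSubgroup G) : (N.toSubgroup.subgroupOf (nrm N)).Normal := by
  refine ⟨fun n hn g => ?_⟩
  rw [Subgroup.mem_subgroupOf] at *
  have hg : conj (g : G)⁻¹ N = N := (nrm N).inv_mem g.2
  have h1 : (n : G) ∈ conj (g : G)⁻¹ N := by rw [hg]; exact hn
  rw [mem_conj, inv_inv] at h1
  exact h1

/-! ### Closeness of closed subgroups -/

/-- `H` and `L` are close at scale `(B, U)`. -/
def Close (B U : Set G) (H L : ClosedSubgroup G) : Prop :=
  (∀ h ∈ H, h ∈ B → ∃ l ∈ L, l⁻¹ * h ∈ U) ∧ (∀ l ∈ L, l ∈ B → ∃ h ∈ H, l⁻¹ * h ∈ U)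

/-- An exhaustion by compact sets and a neighbourhood basis of `1`. -/
structure Scales (G : Type) [Group G] [TopologicalSpace G] where
  /-- compact exhaustion -/
  B : ℕ → Set G
  /-- neighbourhood basis of `1` -/
  U : ℕ → Set G
  cB : ∀ n, IsCompact (B n)
  mB : Monotone B
  exB : ∀ K, IsCompact K → ∃ n, K ⊆ B n
  oU : ∀ n, IsOpen (U n)
  mU : Antitone U
  oneU : ∀ n, 1 ∈ U n
  exU : ∀ W ∈ 𝓝 (1 : G), ∃ n, U n ⊆ W

/-- closeness at scale `n` -/
def Scales.cl (Sc : Scales G) (n : ℕ) (H L : ClosedSubgroup G) : Prop := Close (Sc.B n) (Sc.U n) H L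

theorem Scales.cl_mono (Sc : Scales G) {n n' : ℕ} (h : n ≤ n') {H L : ClosedSubgroup G}
    (hc : Sc.cl n' H L) : Sc.cl n H L := by
  refine ⟨fun x hx hb => ?_, fun x hx hb => ?_⟩
  · obtain ⟨l, hl, hu⟩ := hc.1 x hx (Sc.mB h hb)
    exact ⟨l, hl, Sc.mU h hu⟩
  · obtain ⟨l, hl, hu⟩ := hc.2 x hx (Sc.mB h hb)
    exact ⟨l, hl, Sc.mU h hu⟩

/-- all products of eight conjugates, by elements of `R`, of elements of `O'` lie in `O` -/
structure Shr (R : Finset G) (O' O : Set G) : Prop where
  nhds : O' ∈ 𝓝 (1 : G)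
  compact : IsCompact O'
  symm : ∀ x ∈ O', x⁻¹ ∈ O'
  prod : ∀ f : Fin 8 → G, (∀ i, ∃ r ∈ R, ∃ x ∈ O', f i = r * x * r⁻¹) → (List.ofFn f).prod ∈ O

end Helper418IRS
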