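import Pool.Agent.Helper418_IRS.Defs

set_option autoImplicit false

namespace Helper418IRS

open MeasureTheory Set Topology Filter
open scoped Pointwise ENNReal

namespace IR1

variable {G : Type} [Group G] [TopologicalSpace G]

/-- supremum of `φ` over `H` -/
noncomputable def sup (φ : G → ℝ) (H : ClosedSubgroup G) : ℝ := sSup (φ '' (H : Set G))

theorem bdd {φ : G → ℝ} (h1 : ∀ x, φ x ≤ 1) (H : ClosedSubgroup G) :
    BddAbove (φ '' (H : Set G)) := by
  refine ⟨1, ?_⟩
  rintro _ ⟨x, -, rfl⟩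
  exact h1 x

theorem nemp (φ : G → ℝ) (H : ClosedSubgroup G) : (φ '' (H : Set G)).Nonempty :=
  ⟨φ 1, 1, one_mem H, rfl⟩

theorem le_sup {φ : G → ℝ} (h1 : ∀ x, φ x ≤ 1) {H : ClosedSubgroup G} {x : G} (hx : x ∈ H) :
    φ x ≤ sup φ H := le_csSup (bdd h1 H) ⟨x, hx, rfl⟩

theorem sup_le {φ : G → ℝ} {H : ClosedSubgroup G} {c : ℝ} (h : ∀ x ∈ H, φ x ≤ c) :
    sup φ H ≤ c := by
  refine csSup_le (nemp φ H) ?_
  rintro _ ⟨x, hx, rfl⟩
  exact h x hx

theorem sup_cont {φ : G → ℝ} (hφ : Continuous φ) (hc : HasCompactSupport φ) (h0 : ∀ x, 0 ≤ φ x)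
    (h1 : ∀ x, φ x ≤ 1) : Continuous (sup φ) := by
  rw [OrderTopology.continuous_iff]
  intro a
  constructor
  · have : sup φ ⁻¹' Ioi a = {H : ClosedSubgroup G | ((H : Set G) ∩ (φ ⁻¹' Ioi a)).Nonempty} := by
      ext H
      simp only [mem_preimage, mem_Ioi, Set.mem_ofPred_eq]
      constructor
      · intro h
        obtain ⟨_, ⟨x, hx, rfl⟩, hlt⟩ := exists_lt_of_lt_csSup (nemp φ H) h
        exact ⟨x, hx, hlt⟩
      · rintro ⟨x, hx, hlt⟩
        exact lt_of_lt_of_le hlt (le_sup h1 hx)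
    rw [this]
    exact TopologicalSpace.isOpen_generateFrom_of_mem
      (Or.inr ⟨φ ⁻¹' Ioi a, isOpen_Ioi.preimage hφ, rfl⟩)
  · by_cases ha : a ≤ 0
    · have : sup φ ⁻¹' Iio a = ∅ := by
        ext H
        simp only [mem_preimage, mem_Iio, mem_empty_iff_false, iff_false, not_lt]
        exact ha.trans ((h0 1).trans (le_sup h1 (one_mem H)))
      rw [this]
      exact isOpen_empty
    · push Not at ha
      have hcpt : ∀ b : ℝ, 0 < b → IsCompact (φ ⁻¹' Ici b) := by
        intro b hb
        refine IsCompact.of_isClosed_subset hc (isClosed_Ici.preimage hφ) ?_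
        intro x hx
        apply subset_tsupport φ
        rw [Function.mem_support]
        have : b ≤ φ x := hx
        linarith
      have : sup φ ⁻¹' Iio a = {H : ClosedSubgroup G | Disjoint (H : Set G) (φ ⁻¹' Ici a)} := by
        ext H
        simp only [mem_preimage, mem_Iio, Set.mem_ofPred_eq]
        constructor
        · intro h
          rw [Set.disjoint_left]
          intro x hx hxa
          have : a ≤ φ x := hxa
          have := le_sup h1 hx
          linarith
        · intro h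
          rw [Set.disjoint_left] at h
          have hlt : ∀ x ∈ H, φ x < a := by
            intro x hx
            have := h hx
            simpa using this
          rcases ((H : Set G) ∩ (φ ⁻¹' Ici (a / 2))).eq_empty_or_nonempty with he | hne
          · have : sup φ H ≤ a / 2 := by
              apply sup_le
              intro x hx
              by_contra hcon
              push Not at hcon
              have : x ∈ ((H : Set G) ∩ (φ ⁻¹' Ici (a / 2))) := ⟨hx, hcon.le⟩
              rw [he] at this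
              exact this
            linarith
          · have hK : IsCompact ((H : Set G) ∩ (φ ⁻¹' Ici (a / 2))) :=
              (hcpt (a / 2) (by linarith)).inter_left H.isClosed'
            obtain ⟨m, hm, hmax⟩ := hK.exists_isMaxOn hne hφ.continuousOn
            have hma := hlt m hm.1
            have : sup φ H ≤ φ m := by
              apply sup_le
              intro x hx
              by_cases hx2 : a / 2 ≤ φ x
              · exact hmax ⟨hx, hx2⟩
              · have h3 : a / 2 ≤ φ m := hm.2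
                linarith
            linarith
      rw [this]
      exact TopologicalSpace.isOpen_generateFrom_of_mem (Or.inl ⟨φ ⁻¹' Ici a, hcpt a ha, rfl⟩)

/-- local Urysohn property -/
theorem local_step [IsTopologicalGroup G] [T2Space G] [LocallyCompactSpace G]
    {E : Set (ClosedSubgroup G)} (hE : IsOpen E) :
    ∀ H₀ ∈ E, ∃ g : ClosedSubgroup G → ℝ, Continuous g ∧ (∀ H, 0 ≤ g H ∧ g H ≤ 1) ∧ g H₀ = 1 ∧
      ∀ H, H ∉ E → g H = 0 := by
  have hE' : TopologicalSpace.GenerateOpen
    ({s | ∃ K : Set G, IsCompact K ∧ s = {H : ClosedSubgroup G | Disjoint (H : Set G) K}} ∪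
     {s | ∃ U : Set G, IsOpen U ∧ s = {H : ClosedSubgroup G | ((H : Set G) ∩ U).Nonempty}}) E := hE
  clear hE
  induction hE' with
  | basic s hs =>
    intro H₀ hH₀
    rcases hs with ⟨K, hK, rfl⟩ | ⟨U, hU, rfl⟩
    · have hd : Disjoint K (H₀ : Set G) := Disjoint.symm hH₀
      obtain ⟨φ, hφ1, hφ0, hφc, hφi⟩ := exists_continuous_one_zero_of_isCompact hK H₀.isClosed' hd
      have h0 : ∀ x, 0 ≤ φ x := fun x => (hφi x).1
      have h1 : ∀ x, φ x ≤ 1 := fun x => (hφi x).2
      refine ⟨fun H => 1 - sup φ H, continuous_const.sub (sup_cont φ.continuous hφc h0 h1), ?_, ?_, ?_⟩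
      · intro H
        have a1 : sup φ H ≤ 1 := sup_le fun x _ => h1 x
        have a2 : 0 ≤ sup φ H := (h0 1).trans (le_sup h1 (one_mem H))
        constructor <;> linarith
      · have a1 : sup φ H₀ ≤ 0 := sup_le fun x hx => (hφ0 hx).le
        have a2 : 0 ≤ sup φ H₀ := (h0 1).trans (le_sup h1 (one_mem H₀))
        have : sup φ H₀ = 0 := le_antisymm a1 a2
        simp [this]
      · intro H hH
        have hH' : ¬ Disjoint (H : Set G) K := hH
        rw [Set.not_disjoint_iff] at hH'
        obtain ⟨x, hxH, hxK⟩ := hH'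
        have a1 : φ x ≤ sup φ H := le_sup h1 hxH
        have a3 : φ x = 1 := hφ1 hxK
        have a2 : sup φ H ≤ 1 := sup_le fun x _ => h1 x
        have : sup φ H = 1 := le_antisymm a2 (by linarith)
        simp [this]
    · obtain ⟨h0', hh0, hh0U⟩ := hH₀
      have hd : Disjoint ({h0'} : Set G) Uᶜ := by
        rw [Set.disjoint_singleton_left]
        simpa using hh0U
      obtain ⟨φ, hφ1, hφ0, hφc, hφi⟩ :=
        exists_continuous_one_zero_of_isCompact isCompact_singleton hU.isClosed_compl hd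
      have h0 : ∀ x, 0 ≤ φ x := fun x => (hφi x).1
      have h1 : ∀ x, φ x ≤ 1 := fun x => (hφi x).2
      refine ⟨fun H => sup φ H, sup_cont φ.continuous hφc h0 h1, ?_, ?_, ?_⟩
      · intro H
        exact ⟨(h0 1).trans (le_sup h1 (one_mem H)), sup_le fun x _ => h1 x⟩
      · have a1 : sup φ H₀ ≤ 1 := sup_le fun x _ => h1 x
        have a2 : φ h0' ≤ sup φ H₀ := le_sup h1 hh0
        have a3 : φ h0' = 1 := hφ1 rfl
        exact le_antisymm a1 (by linarith)
      · intro H hH
        have hH' : ¬ ((H : Set G) ∩ U).Nonempty := hH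
        refine le_antisymm (sup_le fun x hx => ?_) ((h0 1).trans (le_sup h1 (one_mem H)))
        have hxU : x ∈ Uᶜ := fun hxU => hH' ⟨x, hx, hxU⟩
        exact (hφ0 hxU).le
  | univ =>
    intro H₀ _
    exact ⟨fun _ => 1, continuous_const, fun _ => ⟨zero_le_one, le_refl _⟩, rfl,
      fun H hH => absurd (mem_univ H) hH⟩
  | inter s t _ _ hs ht =>
    intro H₀ hH₀
    obtain ⟨g1, c1, b1, e1, z1⟩ := hs H₀ hH₀.1
    obtain ⟨g2, c2, b2, e2, z2⟩ := ht H₀ hH₀.2
    refine ⟨fun H => g1 H * g2 H, c1.mul c2, fun H => ?_, by simp [e1, e2], fun H hH => ?_⟩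
    · exact ⟨mul_nonneg (b1 H).1 (b2 H).1, mul_le_one₀ (b1 H).2 (b2 H).1 (b2 H).2⟩
    · by_cases h : H ∈ s
      · have : H ∉ t := fun h' => hH ⟨h, h'⟩
        simp [z2 H this]
      · simp [z1 H h]
  | sUnion S _ hS =>
    intro H₀ hH₀
    obtain ⟨s, hs, hs'⟩ := hH₀
    obtain ⟨g, c, b, e, z⟩ := hS s hs H₀ hs'
    exact ⟨g, c, b, e, fun H hH => z H fun h => hH ⟨s, hs, h⟩⟩

end IR1

/-- TARGET -/
theorem chab_urysohn {G : Type} [Group G] [TopologicalSpace G] [IsTopologicalGroup G] [T2Space G]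
    [LocallyCompactSpace G] {C E : Set (ClosedSubgroup G)} (hC : IsCompact C) (hE : IsOpen E)
    (hCE : C ⊆ E) :
    ∃ f : ClosedSubgroup G → ℝ, Continuous f ∧ (∀ H, 0 ≤ f H ∧ f H ≤ 1) ∧ (∀ H ∈ C, f H = 1) ∧
      ∀ H, H ∉ E → f H = 0 := by
  refine hC.induction_on (p := fun s => ∃ f : ClosedSubgroup G → ℝ, Continuous f ∧
    (∀ H, 0 ≤ f H ∧ f H ≤ 1) ∧ (∀ H ∈ s, f H = 1) ∧ ∀ H, H ∉ E → f H = 0) ?_ ?_ ?_ ?_
  · exact ⟨fun _ => 0, continuous_const, fun _ => ⟨le_refl _, zero_le_one⟩,
      fun H hH => absurd hH (Set.notMem_empty H), fun _ _ => rfl⟩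
  · rintro s t hst ⟨f, c, b, e, z⟩
    exact ⟨f, c, b, fun H hH => e H (hst hH), z⟩
  · rintro s t ⟨f, c, b, e, z⟩ ⟨f', c', b', e', z'⟩
    refine ⟨fun H => max (f H) (f' H), c.max c', fun H => ?_, fun H hH => ?_, fun H hH => ?_⟩
    · exact ⟨le_max_of_le_left (b H).1, max_le (b H).2 (b' H).2⟩
    · rcases hH with h | h
      · show max (f H) (f' H) = 1
        rw [e H h]
        exact max_eq_left (b' H).2
      · show max (f H) (f' H) = 1
        rw [e' H h]
        exact max_eq_right (b H).2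
    · show max (f H) (f' H) = 0
      rw [z H hH, z' H hH, max_self]
  · intro H₀ hH₀
    obtain ⟨g, c, b, e, z⟩ := IR1.local_step hE H₀ (hCE hH₀)
    refine ⟨g ⁻¹' Ioi (1 / 2), mem_nhdsWithin_of_mem_nhds
      ((isOpen_Ioi.preimage c).mem_nhds (by show (1 : ℝ) / 2 < g H₀; rw [e]; norm_num)), ?_⟩
    refine ⟨fun H => min 1 (2 * g H), continuous_const.min (continuous_const.mul c),
      fun H => ?_, fun H hH => ?_, fun H hH => ?_⟩
    · exact ⟨le_min zero_le_one (mul_nonneg (by norm_num) (b H).1), min_le_left _ _⟩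
    · have : (1 : ℝ) / 2 < g H := hH
      exact min_eq_left (by linarith)
    · show min 1 (2 * g H) = 0
      rw [z H hH]
      norm_num

end Helper418IRS
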