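import Pool.Agent.Helper418_IRS.Defs

set_option autoImplicit false

namespace Helper418IRS

open MeasureTheory Set Topology Filter
open scoped Pointwise ENNReal

namespace IR2

variable {G : Type} [Group G] [TopologicalSpace G]

theorem isOpen_miss {K : Set G} (hK : IsCompact K) :
    IsOpen {H : ClosedSubgroup G | Disjoint (H : Set G) K} :=
  TopologicalSpace.isOpen_generateFrom_of_mem (Or.inl ⟨K, hK, rfl⟩)

theorem isOpen_hit {U : Set G} (hU : IsOpen U) :
    IsOpen {H : ClosedSubgroup G | ((H : Set G) ∩ U).Nonempty} :=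
  TopologicalSpace.isOpen_generateFrom_of_mem (Or.inr ⟨U, hU, rfl⟩)

theorem isClosed_coe (N : ClosedSubgroup G) : IsClosed (N : Set G) := N.isClosed'

variable [IsTopologicalGroup G]

theorem finite_inter (N : ClosedSubgroup G) (hN : DiscreteTopology N)
    (g : G) {B : Set G} (hB : IsCompact B) : {l : G | l ∈ conj g N ∧ l ∈ B}.Finite := by
  have hc : IsCompact ((fun x => g⁻¹ * x * g) '' B) := hB.image (by fun_prop)
  have hS : IsCompact ((fun x => g⁻¹ * x * g) '' B ∩ (N : Set G)) :=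
    hc.inter_right (isClosed_coe N)
  have hd : IsDiscrete (N : Set G) := isDiscrete_iff_discreteTopology.mpr hN
  have hf := hS.finite (hd.mono inter_subset_right)
  refine (hf.image (fun x => g * x * g⁻¹)).subset ?_
  rintro l ⟨h1, h2⟩
  refine ⟨g⁻¹ * l * g, ⟨⟨l, h2, rfl⟩, mem_conj.mp h1⟩, ?_⟩
  show g * (g⁻¹ * l * g) * g⁻¹ = l
  group

end IR2

/-! TARGETS -/
theorem continuous_conj {G : Type} [Group G] [TopologicalSpace G] [IsTopologicalGroup G]
    [T2Space G] [LocallyCompactSpace G] (N : ClosedSubgroup G) :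
    Continuous (fun g : G => conj g N) := by
  refine continuous_generateFrom_iff.mpr ?_
  rintro s (⟨K, hK, rfl⟩ | ⟨U, hU, rfl⟩)
  · have h1 : (fun g : G => conj g N) ⁻¹' {H : ClosedSubgroup G | Disjoint (H : Set G) K}
        = {g : G | ∀ k ∈ K, g⁻¹ * k * g ∉ (N : Set G)} := by
      ext g
      simp only [mem_preimage, mem_setOf_eq, Set.disjoint_right]
      refine forall₂_congr fun k _ => not_congr ?_
      exact mem_conj
    rw [h1, isOpen_iff_eventually]
    intro g0 hg0
    refine hK.eventually_forall_of_forall_eventually ?_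
    intro k hk
    have hcont : Continuous (fun z : G × G => z.1⁻¹ * z.2 * z.1) := by fun_prop
    have ho : IsOpen ((fun z : G × G => z.1⁻¹ * z.2 * z.1) ⁻¹' ((N : Set G)ᶜ)) :=
      (IR2.isClosed_coe N).isOpen_compl.preimage hcont
    exact ho.mem_nhds (hg0 k hk)
  · have h1 : (fun g : G => conj g N) ⁻¹' {H : ClosedSubgroup G | ((H : Set G) ∩ U).Nonempty}
        = ⋃ n ∈ (N : Set G), {g : G | g * n * g⁻¹ ∈ U} := by
      ext g
      simp only [mem_preimage, mem_setOf_eq, mem_iUnion, exists_prop]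
      constructor
      · rintro ⟨x, hx, hxU⟩
        refine ⟨g⁻¹ * x * g, mem_conj.mp hx, ?_⟩
        have : g * (g⁻¹ * x * g) * g⁻¹ = x := by group
        rw [this]; exact hxU
      · rintro ⟨n, hn, hU'⟩
        refine ⟨g * n * g⁻¹, mem_conj.mpr ?_, hU'⟩
        have : g⁻¹ * (g * n * g⁻¹) * g = n := by group
        rw [this]; exact hn
    rw [h1]
    refine isOpen_biUnion fun n _ => ?_
    exact hU.preimage (f := fun g : G => g * n * g⁻¹) (by fun_prop)

theorem continuous_conj_right {G : Type} [Group G] [TopologicalSpace G] [IsTopologicalGroup G]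
    (g : G) : Continuous (fun H : ClosedSubgroup G => conj g H) := by
  refine continuous_generateFrom_iff.mpr ?_
  rintro s (⟨K, hK, rfl⟩ | ⟨U, hU, rfl⟩)
  · have h1 : (fun H : ClosedSubgroup G => conj g H) ⁻¹'
        {H : ClosedSubgroup G | Disjoint (H : Set G) K}
        = {H : ClosedSubgroup G | Disjoint (H : Set G) ((fun x => g⁻¹ * x * g) '' K)} := by
      ext H
      simp only [mem_preimage, mem_setOf_eq, Set.disjoint_right]
      constructor
      · rintro h _ ⟨k, hk, rfl⟩ hx
        exact h hk (mem_conj.mpr hx)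
      · intro h k hk hx
        exact h ⟨k, hk, rfl⟩ (mem_conj.mp hx)
    rw [h1]
    exact IR2.isOpen_miss (hK.image (by fun_prop))
  · have h1 : (fun H : ClosedSubgroup G => conj g H) ⁻¹'
        {H : ClosedSubgroup G | ((H : Set G) ∩ U).Nonempty}
        = {H : ClosedSubgroup G | ((H : Set G) ∩ ((fun x => g * x * g⁻¹) ⁻¹' U)).Nonempty} := by
      ext H
      simp only [mem_preimage, mem_setOf_eq]
      constructor
      · rintro ⟨x, hx, hxU⟩
        refine ⟨g⁻¹ * x * g, mem_conj.mp hx, ?_⟩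
        show g * (g⁻¹ * x * g) * g⁻¹ ∈ U
        have : g * (g⁻¹ * x * g) * g⁻¹ = x := by group
        rw [this]; exact hxU
      · rintro ⟨n, hn, hU'⟩
        refine ⟨g * n * g⁻¹, mem_conj.mpr ?_, hU'⟩
        have : g⁻¹ * (g * n * g⁻¹) * g = n := by group
        rw [this]; exact hn
    rw [h1]
    exact IR2.isOpen_hit (hU.preimage (by fun_prop))

theorem isOpen_cl {G : Type} [Group G] [TopologicalSpace G] [IsTopologicalGroup G]
    [T2Space G] [LocallyCompactSpace G] (N : ClosedSubgroup G) (hN : DiscreteTopology N)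
    (Sc : Scales G) (n : ℕ) (g : G) : IsOpen {H : ClosedSubgroup G | Sc.cl n H (conj g N)} := by
  have hW : IsOpen (⋃ l ∈ (conj g N : Set G), {h : G | l⁻¹ * h ∈ Sc.U n}) := by
    refine isOpen_biUnion fun l _ => ?_
    exact (Sc.oU n).preimage (f := fun h : G => l⁻¹ * h) (by fun_prop)
  have h1 : IsOpen {H : ClosedSubgroup G | Disjoint (H : Set G)
      (Sc.B n \ ⋃ l ∈ (conj g N : Set G), {h : G | l⁻¹ * h ∈ Sc.U n})} :=
    IR2.isOpen_miss ((Sc.cB n).diff hW)
  have h2 : IsOpen (⋂ l ∈ {l : G | l ∈ conj g N ∧ l ∈ Sc.B n},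
      {H : ClosedSubgroup G | ((H : Set G) ∩ {h : G | l⁻¹ * h ∈ Sc.U n}).Nonempty}) := by
    refine (IR2.finite_inter N hN g (Sc.cB n)).isOpen_biInter fun l _ => ?_
    exact IR2.isOpen_hit ((Sc.oU n).preimage (f := fun h : G => l⁻¹ * h) (by fun_prop))
  have h3 : {H : ClosedSubgroup G | Sc.cl n H (conj g N)} = {H : ClosedSubgroup G |
      Disjoint (H : Set G) (Sc.B n \ ⋃ l ∈ (conj g N : Set G), {h : G | l⁻¹ * h ∈ Sc.U n})} ∩
      (⋂ l ∈ {l : G | l ∈ conj g N ∧ l ∈ Sc.B n},
      {H : ClosedSubgroup G | ((H : Set G) ∩ {h : G | l⁻¹ * h ∈ Sc.U n}).Nonempty}) := by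
    ext H
    simp only [mem_inter_iff, mem_setOf_eq, mem_iInter]
    refine and_congr ?_ ?_
    · rw [Set.disjoint_left]
      constructor
      · rintro h x hx ⟨hxB, hxn⟩
        obtain ⟨l, hl, hu⟩ := h x hx hxB
        exact hxn (mem_biUnion (show l ∈ (conj g N : Set G) from hl) hu)
      · intro h x hx hxB
        by_contra hcon
        refine h hx ⟨hxB, fun hx' => hcon ?_⟩
        obtain ⟨l, hl, hu⟩ := mem_iUnion₂.mp hx'
        exact ⟨l, hl, hu⟩
    · constructor
      · rintro h l ⟨hl, hb⟩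
        obtain ⟨x, hx, hu⟩ := h l hl hb
        exact ⟨x, hx, hu⟩
      · intro h l hl hb
        obtain ⟨x, hx, hu⟩ := h l ⟨hl, hb⟩
        exact ⟨x, hx, hu⟩
  rw [h3]
  exact h1.inter h2

end Helper418IRS
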