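import Pool.Agent.Helper418_IRS.Defs

set_option autoImplicit false

namespace Helper418IRS

open MeasureTheory Set Topology Filter
open scoped Pointwise ENNReal

namespace IR3

variable {G : Type} [Group G] [TopologicalSpace G] [IsTopologicalGroup G]

omit [IsTopologicalGroup G] in
theorem tendsto_one (Sc : Scales G) (φ : ℕ → ℕ) (hφ : ∀ n, n ≤ φ n) (z : ℕ → G)
    (hz : ∀ᶠ n in atTop, z n ∈ Sc.U (φ n)) : Tendsto z atTop (𝓝 1) := by
  rw [tendsto_def]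
  intro W hW
  obtain ⟨m, hm⟩ := Sc.exU W hW
  filter_upwards [hz, eventually_ge_atTop m] with n hn hmn
  exact hm (Sc.mU (hmn.trans (hφ n)) hn)

omit [IsTopologicalGroup G] in
theorem ev_B [LocallyCompactSpace G] (Sc : Scales G) (φ : ℕ → ℕ) (hφ : ∀ n, n ≤ φ n) (x : ℕ → G)
    (x0 : G) (hx : Tendsto x atTop (𝓝 x0)) : ∀ᶠ n in atTop, x n ∈ Sc.B (φ n) := by
  obtain ⟨C, hC, hC0⟩ := exists_compact_mem_nhds x0
  obtain ⟨m, hm⟩ := Sc.exB C hC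
  filter_upwards [hx hC0, eventually_ge_atTop m] with n hn hmn
  exact Sc.mB (hmn.trans (hφ n)) (hm hn)

theorem back [LocallyCompactSpace G] (Sc : Scales G) (φ : ℕ → ℕ) (hφ : ∀ n, n ≤ φ n)
    (H L : ℕ → ClosedSubgroup G) (hc : ∀ n, Sc.cl (φ n) (H n) (L n)) (x : ℕ → G) (x0 : G)
    (hx : Tendsto x atTop (𝓝 x0)) (hxL : ∀ᶠ n in atTop, x n ∈ L n) :
    ∃ h : ℕ → G, (∀ᶠ n in atTop, h n ∈ H n) ∧ Tendsto h atTop (𝓝 x0) := by
  have h1 : ∀ n, ∃ h : G, (x n ∈ L n ∧ x n ∈ Sc.B (φ n)) →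
      (h ∈ H n ∧ (x n)⁻¹ * h ∈ Sc.U (φ n)) := by
    intro n
    by_cases hn : x n ∈ L n ∧ x n ∈ Sc.B (φ n)
    · obtain ⟨h, hh, hu⟩ := (hc n).2 (x n) hn.1 hn.2
      exact ⟨h, fun _ => ⟨hh, hu⟩⟩
    · exact ⟨1, fun h => absurd h hn⟩
  choose h hh using h1
  have h2 := ev_B Sc φ hφ x x0 hx
  have h3 : ∀ᶠ n in atTop, h n ∈ H n ∧ (x n)⁻¹ * h n ∈ Sc.U (φ n) := by
    filter_upwards [h2, hxL] with n ha hb
    exact hh n ⟨hb, ha⟩
  refine ⟨h, h3.mono fun n hn => hn.1, ?_⟩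
  have h4 := tendsto_one Sc φ hφ (fun n => (x n)⁻¹ * h n) (h3.mono fun n hn => hn.2)
  have h5 := hx.mul h4
  simpa using h5

theorem forth [LocallyCompactSpace G] (Sc : Scales G) (φ : ℕ → ℕ) (hφ : ∀ n, n ≤ φ n)
    (H L : ℕ → ClosedSubgroup G) (hc : ∀ n, Sc.cl (φ n) (H n) (L n)) (x : ℕ → G) (x0 : G)
    (hx : Tendsto x atTop (𝓝 x0)) (hxL : ∀ᶠ n in atTop, x n ∈ H n) :
    ∃ l : ℕ → G, (∀ᶠ n in atTop, l n ∈ L n) ∧ Tendsto l atTop (𝓝 x0) := by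
  have h1 : ∀ n, ∃ l : G, (x n ∈ H n ∧ x n ∈ Sc.B (φ n)) →
      (l ∈ L n ∧ l⁻¹ * x n ∈ Sc.U (φ n)) := by
    intro n
    by_cases hn : x n ∈ H n ∧ x n ∈ Sc.B (φ n)
    · obtain ⟨h, hh, hu⟩ := (hc n).1 (x n) hn.1 hn.2
      exact ⟨h, fun _ => ⟨hh, hu⟩⟩
    · exact ⟨1, fun h => absurd h hn⟩
  choose l hl using h1
  have h2 := ev_B Sc φ hφ x x0 hx
  have h3 : ∀ᶠ n in atTop, l n ∈ L n ∧ (l n)⁻¹ * x n ∈ Sc.U (φ n) := by
    filter_upwards [h2, hxL] with n ha hb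
    exact hl n ⟨hb, ha⟩
  refine ⟨l, h3.mono fun n hn => hn.1, ?_⟩
  have h4 := tendsto_one Sc φ hφ (fun n => (l n)⁻¹ * x n) (h3.mono fun n hn => hn.2)
  have h5 := hx.mul h4.inv
  simpa using h5

end IR3

/-- TARGET -/
theorem lemA {G : Type} [Group G] [TopologicalSpace G] [IsTopologicalGroup G]
    [T2Space G] [LocallyCompactSpace G] [SecondCountableTopology G] (Sc : Scales G)
    (N : ClosedSubgroup G) (K T W : Set G) (hK : IsCompact K) (hT : IsCompact T)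
    (hW : W ∈ 𝓝 (1 : G)) :
    ∃ n, ∀ g ∈ K, ∀ g' ∈ K, ∀ u ∈ T, ∀ H : ClosedSubgroup G,
      Sc.cl n H (conj g N) → Sc.cl n (conj u H) (conj g' N) →
        ∃ l ∈ nrm N, g'⁻¹ * u * g * l⁻¹ ∈ W := by
  by_contra hcon
  push Not at hcon
  choose g hg g' hg' u hu H h1 h2 h3 using hcon
  obtain ⟨p, hp, φ, hφ, hlim⟩ := (hK.prod (hK.prod hT)).tendsto_subseq
    (x := fun n => (g n, g' n, u n)) (fun n => ⟨hg n, hg' n, hu n⟩)
  obtain ⟨g0, g0', u0⟩ := p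
  have hge : ∀ n, n ≤ φ n := hφ.id_le
  have hlg : Tendsto (fun n => g (φ n)) atTop (𝓝 g0) :=
    (continuous_fst.tendsto _).comp hlim
  have hlg' : Tendsto (fun n => g' (φ n)) atTop (𝓝 g0') :=
    ((continuous_fst.comp continuous_snd).tendsto _).comp hlim
  have hlu : Tendsto (fun n => u (φ n)) atTop (𝓝 u0) :=
    ((continuous_snd.comp continuous_snd).tendsto _).comp hlim
  have hNc : IsClosed {x : G | x ∈ N} := N.isClosed'
  set a : G := g0'⁻¹ * u0 * g0 with ha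
  have hi : ∀ m ∈ N, a * m * a⁻¹ ∈ N := by
    intro m hm
    have e1 : Tendsto (fun n => g (φ n) * m * (g (φ n))⁻¹) atTop (𝓝 (g0 * m * g0⁻¹)) :=
      (hlg.mul_const m).mul hlg.inv
    obtain ⟨h, hh, hhl⟩ := IR3.back Sc φ hge (fun n => H (φ n)) (fun n => conj (g (φ n)) N)
      (fun n => h1 (φ n)) _ _ e1 (Eventually.of_forall fun n => by
        rw [mem_conj]
        have : (g (φ n))⁻¹ * (g (φ n) * m * (g (φ n))⁻¹) * g (φ n) = m := by group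
        rw [this]; exact hm)
    have e2 : Tendsto (fun n => u (φ n) * h n * (u (φ n))⁻¹) atTop
        (𝓝 (u0 * (g0 * m * g0⁻¹) * u0⁻¹)) := (hlu.mul hhl).mul hlu.inv
    obtain ⟨l, hl, hll⟩ := IR3.forth Sc φ hge (fun n => conj (u (φ n)) (H (φ n)))
      (fun n => conj (g' (φ n)) N) (fun n => h2 (φ n)) _ _ e2 (hh.mono fun n hn => by
        rw [mem_conj]
        have : (u (φ n))⁻¹ * (u (φ n) * h n * (u (φ n))⁻¹) * u (φ n) = h n := by group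
        rw [this]; exact hn)
    have e3 : Tendsto (fun n => (g' (φ n))⁻¹ * l n * g' (φ n)) atTop
        (𝓝 (g0'⁻¹ * (u0 * (g0 * m * g0⁻¹) * u0⁻¹) * g0')) := (hlg'.inv.mul hll).mul hlg'
    have e4 : ∀ᶠ n in atTop, (g' (φ n))⁻¹ * l n * g' (φ n) ∈ {x : G | x ∈ N} :=
      hl.mono fun n hn => mem_conj.1 hn
    have e5 := hNc.mem_of_tendsto e3 e4
    have e6 : g0'⁻¹ * (u0 * (g0 * m * g0⁻¹) * u0⁻¹) * g0' = a * m * a⁻¹ := by
      rw [ha]; group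
    rw [e6] at e5
    exact e5
  have hii : ∀ m ∈ N, a⁻¹ * m * a ∈ N := by
    intro m hm
    have e1 : Tendsto (fun n => g' (φ n) * m * (g' (φ n))⁻¹) atTop (𝓝 (g0' * m * g0'⁻¹)) :=
      (hlg'.mul_const m).mul hlg'.inv
    obtain ⟨h, hh, hhl⟩ := IR3.back Sc φ hge (fun n => conj (u (φ n)) (H (φ n)))
      (fun n => conj (g' (φ n)) N)
      (fun n => h2 (φ n)) _ _ e1 (Eventually.of_forall fun n => by
        rw [mem_conj]
        have : (g' (φ n))⁻¹ * (g' (φ n) * m * (g' (φ n))⁻¹) * g' (φ n) = m := by group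
        rw [this]; exact hm)
    have e2 : Tendsto (fun n => (u (φ n))⁻¹ * h n * u (φ n)) atTop
        (𝓝 (u0⁻¹ * (g0' * m * g0'⁻¹) * u0)) := (hlu.inv.mul hhl).mul hlu
    obtain ⟨l, hl, hll⟩ := IR3.forth Sc φ hge (fun n => H (φ n))
      (fun n => conj (g (φ n)) N) (fun n => h1 (φ n)) _ _ e2 (hh.mono fun n hn => mem_conj.1 hn)
    have e3 : Tendsto (fun n => (g (φ n))⁻¹ * l n * g (φ n)) atTop
        (𝓝 (g0⁻¹ * (u0⁻¹ * (g0' * m * g0'⁻¹) * u0) * g0)) := (hlg.inv.mul hll).mul hlg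
    have e4 : ∀ᶠ n in atTop, (g (φ n))⁻¹ * l n * g (φ n) ∈ {x : G | x ∈ N} :=
      hl.mono fun n hn => mem_conj.1 hn
    have e5 := hNc.mem_of_tendsto e3 e4
    have e6 : g0⁻¹ * (u0⁻¹ * (g0' * m * g0'⁻¹) * u0) * g0 = a⁻¹ * m * a := by
      rw [ha]; group
    rw [e6] at e5
    exact e5
  have hN : a ∈ nrm N := by
    rw [mem_nrm]
    apply SetLike.ext
    intro x
    rw [mem_conj]
    constructor
    · intro hx
      have h5 := hi _ hx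
      have h6 : a * (a⁻¹ * x * a) * a⁻¹ = x := by group
      rwa [h6] at h5
    · intro hx
      exact hii x hx
  have h7 : Tendsto (fun n => (g' (φ n))⁻¹ * u (φ n) * g (φ n) * a⁻¹) atTop
      (𝓝 (g0'⁻¹ * u0 * g0 * a⁻¹)) := ((hlg'.inv.mul hlu).mul hlg).mul_const _
  have h8 : g0'⁻¹ * u0 * g0 * a⁻¹ = 1 := by rw [← ha]; group
  rw [h8] at h7
  obtain ⟨n, hn⟩ := (h7.eventually hW).exists
  exact h3 (φ n) a hN hn

end Helper418IRS
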