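import Pool.Agent.Helper418_IRS.Defs

set_option autoImplicit false

namespace Helper418IRS

open MeasureTheory Set Topology Filter
open scoped Pointwise ENNReal

theorem exists_shr {G : Type} [Group G] [TopologicalSpace G] [IsTopologicalGroup G]
    [T2Space G] [LocallyCompactSpace G] (R : Finset G) (O : Set G) (hO : O ∈ 𝓝 (1 : G)) :
    ∃ O' : Set G, Shr R O' O := by
  have h1 : ∀ r : Fin 8 → R, {x : Fin 8 → G | (List.ofFn (fun i => (r i : G) * x i * (r i : G)⁻¹)).prod ∈ O}
      ∈ 𝓝 (fun _ : Fin 8 => (1 : G)) := by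
    intro r
    have hc : Continuous (fun x : Fin 8 → G => (List.ofFn (fun i => (r i : G) * x i * (r i : G)⁻¹)).prod) := by
      simp only [List.ofFn_succ, List.ofFn_zero, List.prod_cons, List.prod_nil]
      fun_prop
    have h2 : (List.ofFn (fun i : Fin 8 => (r i : G) * (1 : G) * (r i : G)⁻¹)).prod = 1 := by
      simp
    apply hc.continuousAt
    show O ∈ 𝓝 ((List.ofFn (fun i : Fin 8 => (r i : G) * (1 : G) * (r i : G)⁻¹)).prod)
    rw [h2]
    exact hO
  have h2 : (⋂ r : Fin 8 → R, {x : Fin 8 → G | (List.ofFn (fun i => (r i : G) * x i * (r i : G)⁻¹)).prod ∈ O})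
      ∈ 𝓝 (fun _ : Fin 8 => (1 : G)) := Filter.iInter_mem.2 h1
  rw [nhds_pi, Filter.mem_pi'] at h2
  obtain ⟨I, t, ht, hs⟩ := h2
  have h3 : (⋂ i, t i) ∈ 𝓝 (1 : G) := Filter.iInter_mem.2 ht
  obtain ⟨K, ⟨hK1, hK2⟩, hK3⟩ := (compact_basis_nhds (1 : G)).mem_iff.1 h3
  refine ⟨K ∩ K⁻¹, inter_mem hK1 (inv_mem_nhds_one G hK1), hK2.inter hK2.inv, ?_, ?_⟩
  · intro x hx
    refine ⟨hx.2, ?_⟩
    show x⁻¹⁻¹ ∈ K
    rw [inv_inv]
    exact hx.1
  · intro f hf
    choose r hr x hx hfx using hf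
    have h4 : x ∈ Set.pi (I : Set (Fin 8)) t := by
      intro i _
      exact Set.mem_iInter.1 (hK3 (hx i).1) i
    have h5 := Set.mem_iInter.1 (hs h4) (fun i => ⟨r i, hr i⟩)
    have h6 : f = fun i => r i * x i * (r i)⁻¹ := funext hfx
    rw [h6]
    exact h5

theorem exists_thick {G : Type} [Group G] [TopologicalSpace G] [IsTopologicalGroup G]
    [T2Space G] [LocallyCompactSpace G] [SecondCountableTopology G] [MeasurableSpace G]
    [BorelSpace G] (m : Measure G) [m.IsHaarMeasure] (V O : Set G) (hV : IsCompact V)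
    (hV1 : V ∈ 𝓝 (1 : G)) (hO : O ∈ 𝓝 (1 : G)) (δ : ℝ) (hδ : 0 < δ) :
    ∃ W : Set G, W ⊆ O ∧ IsOpen W ∧ (1 : G) ∈ W ∧
      m.real (V * W) ≤ (1 + δ) * m.real V ∧ m (V * W) ≠ ∞ := by
  have hfin : m V ≠ ∞ := hV.measure_lt_top.ne
  have hpos : 0 < m V := Measure.measure_pos_of_mem_nhds m hV1
  have hrpos : 0 < m.real V := ENNReal.toReal_pos hpos.ne' hfin
  have : TopologicalSpace.MetrizableSpace G := TopologicalSpace.metrizableSpace_of_t3_secondCountable G
  obtain ⟨O2, hVO, hO2, hm⟩ := V.exists_isOpen_le_add m (ε := ENNReal.ofReal (δ * m.real V))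
    (by simpa using mul_pos hδ hrpos)
  obtain ⟨W', hW', hVW⟩ := compact_open_separated_mul_right hV hO2 hVO
  have hN : W' ∩ O ∈ 𝓝 (1 : G) := inter_mem hW' hO
  have hsub : V * interior (W' ∩ O) ⊆ O2 :=
    (Set.mul_subset_mul_left (interior_subset.trans inter_subset_left)).trans hVW
  have hle : m (V * interior (W' ∩ O)) ≤ m V + ENNReal.ofReal (δ * m.real V) := (measure_mono hsub).trans hm
  have hlt : m V + ENNReal.ofReal (δ * m.real V) ≠ ∞ := ENNReal.add_ne_top.2 ⟨hfin, ENNReal.ofReal_ne_top⟩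
  refine ⟨interior (W' ∩ O), interior_subset.trans inter_subset_right, isOpen_interior,
    mem_interior_iff_mem_nhds.2 hN, ?_, ne_top_of_le_ne_top hlt hle⟩
  have h1 := ENNReal.toReal_mono hlt hle
  rw [ENNReal.toReal_add hfin ENNReal.ofReal_ne_top, ENNReal.toReal_ofReal (by positivity)] at h1
  calc m.real (V * interior (W' ∩ O)) ≤ (m V).toReal + δ * m.real V := h1
    _ = (1 + δ) * m.real V := by
      have : (m V).toReal = m.real V := rfl
      rw [this]; ring

theorem exists_big_compact {G : Type} [Group G] [TopologicalSpace G] [IsTopologicalGroup G]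
    [T2Space G] [LocallyCompactSpace G] [SecondCountableTopology G] [MeasurableSpace G]
    [BorelSpace G] (Γ : ClosedSubgroup G) (hΓ : DiscreteTopology Γ)
    (ν : Measure (G ⧸ Γ.toSubgroup)) [IsFiniteMeasure ν] (O : Set G) (hO : IsOpen O) (δ : ℝ)
    (hδ : 0 < δ) :
    ∃ K : Set G, IsCompact K ∧ (∀ k ∈ K, ∀ γ ∈ Γ, ∀ o ∈ O, k ≠ o * γ) ∧
      ν.real ((fun g : G => (g : G ⧸ Γ.toSubgroup)) '' O)ᶜ - δ
        ≤ ν.real ((fun g : G => (g : G ⧸ Γ.toSubgroup)) '' K) ∧
      MeasurableSet ((fun g : G => (g : G ⧸ Γ.toSubgroup)) '' K) := by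
  set π : G → G ⧸ Γ.toSubgroup := fun g => (g : G ⧸ Γ.toSubgroup) with hπ
  have hcount : Countable Γ := by
    have : SecondCountableTopology Γ := inferInstance
    exact TopologicalSpace.separableSpace_iff_countable.1 inferInstance
  set C : Set G := {k | ∀ γ ∈ Γ, ∀ o ∈ O, k ≠ o * γ} with hC
  have hCc : IsClosed C := by
    rw [← isOpen_compl_iff]
    have : Cᶜ = ⋃ γ ∈ Γ, (fun x => x * γ) '' O := by
      ext x
      simp only [hC, mem_compl_iff, mem_ofPred_eq, not_forall, mem_iUnion, mem_image, not_not, ne_eq]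
      constructor
      · rintro ⟨γ, hγ, o, ho, h⟩
        exact ⟨γ, hγ, o, ho, h.symm⟩
      · rintro ⟨γ, hγ, o, ho, h⟩
        exact ⟨γ, hγ, o, ho, h.symm⟩
    rw [this]
    exact isOpen_biUnion fun γ _ => isOpenMap_mul_right γ O hO
  have hπC : π '' C = (π '' O)ᶜ := by
    ext x
    constructor
    · rintro ⟨k, hk, rfl⟩ ⟨o, ho, h⟩
      have h1 : o⁻¹ * k ∈ Γ.toSubgroup := QuotientGroup.eq.1 h
      exact hk (o⁻¹ * k) h1 o ho (by group)
    · intro hx
      induction x using QuotientGroup.induction_on with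
      | H g =>
        refine ⟨g, ?_, rfl⟩
        intro γ hγ o ho h
        apply hx
        refine ⟨o, ho, ?_⟩
        show ((o : G) : G ⧸ Γ.toSubgroup) = g
        rw [QuotientGroup.eq, h]
        have e : o⁻¹ * (o * γ) = γ := by group
        rw [e]
        exact hγ
  set B : ℕ → Set G := compactCovering G with hB
  have hKc : ∀ n, IsCompact (C ∩ B n) := fun n => (isCompact_compactCovering G n).inter_left hCc
  have hmeas : ∀ K : Set G, IsCompact K → MeasurableSet (π '' K) := by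
    intro K hK
    refine measurableSet_quotient.2 ?_
    have e : (Quotient.mk'' ⁻¹' (π '' K) : Set G) = ⋃ γ : Γ, (fun x => x * (γ : G)) '' K := by
      ext x
      simp only [mem_preimage, mem_image, mem_iUnion]
      constructor
      · rintro ⟨k, hk, h⟩
        have h1 : k⁻¹ * x ∈ Γ.toSubgroup := QuotientGroup.eq.1 h
        exact ⟨⟨k⁻¹ * x, h1⟩, k, hk, by simp⟩
      · rintro ⟨γ, k, hk, rfl⟩
        refine ⟨k, hk, ?_⟩
        show ((k : G) : G ⧸ Γ.toSubgroup) = ((k * γ : G) : G ⧸ Γ.toSubgroup)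
        rw [QuotientGroup.eq]
        have e : k⁻¹ * (k * (γ : G)) = γ := by group
        rw [e]
        exact γ.2
    show MeasurableSet (Quotient.mk'' ⁻¹' (π '' K) : Set G)
    rw [e]
    exact MeasurableSet.iUnion fun γ => (hK.image (continuous_mul_const (γ : G))).measurableSet
  have hU : ⋃ n, π '' (C ∩ B n) = π '' C := by
    rw [← image_iUnion, ← inter_iUnion, hB, iUnion_compactCovering, inter_univ]
  have hmono : Monotone fun n => π '' (C ∩ B n) := by
    intro a b hab
    exact image_mono (inter_subset_inter_right _ (compactCovering_subset G hab))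
  have ht := tendsto_measure_iUnion_atTop (μ := ν) hmono
  rw [hU] at ht
  have ht2 : Tendsto (fun n => ν.real (π '' (C ∩ B n))) atTop (𝓝 (ν.real (π '' C))) :=
    (ENNReal.tendsto_toReal (measure_ne_top ν _)).comp ht
  have h3 : ∀ᶠ n in atTop, ν.real (π '' C) - δ < ν.real (π '' (C ∩ B n)) :=
    ht2.eventually (lt_mem_nhds (by linarith))
  obtain ⟨n, hn⟩ := h3.exists
  refine ⟨C ∩ B n, hKc n, fun k hk => hk.1, ?_, hmeas _ (hKc n)⟩
  rw [← hπC]
  exact hn.le

end Helper418IRS
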