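import Pool.Agent.Helper418_IRS.IR1
import Pool.Agent.Helper418_IRS.IR2
import Pool.Agent.Helper418_IRS.IR3
import Pool.Agent.Helper418_IRS.IR9
import Pool.Agent.Helper418_IRS.Defs

set_option autoImplicit false

namespace Helper418IRS

open MeasureTheory Set Topology Filter
open scoped Pointwise ENNReal

/-! GIVEN (proved elsewhere) -/





/-- the window at scale `n` in the space of closed subgroups -/
def winS {G : Type} [Group G] [TopologicalSpace G] [IsTopologicalGroup G] (Sc : Scales G)
    (N : ClosedSubgroup G) (V : Set G) (n : ℕ) : Set (ClosedSubgroup G) :=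
  {H | ∃ v ∈ V, Sc.cl n H (conj v N)}


namespace IR11

theorem cl_self {G : Type} [Group G] [TopologicalSpace G] (Sc : Scales G) (n : ℕ)
    (L : ClosedSubgroup G) : Sc.cl n L L := by
  refine ⟨fun h hh _ => ⟨h, hh, ?_⟩, fun l hl _ => ⟨l, hl, ?_⟩⟩
  · rw [inv_mul_cancel]; exact Sc.oneU n
  · rw [inv_mul_cancel]; exact Sc.oneU n

theorem winS_open {G : Type} [Group G] [TopologicalSpace G] [IsTopologicalGroup G]
    [T2Space G] [LocallyCompactSpace G] (N : ClosedSubgroup G) (hN : DiscreteTopology N)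
    (Sc : Scales G) (K : Set G) (n : ℕ) : IsOpen (winS Sc N K n) := by
  have h : winS Sc N K n = ⋃ v ∈ K, {H : ClosedSubgroup G | Sc.cl n H (conj v N)} := by
    ext H
    simp [winS]
  rw [h]
  exact isOpen_biUnion fun v _ => isOpen_cl N hN Sc n v

end IR11

/-! TARGETS -/
theorem measurable_cosetConj {G : Type} [Group G] [TopologicalSpace G] [IsTopologicalGroup G]
    [T2Space G] [LocallyCompactSpace G] [SecondCountableTopology G] [MeasurableSpace G]
    [BorelSpace G] (Γ : Subgroup G) (N : ClosedSubgroup G) (h : ∀ γ ∈ Γ, conj γ N = N) :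
    Measurable (cosetConj Γ N) := by
  have hq : Measurable (fun g : G => cosetConj Γ N (g : G ⧸ Γ)) := by
    have h1 : (fun g : G => cosetConj Γ N (g : G ⧸ Γ)) = fun g : G => conj g N := by
      funext g
      exact cosetConj_mk h g
    rw [h1]
    exact (continuous_conj N).measurable
  exact measurable_from_quotient.2 hq

theorem limit_low {G : Type} [Group G] [TopologicalSpace G] [IsTopologicalGroup G]
    [T2Space G] [LocallyCompactSpace G] [SecondCountableTopology G] [MeasurableSpace G]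
    [BorelSpace G] (Sc : Scales G) (N : ClosedSubgroup G) (hN : DiscreteTopology N)
    (ν0 : Measure (G ⧸ nrm N)) (hν0 : InvProb (nrm N) ν0)
    (μk : ℕ → Measure (ClosedSubgroup G)) (hk : ∀ k, IsProbabilityMeasure (μk k))
    (hlim : WeakLim μk (ν0.map (cosetConj (nrm N) N))) (K : Set G) (hK : IsCompact K)
    (hKm : MeasurableSet ((fun g : G => (g : G ⧸ nrm N)) '' K)) (n : ℕ) (δ : ℝ) (hδ : 0 < δ) :
    ∀ᶠ k in atTop, ν0.real ((fun g : G => (g : G ⧸ nrm N)) '' K) - δ
      ≤ (μk k).real (winS Sc N K n) := by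
  have := hν0.1
  have hnrm : ∀ γ ∈ nrm N, conj γ N = N := fun γ hγ => hγ
  have hmeas : Measurable (cosetConj (nrm N) N) := measurable_cosetConj (nrm N) N hnrm
  have hC : IsCompact ((fun g : G => conj g N) '' K) := hK.image (continuous_conj N)
  have hE : IsOpen (winS Sc N K n) := IR11.winS_open N hN Sc K n
  have hCE : (fun g : G => conj g N) '' K ⊆ winS Sc N K n := by
    rintro _ ⟨g, hg, rfl⟩
    exact ⟨g, hg, IR11.cl_self Sc n _⟩
  obtain ⟨f, hfc, hf01, hf1, hf0⟩ := chab_urysohn hC hE hCE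
  have hfb : ∀ H, ‖f H‖ ≤ 1 := by
    intro H
    rw [Real.norm_eq_abs, abs_of_nonneg (hf01 H).1]
    exact (hf01 H).2
  have hlow : ν0.real ((fun g : G => (g : G ⧸ nrm N)) '' K)
      ≤ ∫ H, f H ∂(ν0.map (cosetConj (nrm N) N)) := by
    rw [integral_map hmeas.aemeasurable hfc.measurable.aestronglyMeasurable]
    have hint : Integrable (fun x => f (cosetConj (nrm N) N x)) ν0 :=
      Integrable.of_bound (hfc.measurable.comp hmeas).aestronglyMeasurable 1
        (Eventually.of_forall fun x => hfb _)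
    have h2 : ∫ x, ((fun g : G => (g : G ⧸ nrm N)) '' K).indicator (fun _ => (1 : ℝ)) x ∂ν0
        ≤ ∫ x, f (cosetConj (nrm N) N x) ∂ν0 := by
      apply integral_mono _ hint
      · intro x
        show ((fun g : G => (g : G ⧸ nrm N)) '' K).indicator (fun _ => (1 : ℝ)) x ≤ _
        by_cases hx : x ∈ (fun g : G => (g : G ⧸ nrm N)) '' K
        · rw [indicator_of_mem hx]
          obtain ⟨g, hg, rfl⟩ := hx
          have h3 : cosetConj (nrm N) N ((fun g : G => (g : G ⧸ nrm N)) g) = conj g N :=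
            cosetConj_mk hnrm g
          show (1 : ℝ) ≤ f (cosetConj (nrm N) N ((fun g : G => (g : G ⧸ nrm N)) g))
          rw [h3, hf1 _ ⟨g, hg, rfl⟩]
        · rw [indicator_of_notMem hx]
          exact (hf01 _).1
      · exact (integrable_const (1 : ℝ)).indicator hKm
    rw [integral_indicator_const _ hKm] at h2
    simpa using h2
  have hup : ∀ k, ∫ H, f H ∂(μk k) ≤ (μk k).real (winS Sc N K n) := by
    intro k
    have := hk k
    have h2 : ∫ H, f H ∂(μk k) ≤
        ∫ H, (winS Sc N K n).indicator (fun _ => (1 : ℝ)) H ∂(μk k) := by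
      apply integral_mono
      · exact Integrable.of_bound hfc.measurable.aestronglyMeasurable 1
          (Eventually.of_forall fun x => hfb _)
      · exact (integrable_const (1 : ℝ)).indicator hE.measurableSet
      · intro H
        show f H ≤ (winS Sc N K n).indicator (fun _ => (1 : ℝ)) H
        by_cases hx : H ∈ winS Sc N K n
        · rw [indicator_of_mem hx]
          exact (hf01 _).2
        · rw [indicator_of_notMem hx]
          exact (hf0 _ hx).le
    rw [integral_indicator_const _ hE.measurableSet] at h2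
    simpa using h2
  have hev := (hlim f hfc).eventually (lt_mem_nhds
    (show (∫ H, f H ∂(ν0.map (cosetConj (nrm N) N))) - δ
      < ∫ H, f H ∂(ν0.map (cosetConj (nrm N) N)) by linarith))
  filter_upwards [hev] with k h4
  have h5 := hup k
  linarith

theorem limit_high {G : Type} [Group G] [TopologicalSpace G] [IsTopologicalGroup G]
    [T2Space G] [LocallyCompactSpace G] [SecondCountableTopology G] [MeasurableSpace G]
    [BorelSpace G] (Sc : Scales G) (N : ClosedSubgroup G) (hN : DiscreteTopology N)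
    (hΛ : DiscreteTopology (nrm N)) (ν0 : Measure (G ⧸ nrm N)) (hν0 : InvProb (nrm N) ν0)
    (μk : ℕ → Measure (ClosedSubgroup G)) (hk : ∀ k, IsProbabilityMeasure (μk k))
    (hlim : WeakLim μk (ν0.map (cosetConj (nrm N) N))) (V W : Set G) (hV : IsCompact V)
    (hW : IsOpen W) (h1W : (1 : G) ∈ W) (δ : ℝ) (hδ : 0 < δ) :
    ∃ n0, ∀ n, n0 ≤ n → ∀ᶠ k in atTop, (μk k).real (winS Sc N V n)
      ≤ ν0.real ((fun g : G => (g : G ⧸ nrm N)) '' (V * W)) + δ := by
  have := hν0.1
  have hcl : IsClosed ((nrm N : Subgroup G) : Set G) :=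
    Subgroup.isClosed_of_discrete
  have hO : IsOpen (V * W) := hW.mul_left
  obtain ⟨K, hK, hKO, hKν, hKm⟩ := exists_big_compact (⟨nrm N, hcl⟩ : ClosedSubgroup G) hΛ ν0
    (V * W) hO (δ / 2) (by linarith)
  have hKO' : ∀ k ∈ K, ∀ γ ∈ nrm N, ∀ o ∈ V * W, k ≠ o * γ := hKO
  have hKν' : ν0.real ((fun g : G => (g : G ⧸ nrm N)) '' (V * W))ᶜ - δ / 2
      ≤ ν0.real ((fun g : G => (g : G ⧸ nrm N)) '' K) := hKν
  have hKm' : MeasurableSet ((fun g : G => (g : G ⧸ nrm N)) '' K) := hKm
  obtain ⟨n0, hn0⟩ := lemA Sc N (V ∪ K) {1} W (hV.union hK) isCompact_singleton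
    (hW.mem_nhds h1W)
  refine ⟨n0, fun n hn => ?_⟩
  have hdis : Disjoint (winS Sc N V n) (winS Sc N K n) := by
    rw [Set.disjoint_left]
    rintro H ⟨v, hv, hHv⟩ ⟨k, hkK, hHk⟩
    have h1 : Sc.cl n0 H (conj k N) := Sc.cl_mono hn hHk
    have h2 : Sc.cl n0 (conj 1 H) (conj v N) := by
      rw [conj_one]
      exact Sc.cl_mono hn hHv
    obtain ⟨l, hl, hw⟩ := hn0 k (Or.inr hkK) v (Or.inl hv) 1 rfl H h1 h2
    refine hKO' k hkK l hl (v * (v⁻¹ * 1 * k * l⁻¹)) (Set.mul_mem_mul hv hw) ?_
    group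
  have hVo : IsOpen (winS Sc N V n) := IR11.winS_open N hN Sc V n
  have hKo : IsOpen (winS Sc N K n) := IR11.winS_open N hN Sc K n
  have hOm : MeasurableSet ((fun g : G => (g : G ⧸ nrm N)) '' (V * W)) := by
    have h1 : IsOpen ((fun g : G => (g : G ⧸ nrm N)) '' (V * W)) :=
      QuotientGroup.isOpenMap_coe _ hO
    refine measurableSet_quotient.2 ?_
    exact (h1.preimage QuotientGroup.continuous_mk).measurableSet
  have hcompl : ν0.real ((fun g : G => (g : G ⧸ nrm N)) '' (V * W))ᶜ
      = 1 - ν0.real ((fun g : G => (g : G ⧸ nrm N)) '' (V * W)) := by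
    exact probReal_compl_eq_one_sub hOm
  filter_upwards [limit_low Sc N hN ν0 hν0 μk hk hlim K hK hKm' n (δ / 2) (by linarith)] with k h4
  have := hk k
  have h5 : (μk k).real (winS Sc N V n) + (μk k).real (winS Sc N K n) ≤ 1 := by
    rw [← measureReal_union hdis hKo.measurableSet]
    exact measureReal_le_one
  linarith

end Helper418IRS
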