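import Pool.Agent.Helper418_IRS.Defs

set_option autoImplicit false

namespace Helper418IRS

open MeasureTheory Set Topology Filter
open scoped Pointwise ENNReal

namespace IR5

section

variable {G : Type} [Group G]

/-- number of points of `A` in the coset `x` -/
noncomputable def cnt (Γ : Subgroup G) (A : Set G) (x : G ⧸ Γ) : ℝ≥0∞ :=
  ∑' γ : Γ, A.indicator (1 : G → ℝ≥0∞) (x.out * (γ : G))

theorem cnt_mk (Γ : Subgroup G) (A : Set G) (g : G) :
    cnt Γ A (g : G ⧸ Γ) = ∑' γ : Γ, A.indicator (1 : G → ℝ≥0∞) (g * (γ : G)) := by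
  unfold cnt
  obtain ⟨γ0, h⟩ := QuotientGroup.mk_out_eq_mul Γ g
  rw [h]
  rw [← (Equiv.mulLeft γ0).tsum_eq (fun γ : Γ => A.indicator (1 : G → ℝ≥0∞) (g * (γ : G)))]
  refine tsum_congr fun γ => ?_
  simp [mul_assoc]

theorem cnt_smul (Γ : Subgroup G) (A : Set G) (g : G) (x : G ⧸ Γ) :
    cnt Γ ((fun h => g * h) ⁻¹' A) x = cnt Γ A (g • x) := by
  induction x using QuotientGroup.induction_on with
  | H a =>
    have : g • ((a : G) : G ⧸ Γ) = ((g * a : G) : G ⧸ Γ) := rfl
    rw [this, cnt_mk, cnt_mk]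
    refine tsum_congr fun γ => ?_
    by_cases h : g * (a * (γ : G)) ∈ A
    · have h2 : g * a * (γ : G) ∈ A := by rwa [mul_assoc]
      rw [indicator_of_mem h2, indicator_of_mem (show a * (γ : G) ∈ (fun h => g * h) ⁻¹' A from h)]
      rfl
    · have h2 : g * a * (γ : G) ∉ A := by rwa [mul_assoc]
      rw [indicator_of_notMem h2,
        indicator_of_notMem (show a * (γ : G) ∉ (fun h => g * h) ⁻¹' A from h)]

theorem one_le_cnt (Γ : Subgroup G) (A : Set G) (x : G ⧸ Γ)
    (hx : x ∈ (fun g : G => (g : G ⧸ Γ)) '' A) : 1 ≤ cnt Γ A x := by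
  obtain ⟨a, ha, rfl⟩ := hx
  show 1 ≤ cnt Γ A (a : G ⧸ Γ)
  rw [cnt_mk]
  calc (1 : ℝ≥0∞) = A.indicator (1 : G → ℝ≥0∞) (a * ((1 : Γ) : G)) := by
        rw [indicator_of_mem (by simpa using ha)]; rfl
    _ ≤ _ := ENNReal.le_tsum (f := fun γ : Γ => A.indicator (1 : G → ℝ≥0∞) (a * (γ : G))) (1 : Γ)

theorem indicator_le_cnt (Γ : Subgroup G) (A : Set G) (x : G ⧸ Γ) :
    ((fun g : G => (g : G ⧸ Γ)) '' A).indicator (1 : G ⧸ Γ → ℝ≥0∞) x ≤ cnt Γ A x := by
  by_cases hx : x ∈ (fun g : G => (g : G ⧸ Γ)) '' A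
  · rw [indicator_of_mem hx]
    exact one_le_cnt Γ A x hx
  · rw [indicator_of_notMem hx]
    exact zero_le

theorem cnt_eq_indicator (Γ : Subgroup G) (A : Set G)
    (hA : ∀ a ∈ A, ∀ b ∈ A, a⁻¹ * b ∈ Γ → a = b) (x : G ⧸ Γ) :
    cnt Γ A x = ((fun g : G => (g : G ⧸ Γ)) '' A).indicator (1 : G ⧸ Γ → ℝ≥0∞) x := by
  by_cases hx : x ∈ (fun g : G => (g : G ⧸ Γ)) '' A
  · rw [indicator_of_mem hx]
    obtain ⟨a, ha, rfl⟩ := hx
    show cnt Γ A (a : G ⧸ Γ) = _
    rw [cnt_mk, tsum_eq_single (1 : Γ)]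
    · rw [indicator_of_mem (by simpa using ha)]; rfl
    · intro γ hγ
      apply indicator_of_notMem
      intro h
      apply hγ
      have := hA a ha _ h (by simp)
      have h2 : (γ : G) = 1 := by
        have h3 : a * 1 = a * (γ : G) := by rw [mul_one]; exact this
        exact (mul_left_cancel h3).symm
      exact Subtype.ext h2
  · rw [indicator_of_notMem hx]
    unfold cnt
    rw [ENNReal.tsum_eq_zero]
    intro γ
    apply indicator_of_notMem
    intro h
    apply hx
    refine ⟨_, h, ?_⟩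
    show ((x.out * (γ : G) : G) : G ⧸ Γ) = x
    rw [QuotientGroup.mk_mul_of_mem _ γ.2]
    exact QuotientGroup.out_eq' x

variable [MeasurableSpace G]

/-- counting measure on the coset -/
noncomputable def kap (Γ : Subgroup G) (x : G ⧸ Γ) : Measure G :=
  Measure.sum fun γ : Γ => Measure.dirac (x.out * (γ : G))

theorem kap_apply (Γ : Subgroup G) {A : Set G} (hA : MeasurableSet A) (x : G ⧸ Γ) :
    kap Γ x A = cnt Γ A x := by
  unfold kap cnt
  rw [Measure.sum_apply _ hA]
  refine tsum_congr fun γ => ?_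
  rw [Measure.dirac_apply' _ hA]

theorem measurable_cnt [MeasurableMul G] (Γ : Subgroup G) [Countable Γ] {A : Set G}
    (hA : MeasurableSet A) : Measurable (cnt Γ A) := by
  rw [QuotientGroup.measurable_from_quotient]
  have : (cnt Γ A ∘ ((↑) : G → G ⧸ Γ)) =
      fun g : G => ∑' γ : Γ, A.indicator (1 : G → ℝ≥0∞) (g * (γ : G)) := by
    funext g
    exact cnt_mk Γ A g
  rw [this]
  refine Measurable.tsum fun γ => ?_
  exact (measurable_one.indicator hA).comp (measurable_mul_const (γ : G))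

theorem measurable_kap [MeasurableMul G] (Γ : Subgroup G) [Countable Γ] :
    Measurable (kap Γ) := by
  refine Measure.measurable_of_measurable_coe _ fun A hA => ?_
  have : (fun x => kap Γ x A) = cnt Γ A := by
    funext x
    exact kap_apply Γ hA x
  rw [this]
  exact measurable_cnt Γ hA

theorem measurableSet_image [MeasurableMul G] (Γ : Subgroup G) [Countable Γ] {A : Set G}
    (hA : MeasurableSet A) : MeasurableSet ((fun g : G => (g : G ⧸ Γ)) '' A) := by
  have h : (fun g : G => (g : G ⧸ Γ)) '' A = cnt Γ A ⁻¹' (Ici 1) := by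
    ext x
    constructor
    · intro hx
      exact one_le_cnt Γ A x hx
    · intro hx
      by_contra hc
      have h0 : cnt Γ A x = 0 := by
        unfold cnt
        rw [ENNReal.tsum_eq_zero]
        intro γ
        apply indicator_of_notMem
        intro h
        apply hc
        refine ⟨_, h, ?_⟩
        show ((x.out * (γ : G) : G) : G ⧸ Γ) = x
        rw [QuotientGroup.mk_mul_of_mem _ γ.2]
        exact QuotientGroup.out_eq' x
      rw [mem_preimage, h0] at hx
      exact absurd hx (by simp)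
  rw [h]
  exact measurable_cnt Γ hA measurableSet_Ici

theorem measurable_smul_quot [MeasurableMul G] (Γ : Subgroup G) (g : G) :
    Measurable (fun x : G ⧸ Γ => g • x) := by
  rw [QuotientGroup.measurable_from_quotient]
  have : ((fun x : G ⧸ Γ => g • x) ∘ ((↑) : G → G ⧸ Γ)) = fun a : G => ((g * a : G) : G ⧸ Γ) := rfl
  rw [this]
  exact QuotientGroup.measurable_coe.comp (measurable_const_mul g)

/-- the lifted measure -/
noncomputable def lam (Γ : Subgroup G) (ν : Measure (G ⧸ Γ)) : Measure G := ν.bind (kap Γ)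

theorem lam_apply [MeasurableMul G] (Γ : Subgroup G) [Countable Γ] (ν : Measure (G ⧸ Γ))
    {A : Set G} (hA : MeasurableSet A) : lam Γ ν A = ∫⁻ x, cnt Γ A x ∂ν := by
  unfold lam
  rw [Measure.bind_apply hA (measurable_kap Γ).aemeasurable]
  exact lintegral_congr fun x => kap_apply Γ hA x

theorem lam_map [MeasurableMul G] (Γ : Subgroup G) [Countable Γ] (ν : Measure (G ⧸ Γ))
    (hν : ∀ g : G, ν.map (fun x => g • x) = ν) (g : G) :
    (lam Γ ν).map (fun h => g * h) = lam Γ ν := by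
  ext A hA
  rw [Measure.map_apply (measurable_const_mul g) hA,
    lam_apply Γ ν (measurable_const_mul g hA), lam_apply Γ ν hA]
  conv_rhs => rw [← hν g]
  rw [lintegral_map (measurable_cnt Γ hA) (measurable_smul_quot Γ g)]
  exact lintegral_congr fun x => cnt_smul Γ A g x

end

theorem countable_of_discrete {G : Type} [Group G] [TopologicalSpace G]
    [SecondCountableTopology G] (Γ : ClosedSubgroup G)
    (hΓ : DiscreteTopology Γ) : Countable Γ.toSubgroup := by
  have : DiscreteTopology Γ.toSubgroup := hΓ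
  have : SecondCountableTopology Γ.toSubgroup := inferInstance
  exact countable_of_Lindelof_of_discrete

theorem cnt_compact {G : Type} [Group G] [TopologicalSpace G] [IsTopologicalGroup G]
    (Γ : ClosedSubgroup G) (hΓ : DiscreteTopology Γ) (K : Set G) (hK : IsCompact K) :
    ∃ n : ℕ, ∀ x : G ⧸ Γ.toSubgroup, cnt Γ.toSubgroup K x ≤ n := by
  have hcl : IsClosed (Γ.toSubgroup : Set G) := Γ.isClosed'
  have hc : IsCompact ((K⁻¹ * K) ∩ (Γ.toSubgroup : Set G)) := (hK.inv.mul hK).inter_right hcl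
  have : DiscreteTopology Γ.toSubgroup := hΓ
  have hc2 : IsCompact ((fun γ : Γ.toSubgroup => (γ : G)) ⁻¹' (K⁻¹ * K)) := by
    have := hcl.isClosedEmbedding_subtypeVal.isCompact_preimage (hK.inv.mul hK)
    exact this
  have hfin : ((fun γ : Γ.toSubgroup => (γ : G)) ⁻¹' (K⁻¹ * K)).Finite := hc2.finite_of_discrete
  refine ⟨hfin.toFinset.card, fun x => ?_⟩
  by_cases hx : x ∈ (fun g : G => (g : G ⧸ Γ.toSubgroup)) '' K
  · obtain ⟨a, ha, rfl⟩ := hx
    show cnt Γ.toSubgroup K (a : G ⧸ Γ.toSubgroup) ≤ _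
    rw [cnt_mk, tsum_eq_sum (s := hfin.toFinset)]
    · calc ∑ γ ∈ hfin.toFinset, K.indicator (1 : G → ℝ≥0∞) (a * (γ : G))
          ≤ ∑ γ ∈ hfin.toFinset, (1 : ℝ≥0∞) := by
            refine Finset.sum_le_sum fun γ _ => ?_
            by_cases h : a * (γ : G) ∈ K
            · rw [indicator_of_mem h]; rfl
            · rw [indicator_of_notMem h]; exact zero_le
        _ = _ := by simp
    · intro γ hγ
      apply indicator_of_notMem
      intro h
      apply hγ
      rw [Set.Finite.mem_toFinset]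
      show (γ : G) ∈ K⁻¹ * K
      exact ⟨a⁻¹, Set.inv_mem_inv.2 ha, a * γ, h, by simp⟩
  · have h0 : cnt Γ.toSubgroup K x = 0 := by
      unfold cnt
      rw [ENNReal.tsum_eq_zero]
      intro γ
      apply indicator_of_notMem
      intro h
      apply hx
      refine ⟨_, h, ?_⟩
      show ((x.out * (γ : G) : G) : G ⧸ Γ.toSubgroup) = x
      rw [QuotientGroup.mk_mul_of_mem _ γ.2]
      exact QuotientGroup.out_eq' x
    rw [h0]
    exact zero_le

end IR5

/-- TARGET -/
theorem lattice_formula {G : Type} [Group G] [TopologicalSpace G] [IsTopologicalGroup G]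
    [T2Space G] [LocallyCompactSpace G] [SecondCountableTopology G] [MeasurableSpace G]
    [BorelSpace G] (m : Measure G) [m.IsHaarMeasure] (Γ : ClosedSubgroup G)
    (hΓ : DiscreteTopology Γ) (ν : Measure (G ⧸ Γ.toSubgroup)) (hν : InvProb Γ.toSubgroup ν) :
    ∃ c : ℝ≥0∞, c ≠ 0 ∧ c ≠ ∞ ∧ ∀ A : Set G, MeasurableSet A →
      MeasurableSet ((fun g : G => (g : G ⧸ Γ.toSubgroup)) '' A) ∧
      ν ((fun g : G => (g : G ⧸ Γ.toSubgroup)) '' A) ≤ c * m A ∧
      ((∀ a ∈ A, ∀ b ∈ A, a⁻¹ * b ∈ Γ → a = b) →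
        ν ((fun g : G => (g : G ⧸ Γ.toSubgroup)) '' A) = c * m A) := by
  obtain ⟨hprob, hinv⟩ := hν
  have : Countable Γ.toSubgroup := IR5.countable_of_discrete Γ hΓ
  have : MeasurableMul G := inferInstance
  have h1 : (IR5.lam Γ.toSubgroup ν).IsMulLeftInvariant :=
    ⟨fun g => IR5.lam_map Γ.toSubgroup ν hinv g⟩
  have h2 : IsFiniteMeasureOnCompacts (IR5.lam Γ.toSubgroup ν) := by
    refine ⟨fun K hK => ?_⟩
    obtain ⟨n, hn⟩ := IR5.cnt_compact Γ hΓ K hK
    rw [IR5.lam_apply Γ.toSubgroup ν hK.measurableSet]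
    calc ∫⁻ x, IR5.cnt Γ.toSubgroup K x ∂ν ≤ ∫⁻ _, (n : ℝ≥0∞) ∂ν := lintegral_mono fun x => hn x
      _ = n := by simp
      _ < ∞ := ENNReal.natCast_lt_top n
  have h3 := Measure.isMulLeftInvariant_eq_smul (IR5.lam Γ.toSubgroup ν) m
  have key : ∀ A : Set G, MeasurableSet A → ∫⁻ x, IR5.cnt Γ.toSubgroup A x ∂ν =
      (Measure.haarScalarFactor (IR5.lam Γ.toSubgroup ν) m : ℝ≥0∞) * m A := by
    intro A hA
    rw [← IR5.lam_apply Γ.toSubgroup ν hA]
    conv_lhs => rw [h3]
    rw [Measure.smul_apply]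
    rfl
  refine ⟨(Measure.haarScalarFactor (IR5.lam Γ.toSubgroup ν) m : ℝ≥0∞), ?_, ENNReal.coe_ne_top,
    fun A hA => ?_⟩
  · intro h0
    have h4 := key univ MeasurableSet.univ
    rw [h0, zero_mul] at h4
    have h5 : (1 : ℝ≥0∞) ≤ ∫⁻ x, IR5.cnt Γ.toSubgroup univ x ∂ν := by
      calc (1 : ℝ≥0∞) = ∫⁻ _, (1 : ℝ≥0∞) ∂ν := by simp
        _ ≤ _ := by
          refine lintegral_mono fun x => ?_
          apply IR5.one_le_cnt
          exact ⟨x.out, mem_univ _, QuotientGroup.out_eq' x⟩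
    rw [h4] at h5
    exact absurd h5 (by simp)
  · have hm := IR5.measurableSet_image Γ.toSubgroup hA
    refine ⟨hm, ?_, fun hinj => ?_⟩
    · rw [← key A hA, ← lintegral_indicator_one hm]
      exact lintegral_mono fun x => IR5.indicator_le_cnt Γ.toSubgroup A x
    · rw [← key A hA, ← lintegral_indicator_one hm]
      exact lintegral_congr fun x => (IR5.cnt_eq_indicator Γ.toSubgroup A hinj x).symm

end Helper418IRS
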