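import Pool.Agent.Helper418_IRS.IR7
import Pool.Agent.Helper418_IRS.IR5
import Pool.Agent.Helper418_IRS.IR2
import Pool.Agent.Helper418_IRS.IR11
import Pool.Agent.Helper418_IRS.Defs

set_option autoImplicit false

namespace Helper418IRS

open MeasureTheory Set Topology Filter
open scoped Pointwise ENNReal

/-! GIVEN (proved elsewhere) -/





/-- the window at scale `n` in `G ⧸ Γ` -/
def win {G : Type} [Group G] [TopologicalSpace G] [IsTopologicalGroup G] (Sc : Scales G)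
    (N Γ : ClosedSubgroup G) (V : Set G) (n : ℕ) : Set (G ⧸ Γ.toSubgroup) :=
  {x | ∃ v ∈ V, Sc.cl n (cosetConj Γ.toSubgroup Γ x) (conj v N)}

namespace IR10

section
variable {G : Type} [Group G]

/-- conjugates, by elements of `R`, of elements of `O'` -/
def Cj (R : Finset G) (O' : Set G) (x : G) : Prop := ∃ r ∈ R, ∃ z ∈ O', x = r * z * r⁻¹

theorem Cj.of {R : Finset G} (hR1 : (1 : G) ∈ R) {O' : Set G} {x : G} (hx : x ∈ O') : Cj R O' x :=
  ⟨1, hR1, x, hx, by simp⟩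

theorem Cj.cj {R : Finset G} {O' : Set G} {r x : G} (hr : r ∈ R) (hx : x ∈ O') :
    Cj R O' (r * x * r⁻¹) := ⟨r, hr, x, hx, rfl⟩

theorem Cj.cj' {R : Finset G} (hRinv : ∀ r ∈ R, r⁻¹ ∈ R) {O' : Set G} {r x : G} (hr : r ∈ R)
    (hx : x ∈ O') : Cj R O' (r⁻¹ * x * r) := ⟨r⁻¹, hRinv r hr, x, hx, by simp⟩

variable [TopologicalSpace G]

theorem shr_list {R : Finset G} (hR1 : (1 : G) ∈ R) {O' O : Set G} (h : Shr R O' O) (L : List G)
    (hl : L.length ≤ 8) (hL : ∀ x ∈ L, Cj R O' x) : L.prod ∈ O := by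
  have h1 : (1 : G) ∈ O' := mem_of_mem_nhds h.nhds
  have hl2 : (L ++ List.replicate (8 - L.length) 1).length = 8 := by
    rw [List.length_append, List.length_replicate]; omega
  have hall : ∀ x ∈ L ++ List.replicate (8 - L.length) (1 : G), Cj R O' x := by
    intro x hx
    rcases List.mem_append.mp hx with hx | hx
    · exact hL x hx
    · rw [List.eq_of_mem_replicate hx]
      exact Cj.of hR1 h1
  have hp := h.prod (fun i => (L ++ List.replicate (8 - L.length) 1)[(i : ℕ)]'(by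
    rw [hl2]; exact i.2)) (fun i => hall _ (List.getElem_mem _))
  have he : List.ofFn (fun i : Fin 8 => (L ++ List.replicate (8 - L.length) 1)[(i : ℕ)]'(by
      rw [hl2]; exact i.2)) = L ++ List.replicate (8 - L.length) 1 := by
    apply List.ext_getElem
    · rw [List.length_ofFn, hl2]
    · intro n h1 h2
      rw [List.getElem_ofFn]
  rw [he] at hp
  simpa using hp

theorem shr1 {R : Finset G} (hR1 : (1 : G) ∈ R) {O' O : Set G} (h : Shr R O' O) : O' ⊆ O := by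
  intro x hx
  have := shr_list hR1 h [x] (by simp) (by
    intro y hy
    rw [List.mem_singleton] at hy
    subst hy
    exact Cj.of hR1 hx)
  simpa using this

theorem shr3 {R : Finset G} (hR1 : (1 : G) ∈ R) {O' O : Set G} (h : Shr R O' O) {x y z : G}
    (hx : Cj R O' x) (hy : Cj R O' y) (hz : Cj R O' z) : x * y * z ∈ O := by
  have := shr_list hR1 h [x, y, z] (by simp) (by
    intro w hw
    simp only [List.mem_cons, List.not_mem_nil, or_false] at hw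
    rcases hw with rfl | rfl | rfl <;> assumption)
  simpa [mul_assoc] using this

theorem shr2 {R : Finset G} (hR1 : (1 : G) ∈ R) {O' O : Set G} (h : Shr R O' O) {x y : G}
    (hx : Cj R O' x) (hy : Cj R O' y) : x * y ∈ O := by
  have := shr_list hR1 h [x, y] (by simp) (by
    intro w hw
    simp only [List.mem_cons, List.not_mem_nil, or_false] at hw
    rcases hw with rfl | rfl <;> assumption)
  simpa [mul_assoc] using this

theorem shr4 {R : Finset G} (hR1 : (1 : G) ∈ R) {O' O : Set G} (h : Shr R O' O) {x y z t : G}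
    (hx : Cj R O' x) (hy : Cj R O' y) (hz : Cj R O' z) (ht : Cj R O' t) : x * y * z * t ∈ O := by
  have := shr_list hR1 h [x, y, z, t] (by simp) (by
    intro w hw
    simp only [List.mem_cons, List.not_mem_nil, or_false] at hw
    rcases hw with rfl | rfl | rfl | rfl <;> assumption)
  simpa [mul_assoc] using this

theorem shr5 {R : Finset G} (hR1 : (1 : G) ∈ R) {O' O : Set G} (h : Shr R O' O) {x y z t s : G}
    (hx : Cj R O' x) (hy : Cj R O' y) (hz : Cj R O' z) (ht : Cj R O' t) (hs : Cj R O' s) :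
    x * y * z * t * s ∈ O := by
  have := shr_list hR1 h [x, y, z, t, s] (by simp) (by
    intro w hw
    simp only [List.mem_cons, List.not_mem_nil, or_false] at hw
    rcases hw with rfl | rfl | rfl | rfl | rfl <;> assumption)
  simpa [mul_assoc] using this

end

theorem stab {G : Type} [Group G] [TopologicalSpace G] [IsTopologicalGroup G]
    (Γ : ClosedSubgroup G) (h : G) (x : G ⧸ Γ.toSubgroup) :
    h ∈ cosetConj Γ.toSubgroup Γ x ↔ h • x = x := by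
  have hc : ∀ γ ∈ Γ.toSubgroup, conj γ Γ = Γ := fun γ h => conj_self h
  induction x using QuotientGroup.induction_on with
  | H a =>
    rw [cosetConj_mk hc a, mem_conj]
    have : (h • (a : G ⧸ Γ.toSubgroup)) = ((h * a : G) : G ⧸ Γ.toSubgroup) := rfl
    rw [this, eq_comm, QuotientGroup.eq, mul_assoc]
    rfl

theorem meas_win {G : Type} [Group G] [TopologicalSpace G] [IsTopologicalGroup G]
    [T2Space G] [LocallyCompactSpace G] [SecondCountableTopology G] [MeasurableSpace G]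
    [BorelSpace G] (Sc : Scales G) (N : ClosedSubgroup G) (hN : DiscreteTopology N)
    (Γ : ClosedSubgroup G) (V : Set G) (n : ℕ) : MeasurableSet (win Sc N Γ V n) := by
  have hc : ∀ γ ∈ Γ.toSubgroup, conj γ Γ = Γ := fun γ h => conj_self h
  have hm := measurable_cosetConj Γ.toSubgroup Γ hc
  have hU : IsOpen (⋃ v ∈ V, {H : ClosedSubgroup G | Sc.cl n H (conj v N)}) :=
    isOpen_biUnion fun v _ => isOpen_cl N hN Sc n v
  have : win Sc N Γ V n = cosetConj Γ.toSubgroup Γ ⁻¹'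
      (⋃ v ∈ V, {H : ClosedSubgroup G | Sc.cl n H (conj v N)}) := by
    ext x
    simp [win]
  rw [this]
  exact hm hU.measurableSet

end IR10

open IR10

/-- TARGET -/
theorem one_lattice {G : Type} [Group G] [TopologicalSpace G] [IsTopologicalGroup G]
    [T2Space G] [LocallyCompactSpace G] [SecondCountableTopology G] [MeasurableSpace G]
    [BorelSpace G] (m : Measure G) [m.IsHaarMeasure] [m.IsMulRightInvariant]
    (Sc : Scales G) (N : ClosedSubgroup G) (hN : DiscreteTopology N)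
    (Γ : ClosedSubgroup G) (hΓ : DiscreteTopology Γ) (ν : Measure (G ⧸ Γ.toSubgroup))
    (hν : InvProb Γ.toSubgroup ν)
    (R : Finset G) (hR1 : (1 : G) ∈ R) (hRinv : ∀ r ∈ R, r⁻¹ ∈ R) (hRn : ∀ r ∈ R, r ∈ nrm N)
    (O1 T0 U0 V W U1 : Set G) (hO1 : ∀ l ∈ nrm N, l ∈ O1 → l = 1) (hOU : O1 ⊆ U1)
    (s1 : Shr R T0 O1) (s2 : Shr R U0 T0) (s3 : Shr R V U0) (hWV : W ⊆ V) (hWo : IsOpen W)
    (h1W : (1 : G) ∈ W) (hWfin : m (V * W) ≠ ∞) (n3 n2 n1 n0 : ℕ)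
    (h32 : n3 ≤ n2) (h21 : n2 ≤ n1) (h10 : n1 ≤ n0)
    (hA : ∀ g ∈ V, ∀ g' ∈ V, ∀ u ∈ T0, ∀ H : ClosedSubgroup G,
      Sc.cl n3 H (conj g N) → Sc.cl n3 (conj u H) (conj g' N) →
        ∃ l ∈ nrm N, g'⁻¹ * u * g * l⁻¹ ∈ W)
    (hF : ∀ v ∈ V, ∀ H : ClosedSubgroup G, Sc.cl n3 H (conj v N) → ∀ h ∈ H, h ∈ U1 → h = 1)
    (hUW : Sc.U n3 ⊆ W) (hB : ∀ r ∈ R, ∀ a ∈ U0, ∀ b ∈ U0, a * b * r ∈ Sc.B n3)
    (hB' : ∀ r ∈ R, ∀ v ∈ V, v * r * v⁻¹ ∈ Sc.B n3)
    (t2 : ∀ v ∈ V, ∀ v' ∈ V, ∀ r ∈ R, ∀ H : ClosedSubgroup G, Sc.cl n2 H (conj v N) →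
      Sc.cl n3 (conj (v' * r * v⁻¹) H) (conj v' N))
    (t1 : ∀ v ∈ V, ∀ r ∈ R, ∀ H : ClosedSubgroup G, Sc.cl n1 H (conj v N) →
      Sc.cl n2 (conj (v * r * v⁻¹) H) (conj v N))
    (t0 : ∀ v ∈ V, ∀ r ∈ R, ∀ H : ClosedSubgroup G, Sc.cl n0 H (conj v N) →
      Sc.cl n1 (conj (v * r * v⁻¹) H) (conj v N))
    {Q : Type} [Group Q] (r : Q → G) (E : Finset Q) (hr : ∀ q ∈ E, r q ∈ R)
    (hrr : ∀ p ∈ E, ∀ q ∈ E, r (p * q) ∈ R)
    (hn : ∀ p ∈ E, ∀ q ∈ E, (r (p * q))⁻¹ * r p * r q ∈ R ∧ (r (p * q))⁻¹ * r p * r q ∈ N)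
    (hf : ∀ q ∈ E, q ≠ 1 → r q ∉ N) (ε : ℝ)
    (hR : (1 - ε) * (ν.real (win Sc N Γ V n3) * m.real (V * W))
      ≤ ν.real (win Sc N Γ V n0) * m.real V)
    (pos : 0 < ν.real (win Sc N Γ V n0)) :
    ∃ (Z : Type) (_ : Fintype Z) (_ : DecidableEq Z) (Z0 Z1 : Finset Z) (σ : Q → Z → Z),
      Z0.Nonempty ∧ Z0 ⊆ Z1 ∧ (∀ q ∈ E, Set.InjOn (σ q) Z1) ∧
      (∀ q ∈ E, ∀ z ∈ Z0, σ q z ∈ Z1) ∧
      (∀ p ∈ E, ∀ q ∈ E, p * q ∈ E → ∀ z ∈ Z0, σ p (σ q z) = σ (p * q) z) ∧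
      (∀ q ∈ E, q ≠ 1 → ∀ z ∈ Z1, σ q z ≠ z) ∧
      (1 - ε) * Fintype.card Z ≤ Z0.card :=
  by
  classical
  have : IsProbabilityMeasure ν := hν.1
  have hc : ∀ γ ∈ Γ.toSubgroup, conj γ Γ = Γ := fun γ h => conj_self h
  have hVU : V ⊆ U0 := shr1 hR1 s3
  have hUT : U0 ⊆ T0 := shr1 hR1 s2
  have hTO : T0 ⊆ O1 := shr1 hR1 s1
  have hVT : V ⊆ T0 := hVU.trans hUT
  have h1V : (1 : G) ∈ V := hWV h1W
  have hVm : V ∈ 𝓝 (1 : G) := s3.nhds
  have hVc : IsCompact V := s3.compact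
  -- the key step
  have key : ∀ y ∈ win Sc N Γ V n3, ∀ v ∈ V,
      Sc.cl n3 (cosetConj Γ.toSubgroup Γ y) (conj v N) → ∀ t ∈ T0, t • y ∈ win Sc N Γ V n3 →
      ∃ v' ∈ V, ∃ w ∈ W, t = v' * w * v⁻¹ := by
    intro y _ v hv hcl t ht hty
    obtain ⟨v', hv', hcl'⟩ := hty
    rw [cosetConj_smul hc] at hcl'
    obtain ⟨l, hl, hw⟩ := hA v hv v' hv' t ht _ hcl hcl'
    have hlO : l ∈ O1 := by
      have e : l = (v'⁻¹ * t * v * l⁻¹)⁻¹ * v'⁻¹ * t * v := by group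
      rw [e]
      exact shr4 hR1 s1 (Cj.of hR1 (s1.symm _ (hVT (hWV hw)))) (Cj.of hR1 (s1.symm _ (hVT hv')))
        (Cj.of hR1 ht) (Cj.of hR1 (hVT hv))
    have hl1 : l = 1 := hO1 l hl hlO
    subst hl1
    refine ⟨v', hv', _, hw, ?_⟩
    group
  obtain ⟨c, hc0, hct, hcf⟩ := lattice_formula m Γ hΓ ν hν
  have hcr : 0 < c.toReal := ENNReal.toReal_pos hc0 hct
  have hmV : 0 < m.real V := by
    refine ENNReal.toReal_pos ?_ hVc.measure_lt_top.ne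
    exact (Measure.measure_pos_of_mem_nhds m hVm).ne'
  have hmVW : 0 < m.real (V * W) := by
    refine ENNReal.toReal_pos ?_ hWfin
    have : W ⊆ V * W := fun w hw => ⟨1, h1V, w, hw, one_mul w⟩
    exact ((hWo.measure_pos m ⟨1, h1W⟩).trans_le (measure_mono this)).ne'
  refine sofic_data ν U0 T0 (win Sc N Γ V n0) (win Sc N Γ V n1) (win Sc N Γ V n2)
    (win Sc N Γ V n3) ?_ ?_ ?_ (meas_win Sc N hN Γ V n0) (meas_win Sc N hN Γ V n3)
    (hVU h1V) s2.symm r E ?_ ?_ ?_ ?_ ?_ ?_ ?_ ?_ ?_ (c.toReal * m.real V)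
    (c.toReal * m.real (V * W)) ε (mul_pos hcr hmV) (mul_pos hcr hmVW) ?_ ?_ ?_ pos
  · rintro x ⟨v, hv, hx⟩
    exact ⟨v, hv, Sc.cl_mono h10 hx⟩
  · rintro x ⟨v, hv, hx⟩
    exact ⟨v, hv, Sc.cl_mono h21 hx⟩
  · rintro x ⟨v, hv, hx⟩
    exact ⟨v, hv, Sc.cl_mono h32 hx⟩
  · intro a ha b hb c hc
    exact shr3 hR1 s2 (Cj.of hR1 ha) (Cj.of hR1 hb) (Cj.of hR1 hc)
  · intro q hq a ha b hb c hc
    exact shr3 hR1 s2 (Cj.of hR1 ha) (Cj.cj (hr q hq) hb) (Cj.of hR1 hc)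
  · intro q hq a ha b hb c hc
    have e : (r q)⁻¹ * (a * b * c) * r q =
        ((r q)⁻¹ * a * r q) * ((r q)⁻¹ * b * r q) * ((r q)⁻¹ * c * r q) := by group
    rw [e]
    exact shr3 hR1 s2 (Cj.cj' hRinv (hr q hq) ha) (Cj.cj' hRinv (hr q hq) hb)
      (Cj.cj' hRinv (hr q hq) hc)
  · intro p hp q hq a ha b hb c hc d hd
    exact shr4 hR1 s2 (Cj.of hR1 ha) (Cj.cj (hr p hp) hb) (Cj.cj (hrr p hp q hq) hc)
      (Cj.of hR1 hd)
  · intro y hy t ht hty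
    obtain ⟨v, hv, hcl⟩ := hy
    obtain ⟨v', hv', w, hw, rfl⟩ := key y ⟨v, hv, hcl⟩ v hv hcl t ht hty
    exact shr3 hR1 s3 (Cj.of hR1 hv') (Cj.of hR1 (hWV hw)) (Cj.of hR1 (s3.symm _ hv))
  · rintro q hq y ⟨v, hv, hcl⟩
    refine ⟨v * (r q * v⁻¹ * (r q)⁻¹), shr2 hR1 s3 (Cj.of hR1 hv)
      (Cj.cj (hr q hq) (s3.symm _ hv)), v, hv, ?_⟩
    have e : v * (r q * v⁻¹ * (r q)⁻¹) * r q = v * r q * v⁻¹ := by group
    rw [e, cosetConj_smul hc]
    exact t0 v hv (r q) (hr q hq) _ hcl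
  · rintro q hq y ⟨v, hv, hcl⟩
    refine ⟨v * (r q * v⁻¹ * (r q)⁻¹), shr2 hR1 s3 (Cj.of hR1 hv)
      (Cj.cj (hr q hq) (s3.symm _ hv)), v, hv, ?_⟩
    have e : v * (r q * v⁻¹ * (r q)⁻¹) * r q = v * r q * v⁻¹ := by group
    rw [e, cosetConj_smul hc]
    exact t1 v hv (r q) (hr q hq) _ hcl
  · rintro p hp q hq - y ⟨v, hv, hcl⟩
    have hcl3 := Sc.cl_mono h32 hcl
    obtain ⟨hnR, hnN⟩ := hn p hp q hq
    generalize (r (p * q))⁻¹ * r p * r q = n at *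
    obtain ⟨h, hh, hw⟩ := hcl3.2 (v * n * v⁻¹) (by
      rw [mem_conj]
      have e : v⁻¹ * (v * n * v⁻¹) * v = n := by group
      rw [e]; exact hnN) (hB' n hnR v hv)
    have hwV := hWV (hUW hw)
    set w := (v * n * v⁻¹)⁻¹ * h with hwdef
    have hx : v * (n * v⁻¹ * n⁻¹) * (n * w * n⁻¹) ∈ U0 :=
      shr3 hR1 s3 (Cj.of hR1 hv) (Cj.cj hnR (s3.symm _ hv)) (Cj.cj hnR hwV)
    refine ⟨_, s2.symm _ hx, ?_⟩
    have e : h = (v * (n * v⁻¹ * n⁻¹) * (n * w * n⁻¹)) * n := by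
      rw [hwdef]; group
    have hy := (stab Γ h y).1 hh
    rw [e, mul_smul] at hy
    rw [eq_inv_smul_iff]
    exact hy
  · rintro q hq hq1 y ⟨v, hv, hcl⟩ a ha b hb heq
    have hh := (stab Γ _ y).2 heq
    obtain ⟨l, hl, hw⟩ := hcl.1 _ hh (hB (r q) (hr q hq) a ha b hb)
    have hwV := hWV (hUW hw)
    set w := l⁻¹ * (a * b * r q) with hwdef
    rw [mem_conj] at hl
    have hO : (v⁻¹ * l * v) * (r q)⁻¹ ∈ O1 := by
      have e : (v⁻¹ * l * v) * (r q)⁻¹ =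
          v⁻¹ * a * b * (r q * w⁻¹ * (r q)⁻¹) * (r q * v * (r q)⁻¹) := by
        rw [hwdef]; group
      rw [e]
      exact shr5 hR1 s1 (Cj.of hR1 (s1.symm _ (hVT hv))) (Cj.of hR1 (hUT ha))
        (Cj.of hR1 (hUT hb)) (Cj.cj (hr q hq) (s1.symm _ (hVT hwV))) (Cj.cj (hr q hq) (hVT hv))
    have h1 := hO1 _ ((nrm N).mul_mem (le_nrm N hl) ((nrm N).inv_mem (hRn _ (hr q hq)))) hO
    apply hf q hq hq1
    rw [mul_inv_eq_one] at h1
    rw [← h1]
    exact hl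
  · rintro y ⟨v, hv, hcl⟩
    have hcl3 := Sc.cl_mono h32 hcl
    induction y using QuotientGroup.induction_on with
    | H g =>
      have hAm : MeasurableSet ((fun x => x * (v⁻¹ * g)⁻¹) ⁻¹' V) :=
        (measurable_mul_const _) hVc.isClosed.measurableSet
      obtain ⟨d1, -, d3⟩ := hcf _ hAm
      have hD : ∀ w ∈ (fun g : G => (g : G ⧸ Γ.toSubgroup)) '' ((fun x => x * (v⁻¹ * g)⁻¹) ⁻¹' V),
          ∃ v1 ∈ V, w = (v1 * v⁻¹) • (g : G ⧸ Γ.toSubgroup) := by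
        rintro w ⟨x, hx, rfl⟩
        refine ⟨_, hx, ?_⟩
        show (x : G ⧸ Γ.toSubgroup) = ((x * (v⁻¹ * g)⁻¹ * v⁻¹ * g : G) : G ⧸ Γ.toSubgroup)
        congr 1
        group
      refine ⟨_, ?_, d1, ?_, ?_⟩
      · intro w hw
        obtain ⟨v1, hv1, rfl⟩ := hD w hw
        refine ⟨v1, hv1, ?_⟩
        rw [cosetConj_smul hc]
        have := t2 v hv v1 hv1 1 hR1 _ hcl
        rwa [mul_one] at this
      · have := d3 (by
          intro a ha b hb hab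
          simp only [mem_preimage] at ha hb
          have h1 : a * (v⁻¹ * g)⁻¹ * v⁻¹ * g = a := by group
          have hmem : v * (a * (v⁻¹ * g)⁻¹)⁻¹ * (b * (v⁻¹ * g)⁻¹) * v⁻¹ ∈
              cosetConj Γ.toSubgroup Γ (g : G ⧸ Γ.toSubgroup) := by
            rw [cosetConj_mk hc, mem_conj]
            have e : g⁻¹ * (v * (a * (v⁻¹ * g)⁻¹)⁻¹ * (b * (v⁻¹ * g)⁻¹) * v⁻¹) * g = a⁻¹ * b := by
              group
            rw [e]
            exact hab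
          have hU : v * (a * (v⁻¹ * g)⁻¹)⁻¹ * (b * (v⁻¹ * g)⁻¹) * v⁻¹ ∈ U1 :=
            hOU (shr4 hR1 s1 (Cj.of hR1 (hVT hv)) (Cj.of hR1 (s1.symm _ (hVT ha)))
              (Cj.of hR1 (hVT hb)) (Cj.of hR1 (s1.symm _ (hVT hv))))
          have h2 := hF v hv _ hcl3 _ hmem hU
          have h3 : a⁻¹ * b = 1 := by
            have e : a⁻¹ * b = g⁻¹ * (v * (a * (v⁻¹ * g)⁻¹)⁻¹ * (b * (v⁻¹ * g)⁻¹) * v⁻¹) * g := by
              group
            rw [e, h2]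
            group
          exact (inv_mul_eq_one.mp h3))
        rw [measure_preimage_mul_right] at this
        show c.toReal * (m V).toReal ≤ (ν _).toReal
        rw [this, ENNReal.toReal_mul]
      · intro w hw
        obtain ⟨v1, hv1, rfl⟩ := hD w hw
        exact ⟨_, shr2 hR1 s3 (Cj.of hR1 hv1) (Cj.of hR1 (s3.symm _ hv)), rfl⟩
  · rintro y ⟨v, hv, hcl⟩
    have h30 : n3 ≤ n0 := h32.trans (h21.trans h10)
    have hcl3 := Sc.cl_mono h30 hcl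
    induction y using QuotientGroup.induction_on with
    | H g =>
      have hVWo : IsOpen (V * W) := hWo.mul_left
      have hAm : MeasurableSet ((fun x => x * (v⁻¹ * g)⁻¹) ⁻¹' (V * W)) :=
        (measurable_mul_const _) hVWo.measurableSet
      obtain ⟨-, d2, -⟩ := hcf _ hAm
      refine ⟨(fun g : G => (g : G ⧸ Γ.toSubgroup)) '' ((fun x => x * (v⁻¹ * g)⁻¹) ⁻¹' (V * W)),
        ?_, ?_⟩
      · rintro w hw ⟨u, hu, rfl⟩
        obtain ⟨v2, hv2, hcl2⟩ := hw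
        obtain ⟨v', hv', w', hw', rfl⟩ := key _ ⟨v, hv, hcl3⟩ v hv hcl3 u (hUT hu)
          ⟨v2, hv2, Sc.cl_mono h30 hcl2⟩
        refine ⟨v' * w' * v⁻¹ * g, ?_, rfl⟩
        show v' * w' * v⁻¹ * g * (v⁻¹ * g)⁻¹ ∈ V * W
        have e : v' * w' * v⁻¹ * g * (v⁻¹ * g)⁻¹ = v' * w' := by group
        rw [e]
        exact mul_mem_mul hv' hw'
      · rw [measure_preimage_mul_right] at d2
        have h1 : c * m (V * W) ≠ ∞ := ENNReal.mul_ne_top hct hWfin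
        have h2 := ENNReal.toReal_mono h1 d2
        rwa [ENNReal.toReal_mul] at h2
  · have := mul_le_mul_of_nonneg_left hR hcr.le
    calc _ = c.toReal * ((1 - ε) * (ν.real (win Sc N Γ V n3) * m.real (V * W))) := by ring
      _ ≤ _ := this
      _ = _ := by ring

end Helper418IRS
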