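import Pool.Agent.Helper418_IRS.Defs

set_option autoImplicit false

namespace Helper418IRS

open MeasureTheory Set Topology Filter
open scoped Pointwise ENNReal

namespace IR4

theorem conj_mem {G : Type} [Group G] [TopologicalSpace G] [IsTopologicalGroup G] {u x : G}
    {H : ClosedSubgroup G} (hx : x ∈ H) : u * x * u⁻¹ ∈ conj u H := by
  rw [mem_conj]
  have : u⁻¹ * (u * x * u⁻¹) * u = x := by group
  rw [this]
  exact hx

/-- uniform conjugation: a neighbourhood of `1` moved into a given one by a compact set -/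
theorem tube {G : Type} [Group G] [TopologicalSpace G] [IsTopologicalGroup G] (T : Set G)
    (hT : IsCompact T) (O : Set G) (hO : O ∈ 𝓝 (1 : G)) :
    ∃ W ∈ 𝓝 (1 : G), ∀ u ∈ T, ∀ x ∈ W, u * x * u⁻¹ ∈ O := by
  have hc : Continuous (fun p : G × G => p.1 * p.2 * p.1⁻¹) := by fun_prop
  obtain ⟨a, b, ha, hb, hTa, h1b, hab⟩ := generalized_tube_lemma hT (isCompact_singleton (x := (1 : G)))
    (isOpen_interior.preimage hc) (n := (fun p : G × G => p.1 * p.2 * p.1⁻¹) ⁻¹' interior O) (by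
      rintro ⟨u, x⟩ ⟨_, hx⟩
      rw [mem_singleton_iff] at hx
      have hx' : x = 1 := hx
      show u * x * u⁻¹ ∈ interior O
      rw [hx', mul_one, mul_inv_cancel]
      exact mem_interior_iff_mem_nhds.2 hO)
  refine ⟨b, hb.mem_nhds (h1b rfl), fun u hu x hx => ?_⟩
  have h := hab (show (u, x) ∈ a ×ˢ b from ⟨hTa hu, hx⟩)
  exact interior_subset h

end IR4

/-! TARGETS -/
theorem lemB {G : Type} [Group G] [TopologicalSpace G] [IsTopologicalGroup G]
    [T2Space G] [LocallyCompactSpace G] (Sc : Scales G) (T : Set G) (hT : IsCompact T) (n : ℕ) :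
    ∃ n', n ≤ n' ∧ ∀ u ∈ T, ∀ H L : ClosedSubgroup G,
      Sc.cl n' H L → Sc.cl n (conj u H) (conj u L) := by
  have hc : Continuous (fun p : G × G => p.1⁻¹ * p.2 * p.1) := by fun_prop
  obtain ⟨n1, hn1⟩ := Sc.exB _ ((hT.prod (Sc.cB n)).image hc)
  obtain ⟨W, hW, hWT⟩ := IR4.tube T hT (Sc.U n) ((Sc.oU n).mem_nhds (Sc.oneU n))
  obtain ⟨n2, hn2⟩ := Sc.exU W hW
  refine ⟨max n (max n1 n2), le_max_left _ _, fun u hu H L hcl => ?_⟩
  have hB : ∀ x ∈ Sc.B n, u⁻¹ * x * u ∈ Sc.B (max n (max n1 n2)) := by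
    intro x hx
    have h1 : u⁻¹ * x * u ∈ Sc.B n1 := hn1 ⟨(u, x), ⟨hu, hx⟩, rfl⟩
    exact Sc.mB (le_trans (le_max_left _ _) (le_max_right _ _)) h1
  have hU : ∀ y ∈ Sc.U (max n (max n1 n2)), u * y * u⁻¹ ∈ Sc.U n := by
    intro y hy
    exact hWT u hu y (hn2 (Sc.mU (le_trans (le_max_right _ _) (le_max_right _ _)) hy))
  constructor
  · intro x hx hxB
    obtain ⟨l, hl, hlu⟩ := hcl.1 _ (mem_conj.1 hx) (hB x hxB)
    refine ⟨u * l * u⁻¹, IR4.conj_mem hl, ?_⟩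
    have : (u * l * u⁻¹)⁻¹ * x = u * (l⁻¹ * (u⁻¹ * x * u)) * u⁻¹ := by group
    rw [this]
    exact hU _ hlu
  · intro x hx hxB
    obtain ⟨h, hh, hlu⟩ := hcl.2 _ (mem_conj.1 hx) (hB x hxB)
    refine ⟨u * h * u⁻¹, IR4.conj_mem hh, ?_⟩
    have : x⁻¹ * (u * h * u⁻¹) = u * ((u⁻¹ * x * u)⁻¹ * h) * u⁻¹ := by group
    rw [this]
    exact hU _ hlu

theorem lemF {G : Type} [Group G] [TopologicalSpace G] [IsTopologicalGroup G]
    [T2Space G] [LocallyCompactSpace G] (hNSS : NSS G) (Sc : Scales G) (N : ClosedSubgroup G)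
    (hN : DiscreteTopology N) (V : Set G) (hV : IsCompact V) :
    ∃ U1 ∈ 𝓝 (1 : G), ∃ n, ∀ v ∈ V, ∀ H : ClosedSubgroup G, Sc.cl n H (conj v N) →
      ∀ h ∈ H, h ∈ U1 → h = 1 := by
  -- `N` is discrete
  obtain ⟨O, hO, hON⟩ : ∃ O ∈ 𝓝 (1 : G), ∀ x ∈ N, x ∈ O → x = 1 := by
    have h1 : IsOpen ({1} : Set N) := isOpen_discrete _
    rw [isOpen_induced_iff] at h1
    obtain ⟨O, hO, hO1⟩ := h1
    refine ⟨O, hO.mem_nhds ?_, fun x hx hxO => ?_⟩
    · have : (1 : N) ∈ ((↑) : N → G) ⁻¹' O := by rw [hO1]; rfl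
      exact this
    · have : (⟨x, hx⟩ : N) ∈ ((↑) : N → G) ⁻¹' O := hxO
      rw [hO1, mem_singleton_iff] at this
      exact congrArg Subtype.val this
  obtain ⟨O1, hO1, hO1V⟩ := IR4.tube (V⁻¹) hV.inv O hO
  obtain ⟨Un, hUn, hnss⟩ := hNSS
  -- neighbourhoods
  have hdiv : Tendsto (fun p : G × G => p.1 * p.2⁻¹) (𝓝 (1 : G) ×ˢ 𝓝 (1 : G)) (𝓝 1) := by
    have hc : Continuous (fun p : G × G => p.1 * p.2⁻¹) := by fun_prop
    have := hc.tendsto (1, 1)
    rw [nhds_prod_eq] at this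
    simpa using this
  obtain ⟨A, hA, A', hA', hAA'⟩ := Filter.mem_prod_iff.1 (hdiv hO1)
  obtain ⟨U1, hU1, hU1A, hU1c⟩ := local_compact_nhds hA
  have hmul : Tendsto (fun p : G × G => p.1 * p.2) (𝓝 (1 : G) ×ˢ 𝓝 (1 : G)) (𝓝 1) := by
    have hc : Continuous (fun p : G × G => p.1 * p.2) := by fun_prop
    have := hc.tendsto (1, 1)
    rw [nhds_prod_eq] at this
    simpa using this
  obtain ⟨C, hC, C', hC', hCC'⟩ := Filter.mem_prod_iff.1 (hmul hU1)
  obtain ⟨n1, hn1⟩ := Sc.exB U1 hU1c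
  obtain ⟨n2, hn2⟩ := Sc.exU (A' ∩ (C ∩ (C' ∩ Un)))
    (inter_mem hA' (inter_mem hC (inter_mem hC' hUn)))
  refine ⟨U1, hU1, max n1 n2, fun v hv H hcl h hh hhU => ?_⟩
  have hUsub : Sc.U (max n1 n2) ⊆ A' ∩ (C ∩ (C' ∩ Un)) :=
    (Sc.mU (le_max_right _ _)).trans hn2
  have key : ∀ x ∈ H, x ∈ U1 → x ∈ Sc.U (max n1 n2) := by
    intro x hx hxU
    obtain ⟨l, hl, hlu⟩ := hcl.1 x hx (Sc.mB (le_max_left _ _) (hn1 hxU))
    have h1 : l ∈ O1 := by
      have h2 : x * (l⁻¹ * x)⁻¹ ∈ O1 := hAA' (show (x, l⁻¹ * x) ∈ A ×ˢ A' from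
        ⟨hU1A hxU, (hUsub hlu).1⟩)
      have h3 : x * (l⁻¹ * x)⁻¹ = l := by group
      rwa [h3] at h2
    have h4 : v⁻¹ * l * v⁻¹⁻¹ ∈ O := hO1V v⁻¹ (by simpa using hv) l h1
    rw [inv_inv] at h4
    have h5 := hON _ (mem_conj.1 hl) h4
    have h6 : l = 1 := by
      have : l = v * (v⁻¹ * l * v) * v⁻¹ := by group
      rw [this, h5, mul_one, mul_inv_cancel]
    rw [h6, inv_one, one_mul] at hlu
    exact hlu
  have hpow : ∀ k : ℕ, h ^ k ∈ Sc.U (max n1 n2) := by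
    intro k
    induction k with
    | zero => rw [pow_zero]; exact Sc.oneU _
    | succ k ih =>
      have h0 := key h hh hhU
      refine key _ (pow_mem hh _) ?_
      rw [pow_succ]
      exact hCC' (show (h ^ k, h) ∈ C ×ˢ C' from ⟨(hUsub ih).2.1, (hUsub h0).2.2.1⟩)
  exact hnss h fun k => (hUsub (hpow k)).2.2.2

theorem exists_scales (G : Type) [Group G] [TopologicalSpace G] [IsTopologicalGroup G]
    [T2Space G] [LocallyCompactSpace G] [SecondCountableTopology G] : Nonempty (Scales G) := by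
  obtain ⟨x, hx⟩ := (𝓝 (1 : G)).exists_antitone_basis
  let K := CompactExhaustion.choice G
  refine ⟨{
    B := K
    U := fun n => interior (x n)
    cB := K.isCompact
    mB := K.subset
    exB := fun L hL => K.exists_superset_of_isCompact hL
    oU := fun n => isOpen_interior
    mU := fun a b hab => interior_mono (hx.antitone hab)
    oneU := fun n => mem_interior_iff_mem_nhds.2 (hx.mem n)
    exU := fun W hW => ?_ }⟩
  obtain ⟨n, hn⟩ := hx.mem_iff.1 hW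
  exact ⟨n, interior_subset.trans hn⟩

end Helper418IRS
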