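import Pool.Agent.Helper418_IRS.Defs

set_option autoImplicit false

namespace Helper418IRS

open MeasureTheory Set Topology Filter
open scoped Pointwise ENNReal

/-- normalised Hamming distance -/
noncomputable def ham {n : ℕ} (σ τ : Equiv.Perm (Fin n)) : ℝ :=
  ((Finset.univ.filter (fun i => σ i ≠ τ i)).card : ℝ) / n

/-- sofic groups -/
def IsSof (G : Type) [Group G] : Prop :=
  ∀ A : Finset G, ∀ h1 : 1 ∈ A, ∀ ε : ℝ, 0 < ε →
    ∃ n : ℕ, 1 ≤ n ∧ ∃ φ : {a : G // a ∈ A} → Equiv.Perm (Fin n),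
      φ ⟨1, h1⟩ = 1 ∧
      (∀ a b : {a : G // a ∈ A}, ∀ hab : (a : G) * b ∈ A,
        ham (φ ⟨(a : G) * b, hab⟩) (φ a * φ b) < ε) ∧
      ∀ a : {a : G // a ∈ A}, (a : G) ≠ 1 → 1 - ε ≤ ham (φ a) 1

namespace IR8

theorem perm_extend {Z : Type} [Fintype Z] [DecidableEq Z] (Z1 : Finset Z) (f : Z → Z)
    (hf : Set.InjOn f Z1) : ∃ τ : Equiv.Perm Z, ∀ z ∈ Z1, τ z = f z := by
  obtain ⟨g, hg⟩ := Finset.exists_equiv_extend_of_card_eq (α := Z) (β := Z)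
    (t := (Finset.univ : Finset Z)) (by rw [Finset.card_univ]) (s := Z1) (f := f)
    (Finset.subset_univ _) hf
  refine ⟨g.trans (Equiv.subtypeUnivEquiv (fun z => Finset.mem_univ z)), fun z hz => ?_⟩
  exact hg z hz

theorem ham_le_of {n : ℕ} {Z : Type} [Fintype Z] [DecidableEq Z] (e : Z ≃ Fin n)
    (hn : 1 ≤ n) (hcard : Fintype.card Z = n)
    (σ τ : Equiv.Perm (Fin n)) (Z0 : Finset Z) (ε : ℝ)
    (h : ∀ z ∈ Z0, σ (e z) = τ (e z)) (hZ0 : (1 - ε) * Fintype.card Z ≤ Z0.card) :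
    ham σ τ ≤ ε := by
  have h1 : (Finset.univ.filter (fun i => σ i ≠ τ i)) ⊆ (Finset.univ \ Z0).map e.toEmbedding := by
    intro i hi
    rw [Finset.mem_filter] at hi
    rw [Finset.mem_map]
    refine ⟨e.symm i, ?_, ?_⟩
    · rw [Finset.mem_sdiff]
      refine ⟨Finset.mem_univ _, fun hz => hi.2 ?_⟩
      have := h _ hz
      rwa [Equiv.apply_symm_apply] at this
    · exact e.apply_symm_apply i
  have h2 := Finset.card_le_card h1
  rw [Finset.card_map, Finset.card_sdiff_of_subset (Finset.subset_univ _), Finset.card_univ,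
    hcard] at h2
  have h3 : Z0.card ≤ n := by
    rw [← hcard]
    exact Finset.card_le_univ _
  have h4 : ((Finset.univ.filter (fun i => σ i ≠ τ i)).card : ℝ) ≤ (n : ℝ) - Z0.card := by
    have : (Finset.univ.filter (fun i => σ i ≠ τ i)).card + Z0.card ≤ n := by omega
    have h5 : ((Finset.univ.filter (fun i => σ i ≠ τ i)).card : ℝ) + Z0.card ≤ n := by
      exact_mod_cast this
    linarith
  rw [hcard] at hZ0
  have hn0 : (0:ℝ) < n := by exact_mod_cast hn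
  unfold ham
  rw [div_le_iff₀ hn0]
  linarith

theorem le_ham_of {n : ℕ} {Z : Type} [Fintype Z] [DecidableEq Z] (e : Z ≃ Fin n)
    (hn : 1 ≤ n) (hcard : Fintype.card Z = n)
    (σ τ : Equiv.Perm (Fin n)) (Z0 : Finset Z) (ε : ℝ)
    (h : ∀ z ∈ Z0, σ (e z) ≠ τ (e z)) (hZ0 : (1 - ε) * Fintype.card Z ≤ Z0.card) :
    1 - ε ≤ ham σ τ := by
  have h1 : Z0.map e.toEmbedding ⊆ (Finset.univ.filter (fun i => σ i ≠ τ i)) := by
    intro i hi
    rw [Finset.mem_map] at hi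
    obtain ⟨z, hz, rfl⟩ := hi
    rw [Finset.mem_filter]
    exact ⟨Finset.mem_univ _, h z hz⟩
  have h2 := Finset.card_le_card h1
  rw [Finset.card_map] at h2
  have h3 : (Z0.card : ℝ) ≤ ((Finset.univ.filter (fun i => σ i ≠ τ i)).card : ℝ) := by
    exact_mod_cast h2
  rw [hcard] at hZ0
  have hn0 : (0:ℝ) < n := by exact_mod_cast hn
  unfold ham
  rw [le_div_iff₀ hn0]
  linarith

end IR8

/-! TARGETS -/
theorem sof_of_data (Q : Type) [Group Q]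
    (h : ∀ E : Finset Q, ∀ ε : ℝ, 0 < ε →
      ∃ (Z : Type) (_ : Fintype Z) (_ : DecidableEq Z) (Z0 Z1 : Finset Z) (σ : Q → Z → Z),
        Z0.Nonempty ∧ Z0 ⊆ Z1 ∧ (∀ q ∈ E, Set.InjOn (σ q) Z1) ∧
        (∀ q ∈ E, ∀ z ∈ Z0, σ q z ∈ Z1) ∧
        (∀ p ∈ E, ∀ q ∈ E, p * q ∈ E → ∀ z ∈ Z0, σ p (σ q z) = σ (p * q) z) ∧
        (∀ q ∈ E, q ≠ 1 → ∀ z ∈ Z1, σ q z ≠ z) ∧
        (1 - ε) * Fintype.card Z ≤ Z0.card) : IsSof Q := by
  classical
  intro A h1 ε hε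
  obtain ⟨Z, _, _, Z0, Z1, σ, hne, h01, hinj, hmaps, hmul, hfix, hcard⟩ := h A (ε / 2) (by linarith)
  have hT : ∀ q : Q, ∃ τ : Equiv.Perm Z, q ∈ A → ∀ z ∈ Z1, τ z = σ q z := by
    intro q
    by_cases hq : q ∈ A
    · obtain ⟨τ, hτ⟩ := IR8.perm_extend Z1 (σ q) (hinj q hq)
      exact ⟨τ, fun _ => hτ⟩
    · exact ⟨1, fun h => absurd h hq⟩
  choose T hT using hT
  obtain ⟨z0, hz0⟩ := hne
  have hn : 1 ≤ Fintype.card Z := Fintype.card_pos_iff.2 ⟨z0⟩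
  have hone : ∀ z ∈ Z0, σ 1 z = z := by
    intro z hz
    have e1 : σ 1 (σ 1 z) = σ 1 z := by
      have := hmul 1 h1 1 h1 (by rwa [mul_one]) z hz
      rwa [mul_one] at this
    exact hinj 1 h1 (hmaps 1 h1 z hz) (h01 hz) e1
  let Φ : Q → Equiv.Perm Z := fun q => if q = 1 then 1 else T q
  have hΦ1 : Φ 1 = 1 := if_pos rfl
  have hΦne : ∀ q, q ≠ 1 → Φ q = T q := fun q hq => if_neg hq
  have hΦ0 : ∀ q ∈ A, ∀ z ∈ Z0, Φ q z = σ q z := by
    intro q hq z hz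
    by_cases hq1 : q = 1
    · subst hq1
      rw [hΦ1, hone z hz]
      rfl
    · rw [hΦne q hq1]
      exact hT q hq z (h01 hz)
  have hΦmul : ∀ p ∈ A, ∀ q ∈ A, p * q ∈ A → ∀ z ∈ Z0, Φ (p * q) z = Φ p (Φ q z) := by
    intro p hp q hq hpq z hz
    by_cases hp1 : p = 1
    · subst hp1
      rw [one_mul, hΦ1]
      rfl
    · rw [hΦne p hp1, hΦ0 q hq z hz, hT p hp _ (hmaps q hq z hz), hmul p hp q hq hpq z hz]
      exact hΦ0 _ hpq z hz
  let e : Z ≃ Fin (Fintype.card Z) := Fintype.equivFin Z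
  have hperm : ∀ (τ : Equiv.Perm Z) (z : Z), e.permCongr τ (e z) = e (τ z) := by
    intro τ z
    rw [Equiv.permCongr_apply, Equiv.symm_apply_apply]
  refine ⟨Fintype.card Z, hn, fun a => e.permCongr (Φ a), ?_, ?_, ?_⟩
  · show e.permCongr (Φ 1) = 1
    rw [hΦ1]
    ext i
    rw [Equiv.permCongr_apply]
    simp
  · intro a b hab
    refine lt_of_le_of_lt (IR8.ham_le_of e hn rfl _ _ Z0 (ε / 2) ?_ hcard) (by linarith)
    intro z hz
    show e.permCongr (Φ ((a : Q) * b)) (e z) = e.permCongr (Φ a) (e.permCongr (Φ b) (e z))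
    rw [hperm, hperm, hperm, hΦmul a a.2 b b.2 hab z hz]
  · intro a ha
    refine le_trans (by linarith : 1 - ε ≤ 1 - ε / 2) (IR8.le_ham_of e hn rfl _ _ Z0 (ε / 2) ?_ hcard)
    intro z hz
    show e.permCongr (Φ a) (e z) ≠ e z
    rw [hperm, hΦne _ ha]
    intro heq
    have := e.injective heq
    rw [hT a a.2 z (h01 hz)] at this
    exact hfix a a.2 ha z (h01 hz) this

theorem sof_of_injective {Q Q' : Type} [Group Q] [Group Q'] (f : Q →* Q')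
    (hf : Function.Injective f) (h : IsSof Q') : IsSof Q := by
  classical
  intro A h1 ε hε
  have hB1 : (1 : Q') ∈ A.image f := Finset.mem_image.2 ⟨1, h1, map_one f⟩
  obtain ⟨n, hn, ψ, hψ1, hψ2, hψ3⟩ := h (A.image f) hB1 ε hε
  have hmem : ∀ a : {a : Q // a ∈ A}, f a ∈ A.image f := fun a =>
    Finset.mem_image_of_mem _ a.2
  refine ⟨n, hn, fun a => ψ ⟨f a, hmem a⟩, ?_, ?_, ?_⟩
  · rw [← hψ1]
    have e0 : (⟨f 1, hmem ⟨1, h1⟩⟩ : {x : Q' // x ∈ A.image f}) = ⟨1, hB1⟩ :=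
      Subtype.ext (map_one f)
    show ψ ⟨f 1, hmem ⟨1, h1⟩⟩ = _
    rw [e0]
  · intro a b hab
    have hab' : f a * f b ∈ A.image f := by
      rw [← map_mul]
      exact Finset.mem_image_of_mem _ hab
    have h2 := hψ2 ⟨f a, hmem a⟩ ⟨f b, hmem b⟩ hab'
    have e1 : (⟨f ((a : Q) * b), hmem ⟨(a : Q) * b, hab⟩⟩ : {x : Q' // x ∈ A.image f}) =
        ⟨f a * f b, hab'⟩ := Subtype.ext (map_mul f _ _)
    show ham (ψ ⟨f ((a : Q) * b), hmem ⟨(a : Q) * b, hab⟩⟩) _ < ε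
    rw [e1]
    exact h2
  · intro a ha
    refine hψ3 ⟨f a, hmem a⟩ ?_
    intro h0
    exact ha (hf (h0.trans (map_one f).symm))

end Helper418IRS
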