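import Pool.Agent.Helper418_IRS.IR3
import Pool.Agent.Helper418_IRS.IR4
import Pool.Agent.Helper418_IRS.IR5
import Pool.Agent.Helper418_IRS.IR8
import Pool.Agent.Helper418_IRS.IR9
import Pool.Agent.Helper418_IRS.IR2
import Pool.Agent.Helper418_IRS.IR11
import Pool.Agent.Helper418_IRS.IR10
import Pool.Agent.Helper418_IRS.Defs

set_option autoImplicit false

namespace Helper418IRS

open MeasureTheory Set Topology Filter
open scoped Pointwise ENNReal

/-! GIVEN (proved elsewhere) -/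








namespace IR12

section shr
variable {G : Type} [Group G] [TopologicalSpace G]

theorem shr_two {R : Finset G} {O' O : Set G} (h : Shr R O' O) (h1 : (1 : G) ∈ R) {a b : G}
    (ha : a ∈ O') (hb : b ∈ O') : a * b ∈ O := by
  have h1' : (1 : G) ∈ O' := mem_of_mem_nhds h.nhds
  have h2 := h.prod ![a, b, 1, 1, 1, 1, 1, 1] (by
    intro i
    fin_cases i
    · exact ⟨1, h1, a, ha, by simp⟩
    · exact ⟨1, h1, b, hb, by simp⟩
    all_goals exact ⟨1, h1, 1, h1', by simp⟩)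
  have h3 : (List.ofFn ![a, b, 1, 1, 1, 1, 1, 1]).prod = a * b := by
    simp [List.ofFn_succ, List.ofFn_zero]
  rw [h3] at h2
  exact h2

theorem shr_sub {R : Finset G} {O' O : Set G} (h : Shr R O' O) (h1 : (1 : G) ∈ R) : O' ⊆ O := by
  intro a ha
  have h1' : (1 : G) ∈ O' := mem_of_mem_nhds h.nhds
  have := shr_two h h1 ha h1'
  rwa [mul_one] at this

theorem shr_mono {R : Finset G} {O' O O2 : Set G} (h : Shr R O' O) (hO : O ⊆ O2) : Shr R O' O2 :=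
  ⟨h.nhds, h.compact, h.symm, fun f hf => hO (h.prod f hf)⟩

end shr

variable {G : Type} [Group G] [TopologicalSpace G] [IsTopologicalGroup G]
    [T2Space G] [LocallyCompactSpace G]

omit [T2Space G] [LocallyCompactSpace G] [IsTopologicalGroup G] in
theorem exists_nhd (Λ : Subgroup G) (h : DiscreteTopology Λ) :
    ∃ O ∈ 𝓝 (1 : G), ∀ l ∈ Λ, l ∈ O → l = 1 := by
  have h1 : IsOpen ({1} : Set Λ) := isOpen_discrete _
  obtain ⟨U, hU, hU1⟩ := isOpen_induced_iff.1 h1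
  refine ⟨U, hU.mem_nhds ?_, fun l hl hlU => ?_⟩
  · have : (1 : Λ) ∈ Subtype.val ⁻¹' U := by rw [hU1]; rfl
    exact this
  · have : (⟨l, hl⟩ : Λ) ∈ Subtype.val ⁻¹' U := hlU
    rw [hU1] at this
    exact congrArg Subtype.val this

omit [T2Space G] [LocallyCompactSpace G] in
theorem disc_N (N : ClosedSubgroup G) (hΛ : DiscreteTopology (nrm N)) : DiscreteTopology N :=
  DiscreteTopology.of_subset (s := (nrm N : Set G)) (t := (N : Set G)) hΛ (le_nrm N)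

/-- the normaliser as a closed subgroup -/
def nrmC (N : ClosedSubgroup G) (hΛ : DiscreteTopology (nrm N)) : ClosedSubgroup G where
  toSubgroup := nrm N
  isClosed' := Subgroup.isClosed_of_discrete (H := nrm N)

omit [LocallyCompactSpace G] [IsTopologicalGroup G] [T2Space G] in
/-- representatives -/
theorem exists_R [IsTopologicalGroup G] (N : ClosedSubgroup G)
    (E : Finset (nrm N ⧸ N.toSubgroup.subgroupOf (nrm N))) :
    ∃ (R : Finset G) (r : nrm N ⧸ N.toSubgroup.subgroupOf (nrm N) → G),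
      (1 : G) ∈ R ∧ (∀ r ∈ R, r⁻¹ ∈ R) ∧ (∀ r ∈ R, r ∈ nrm N) ∧
      (∀ q ∈ E, r q ∈ R) ∧ (∀ p ∈ E, ∀ q ∈ E, r (p * q) ∈ R) ∧
      (∀ p ∈ E, ∀ q ∈ E, (r (p * q))⁻¹ * r p * r q ∈ R ∧ (r (p * q))⁻¹ * r p * r q ∈ N) ∧
      (∀ q ∈ E, q ≠ 1 → r q ∉ N) := by
  classical
  let Q := nrm N ⧸ N.toSubgroup.subgroupOf (nrm N)
  let s : Q → nrm N := fun q => q.out
  have hs : ∀ q : Q, (QuotientGroup.mk (s q) : Q) = q := fun q => QuotientGroup.out_eq' q
  let R0 : Finset (nrm N) := {1} ∪ E.image s ∪ (E ×ˢ E).image (fun pq => s (pq.1 * pq.2)) ∪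
    (E ×ˢ E).image (fun pq => (s (pq.1 * pq.2))⁻¹ * s pq.1 * s pq.2)
  let R1 : Finset (nrm N) := R0 ∪ R0.image (fun x => x⁻¹)
  have hR1inv : ∀ x ∈ R1, x⁻¹ ∈ R1 := by
    intro x hx
    rcases Finset.mem_union.1 hx with h | h
    · exact Finset.mem_union_right _ (Finset.mem_image_of_mem _ h)
    · obtain ⟨y, hy, rfl⟩ := Finset.mem_image.1 h
      rw [inv_inv]
      exact Finset.mem_union_left _ hy
  have h01 : ∀ x, x ∈ R0 → x ∈ R1 := fun x hx => Finset.mem_union_left _ hx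
  have hR : ∀ x : nrm N, x ∈ R1 → (x : G) ∈ R1.image (fun x : nrm N => (x : G)) := fun x hx =>
    Finset.mem_image_of_mem (fun x : nrm N => (x : G)) hx
  refine ⟨R1.image (fun x : nrm N => (x : G)), fun q => (s q : G), ?_, ?_, ?_, ?_, ?_, ?_, ?_⟩
  · have : (1 : nrm N) ∈ R1 := h01 _ (by simp [R0])
    exact hR 1 this
  · intro r hr
    obtain ⟨y, hy, rfl⟩ := Finset.mem_image.1 hr
    exact hR _ (hR1inv y hy)
  · intro r hr
    obtain ⟨y, hy, rfl⟩ := Finset.mem_image.1 hr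
    exact y.2
  · intro q hq
    refine hR _ (h01 _ ?_)
    simp only [R0, Finset.mem_union]
    exact Or.inl (Or.inl (Or.inr (Finset.mem_image_of_mem _ hq)))
  · intro p hp q hq
    refine hR _ (h01 _ ?_)
    simp only [R0, Finset.mem_union]
    exact Or.inl (Or.inr (Finset.mem_image.2 ⟨(p, q), Finset.mem_product.2 ⟨hp, hq⟩, rfl⟩))
  · intro p hp q hq
    constructor
    · have : (s (p * q))⁻¹ * s p * s q ∈ R1 := by
        refine h01 _ ?_
        simp only [R0, Finset.mem_union]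
        exact Or.inr (Finset.mem_image.2 ⟨(p, q), Finset.mem_product.2 ⟨hp, hq⟩, rfl⟩)
      exact hR _ this
    · have h1 : (QuotientGroup.mk ((s (p * q))⁻¹ * s p * s q) : Q) = 1 := by
        rw [QuotientGroup.mk_mul, QuotientGroup.mk_mul, QuotientGroup.mk_inv, hs, hs, hs]
        group
      rw [QuotientGroup.eq_one_iff, Subgroup.mem_subgroupOf] at h1
      exact h1
  · intro q _ hq1 hqN
    apply hq1
    rw [← hs q, QuotientGroup.eq_one_iff, Subgroup.mem_subgroupOf]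
    exact hqN

theorem arith (ε c0 x y X3 X0 : ℝ) (hε0 : 0 < ε) (hε : ε ≤ 1 / 2) (hc : 0 < c0) (hx : 0 < x)
    (hy0 : 0 ≤ y) (hy : y ≤ (1 + ε / 8) * x) (h3 : X3 ≤ c0 * y + ε / 8 * c0 * x)
    (h0 : c0 * x - ε / 8 * c0 * x ≤ X0) :
    (1 - ε) * (X3 * y) ≤ X0 * x ∧ 0 < X0 := by
  have hcx : 0 < c0 * x := mul_pos hc hx
  constructor
  · have h1 : X3 ≤ (1 + ε / 4) * (c0 * x) := by
      have := mul_le_mul_of_nonneg_left hy hc.le
      nlinarith
    have h2 : X3 * y ≤ (1 + ε / 4) * (c0 * x) * ((1 + ε / 8) * x) := by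
      have h4 : X3 * y ≤ (1 + ε / 4) * (c0 * x) * y := mul_le_mul_of_nonneg_right h1 hy0
      have h5 : (1 + ε / 4) * (c0 * x) * y ≤ (1 + ε / 4) * (c0 * x) * ((1 + ε / 8) * x) :=
        mul_le_mul_of_nonneg_left hy (by positivity)
      exact h4.trans h5
    have h6 : (1 - ε) * (X3 * y) ≤ (1 - ε) * ((1 + ε / 4) * (c0 * x) * ((1 + ε / 8) * x)) :=
      mul_le_mul_of_nonneg_left h2 (by linarith)
    have h7 : (1 - ε) * ((1 + ε / 4) * (1 + ε / 8)) ≤ 1 - ε / 8 := by nlinarith [pow_pos hε0 2, pow_pos hε0 3]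
    have h8 : (c0 * x * x) * ((1 - ε) * ((1 + ε / 4) * (1 + ε / 8))) ≤
        (c0 * x * x) * (1 - ε / 8) := mul_le_mul_of_nonneg_left h7 (by positivity)
    have h9 : (c0 * x - ε / 8 * c0 * x) * x ≤ X0 * x := mul_le_mul_of_nonneg_right h0 hx.le
    nlinarith
  · nlinarith

end IR12

/-- TARGET -/
theorem transfer {G : Type} [Group G] [TopologicalSpace G] [IsTopologicalGroup G]
    [T2Space G] [LocallyCompactSpace G] [SecondCountableTopology G] [MeasurableSpace G]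
    [BorelSpace G] (hNSS : NSS G) (m : Measure G) [m.IsHaarMeasure] [m.IsMulRightInvariant]
    (N : ClosedSubgroup G) (hΛ : DiscreteTopology (nrm N))
    (ν0 : Measure (G ⧸ nrm N)) (hν0 : InvProb (nrm N) ν0)
    (μk : ℕ → Measure (ClosedSubgroup G)) (hk : ∀ k, IsLatticeIRS (μk k))
    (hlim : WeakLim μk (ν0.map (cosetConj (nrm N) N))) :
    IsSof (nrm N ⧸ N.toSubgroup.subgroupOf (nrm N)) := by
  classical
  refine sof_of_data _ fun E ε₀ hε₀ => ?_
  obtain ⟨ε, hε⟩ : ∃ ε : ℝ, ε = min ε₀ (1 / 2) := ⟨_, rfl⟩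
  have hε0 : 0 < ε := by rw [hε]; exact lt_min hε₀ (by norm_num)
  have hε2 : ε ≤ 1 / 2 := by rw [hε]; exact min_le_right _ _
  have hεε : ε ≤ ε₀ := by rw [hε]; exact min_le_left _ _
  have hN := IR12.disc_N N hΛ
  obtain ⟨O2, hO2, hO2'⟩ := IR12.exists_nhd (nrm N) hΛ
  obtain ⟨Sc⟩ := exists_scales G
  obtain ⟨V0, hV0c, hV0⟩ := exists_compact_mem_nhds (1 : G)
  obtain ⟨U1, hU1, nF, hnF⟩ := lemF hNSS Sc N hN V0 hV0c
  obtain ⟨R, r, hR1, hRinv, hRn, hr, hrr, hn, hf⟩ := IR12.exists_R N E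
  have hO1 : O2 ∩ U1 ∈ 𝓝 (1 : G) := inter_mem hO2 hU1
  obtain ⟨T0, s1⟩ := exists_shr R (O2 ∩ U1) hO1
  obtain ⟨U0, s2⟩ := exists_shr R T0 s1.nhds
  obtain ⟨V, s3'⟩ := exists_shr R (U0 ∩ V0) (inter_mem s2.nhds hV0)
  have s3 : Shr R V U0 := IR12.shr_mono s3' inter_subset_left
  have hVV0 : V ⊆ V0 := (IR12.shr_sub s3' hR1).trans inter_subset_right
  have hU0T0 : U0 ⊆ T0 := IR12.shr_sub s2 hR1
  have hT0O : T0 ⊆ O2 ∩ U1 := IR12.shr_sub s1 hR1
  have hVc : IsCompact V := s3.compact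
  -- measures
  obtain ⟨c, hc0, hcT, hc⟩ := lattice_formula m (IR12.nrmC N hΛ) hΛ ν0 hν0
  have hc0' : 0 < c.toReal := ENNReal.toReal_pos hc0 hcT
  have hVm : MeasurableSet V := hVc.isClosed.measurableSet
  have hmV : m V ≠ ∞ := hVc.measure_lt_top.ne
  have hx : 0 < m.real V := ENNReal.toReal_pos (Measure.measure_pos_of_mem_nhds m s3.nhds).ne' hmV
  obtain ⟨W, hWV, hWo, h1W, hWle, hWfin⟩ := exists_thick m V V hVc s3.nhds s3.nhds (ε / 8)
    (by positivity)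
  have hVWo : IsOpen (V * W) := hWo.mul_left
  obtain ⟨hVπ, -, hVeq⟩ := hc V hVm
  obtain ⟨-, hVWle, -⟩ := hc (V * W) hVWo.measurableSet
  have eV : ν0.real ((fun g : G => (g : G ⧸ nrm N)) '' V) = c.toReal * m.real V := by
    have h1 := hVeq (fun a ha b hb hab => by
      have h2 : a⁻¹ * b ∈ U0 := IR12.shr_two s3 hR1 (s3.symm a ha) hb
      have h3 : a⁻¹ * b = 1 := hO2' _ hab (hT0O (hU0T0 h2)).1
      exact (inv_mul_eq_one.1 h3))
    have h4 : ν0 ((fun g : G => (g : G ⧸ nrm N)) '' V) = c * m V := h1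
    rw [Measure.real, h4, ENNReal.toReal_mul]
    rfl
  have eVW : ν0.real ((fun g : G => (g : G ⧸ nrm N)) '' (V * W)) ≤
      c.toReal * m.real (V * W) := by
    have h4 : ν0 ((fun g : G => (g : G ⧸ nrm N)) '' (V * W)) ≤ c * m (V * W) := hVWle
    have h5 := ENNReal.toReal_mono (ENNReal.mul_ne_top hcT hWfin) h4
    rw [ENNReal.toReal_mul] at h5
    exact h5
  have hδ' : 0 < ε / 8 * c.toReal * m.real V := by positivity
  -- scales
  have hWn : W ∈ 𝓝 (1 : G) := hWo.mem_nhds h1W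
  obtain ⟨nA, hnA⟩ := lemA Sc N V T0 W hVc s1.compact hWn
  have hkP : ∀ k, IsProbabilityMeasure (μk k) := fun k => by
    obtain ⟨Γ, hΓ, ν, hν, hμ⟩ := hk k
    have hνP := hν.1
    rw [hμ]
    exact Measure.isProbabilityMeasure_map
      (measurable_cosetConj Γ.toSubgroup Γ (fun γ hγ => conj_self hγ)).aemeasurable
  obtain ⟨nH, hnH⟩ := limit_high Sc N hN hΛ ν0 hν0 μk hkP hlim V W hVc hWo h1W
    (ε / 8 * c.toReal * m.real V) hδ'
  obtain ⟨nU, hnU⟩ := Sc.exU W hWn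
  have hRc : IsCompact (R : Set G) := R.finite_toSet.isCompact
  obtain ⟨nB, hnB⟩ := Sc.exB (U0 * U0 * (R : Set G)) ((s2.compact.mul s2.compact).mul hRc)
  have hTc : IsCompact (V * (R : Set G) * V⁻¹) := (hVc.mul hRc).mul hVc.inv
  obtain ⟨nB', hnB'⟩ := Sc.exB (V * (R : Set G) * V⁻¹) hTc
  obtain ⟨n3, hn3⟩ : ∃ n3, nA ≤ n3 ∧ nF ≤ n3 ∧ nH ≤ n3 ∧ nU ≤ n3 ∧ nB ≤ n3 ∧ nB' ≤ n3 :=
    ⟨nA + nF + nH + nU + nB + nB', by omega, by omega, by omega, by omega, by omega, by omega⟩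
  obtain ⟨h3A, h3F, h3H, h3U, h3B, h3B'⟩ := hn3
  obtain ⟨n2, h32, hn2⟩ := lemB Sc (V * (R : Set G) * V⁻¹) hTc n3
  obtain ⟨n1, h21, hn1⟩ := lemB Sc (V * (R : Set G) * V⁻¹) hTc n2
  obtain ⟨n0, h10, hn0⟩ := lemB Sc (V * (R : Set G) * V⁻¹) hTc n1
  have hmemT : ∀ v ∈ V, ∀ v' ∈ V, ∀ r ∈ R, v' * r * v⁻¹ ∈ V * (R : Set G) * V⁻¹ :=
    fun v hv v' hv' r hr => Set.mul_mem_mul (Set.mul_mem_mul hv' hr) (Set.inv_mem_inv.2 hv)
  have hconj : ∀ v v' r : G, r ∈ R → conj (v' * r * v⁻¹) (conj v N) = conj v' N := by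
    intro v v' r hr
    rw [conj_conj, inv_mul_cancel_right, ← conj_conj, mem_nrm.1 (hRn r hr)]
  have gen : ∀ a b : ℕ, (∀ u ∈ V * (R : Set G) * V⁻¹, ∀ H L : ClosedSubgroup G,
      Sc.cl b H L → Sc.cl a (conj u H) (conj u L)) → ∀ v ∈ V, ∀ v' ∈ V, ∀ r ∈ R,
      ∀ H : ClosedSubgroup G, Sc.cl b H (conj v N) →
      Sc.cl a (conj (v' * r * v⁻¹) H) (conj v' N) := by
    intro a b h v hv v' hv' r hr H hH
    have := h _ (hmemT v hv v' hv' r hr) H (conj v N) hH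
    rwa [hconj v v' r hr] at this
  have t2 := gen n3 n2 hn2
  have t1 : ∀ v ∈ V, ∀ r ∈ R, ∀ H : ClosedSubgroup G, Sc.cl n1 H (conj v N) →
      Sc.cl n2 (conj (v * r * v⁻¹) H) (conj v N) := fun v hv r hr H hH =>
    gen n2 n1 hn1 v hv v hv r hr H hH
  have t0 : ∀ v ∈ V, ∀ r ∈ R, ∀ H : ClosedSubgroup G, Sc.cl n0 H (conj v N) →
      Sc.cl n1 (conj (v * r * v⁻¹) H) (conj v N) := fun v hv r hr H hH =>
    gen n1 n0 hn0 v hv v hv r hr H hH
  -- a late lattice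
  have hlow := limit_low Sc N hN ν0 hν0 μk hkP hlim V hVc hVπ n0
    (ε / 8 * c.toReal * m.real V) hδ'
  obtain ⟨k, hk1, hk2⟩ := (hlow.and (hnH n3 h3H)).exists
  obtain ⟨Γ, hΓ, ν, hν, hμ⟩ := hk k
  have hwin : ∀ n, (μk k).real (winS Sc N V n) = ν.real (win Sc N Γ V n) := by
    intro n
    have hopen : IsOpen (winS Sc N V n) := by
      have e : winS Sc N V n = ⋃ v ∈ V, {H : ClosedSubgroup G | Sc.cl n H (conj v N)} := by
        ext H
        simp [winS]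
      rw [e]
      exact isOpen_biUnion fun v _ => isOpen_cl N hN Sc n v
    rw [Measure.real, hμ, Measure.map_apply
      (measurable_cosetConj Γ.toSubgroup Γ (fun γ hγ => conj_self hγ)) hopen.measurableSet]
    rfl
  rw [hwin] at hk1 hk2
  have har := IR12.arith ε c.toReal (m.real V) (m.real (V * W)) (ν.real (win Sc N Γ V n3))
    (ν.real (win Sc N Γ V n0)) hε0 hε2 hc0' hx measureReal_nonneg hWle
    (hk2.trans (by linarith)) (by rw [← eV]; exact hk1)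
  obtain ⟨Z, iF, iD, Z0, Z1, σ, z1, z2, z3, z4, z5, z6, z7⟩ := one_lattice m Sc N hN Γ hΓ ν hν R
    hR1 hRinv hRn (O2 ∩ U1) T0 U0 V W U1 (fun l hl hlO => hO2' l hl hlO.1) inter_subset_right
    s1 s2 s3 hWV hWo h1W hWfin n3 n2 n1 n0 h32 h21 h10
    (fun g hg g' hg' u hu H h1 h2 => hnA g hg g' hg' u hu H (Sc.cl_mono h3A h1)
      (Sc.cl_mono h3A h2))
    (fun v hv H h1 => hnF v (hVV0 hv) H (Sc.cl_mono h3F h1))
    ((Sc.mU h3U).trans hnU)
    (fun r hr a ha b hb => Sc.mB h3B (hnB (Set.mul_mem_mul (Set.mul_mem_mul ha hb) hr)))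
    (fun r hr v hv => Sc.mB h3B' (hnB' (hmemT v hv v hv r hr)))
    t2 t1 t0 r E hr hrr hn hf ε har.1 har.2
  refine ⟨Z, iF, iD, Z0, Z1, σ, z1, z2, z3, z4, z5, z6, le_trans ?_ z7⟩
  exact mul_le_mul_of_nonneg_right (by linarith) (Nat.cast_nonneg _)

end Helper418IRS

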