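import Pool.Agent.Helper418_IRS.Defs

set_option autoImplicit false

namespace Helper418IRS

open MeasureTheory Set Topology Filter
open scoped Pointwise ENNReal

/-- the group `SL(2, ℝ)` -/
abbrev SL2 : Type := Matrix.SpecialLinearGroup (Fin 2) ℝ

namespace IR13

/-- the size of `g - 1` -/
noncomputable def sz (x : Matrix (Fin 2) (Fin 2) ℝ) : ℝ :=
  max (|x 0 0| + |x 0 1|) (|x 1 0| + |x 1 1|)

theorem sz_nonneg (x : Matrix (Fin 2) (Fin 2) ℝ) : 0 ≤ sz x := by
  unfold sz
  exact le_max_of_le_left (by positivity)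

theorem sz_zero_iff {x : Matrix (Fin 2) (Fin 2) ℝ} (h : sz x ≤ 0) : x = 0 := by
  unfold sz at h
  have h1 := (max_le_iff.1 h).1
  have h2 := (max_le_iff.1 h).2
  have a := abs_nonneg (x 0 0)
  have b := abs_nonneg (x 0 1)
  have c := abs_nonneg (x 1 0)
  have d := abs_nonneg (x 1 1)
  ext i j
  fin_cases i <;> fin_cases j <;> simp <;> apply abs_eq_zero.1 <;> linarith

theorem sz_mul (x y : Matrix (Fin 2) (Fin 2) ℝ) : sz (x * y) ≤ sz x * sz y := by
  have key : ∀ i : Fin 2, |(x * y) i 0| + |(x * y) i 1| ≤ (|x i 0| + |x i 1|) * sz y := by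
    intro i
    have h1 : |y 0 0| + |y 0 1| ≤ sz y := le_max_left _ _
    have h2 : |y 1 0| + |y 1 1| ≤ sz y := le_max_right _ _
    rw [Matrix.mul_apply, Matrix.mul_apply, Fin.sum_univ_two, Fin.sum_univ_two]
    calc |x i 0 * y 0 0 + x i 1 * y 1 0| + |x i 0 * y 0 1 + x i 1 * y 1 1|
        ≤ (|x i 0 * y 0 0| + |x i 1 * y 1 0|) + (|x i 0 * y 0 1| + |x i 1 * y 1 1|) :=
          add_le_add (abs_add_le _ _) (abs_add_le _ _)
      _ = |x i 0| * (|y 0 0| + |y 0 1|) + |x i 1| * (|y 1 0| + |y 1 1|) := by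
          rw [abs_mul, abs_mul, abs_mul, abs_mul]; ring
      _ ≤ |x i 0| * sz y + |x i 1| * sz y := by gcongr
      _ = _ := by ring
  unfold sz
  refine max_le ?_ ?_
  · refine (key 0).trans ?_
    exact mul_le_mul_of_nonneg_right (le_max_left _ _) (sz_nonneg y)
  · refine (key 1).trans ?_
    exact mul_le_mul_of_nonneg_right (le_max_right _ _) (sz_nonneg y)

theorem sz_add (x y : Matrix (Fin 2) (Fin 2) ℝ) : sz (x + y) ≤ sz x + sz y := by
  have key : ∀ i : Fin 2, |(x + y) i 0| + |(x + y) i 1| ≤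
      (|x i 0| + |x i 1|) + (|y i 0| + |y i 1|) := by
    intro i
    rw [Matrix.add_apply, Matrix.add_apply]
    have h1 := abs_add_le (x i 0) (y i 0)
    have h2 := abs_add_le (x i 1) (y i 1)
    linarith
  unfold sz
  refine max_le ?_ ?_
  · exact (key 0).trans (add_le_add (le_max_left _ _) (le_max_left _ _))
  · exact (key 1).trans (add_le_add (le_max_right _ _) (le_max_right _ _))

theorem step {g : Matrix (Fin 2) (Fin 2) ℝ} (h : sz (g - 1) ≤ 1 / 2) :
    (3 / 2) * sz (g - 1) ≤ sz (g * g - 1) := by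
  have h0 : (g - 1) + (g - 1) = (g * g - 1) + (-((g - 1) * (g - 1))) := by noncomm_ring
  have h1 : sz ((g - 1) + (g - 1)) = 2 * sz (g - 1) := by
    unfold sz
    simp only [Matrix.add_apply, ← two_mul, abs_mul, abs_two]
    rw [← mul_add, ← mul_add, ← mul_max_of_nonneg _ _ (by norm_num : (0:ℝ) ≤ 2)]
  have h2 : sz (-((g - 1) * (g - 1))) = sz ((g - 1) * (g - 1)) := by
    unfold sz
    simp only [Matrix.neg_apply, abs_neg]
  have h3 := sz_add (g * g - 1) (-((g - 1) * (g - 1)))
  rw [← h0, h1, h2] at h3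
  have h4 := sz_mul (g - 1) (g - 1)
  have h5 := sz_nonneg (g - 1)
  nlinarith

end IR13

open IR13

/-! TARGETS -/
instance sl2_lc : LocallyCompactSpace SL2 := by
  have : LocallyCompactSpace (Matrix (Fin 2) (Fin 2) ℝ) :=
    inferInstanceAs (LocallyCompactSpace (Fin 2 → Fin 2 → ℝ))
  exact Matrix.SpecialLinearGroup.isClosedEmbedding_val.locallyCompactSpace

instance sl2_sc : SecondCountableTopology SL2 := by
  have : SecondCountableTopology (Matrix (Fin 2) (Fin 2) ℝ) :=
    inferInstanceAs (SecondCountableTopology (Fin 2 → Fin 2 → ℝ))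
  exact Matrix.SpecialLinearGroup.isClosedEmbedding_val.isEmbedding.secondCountableTopology

instance sl2_ms : MeasurableSpace SL2 := borel SL2

instance sl2_bs : BorelSpace SL2 := ⟨rfl⟩

theorem sl2_nss : NSS SL2 := by
  refine ⟨{g : SL2 | sz ((g : Matrix (Fin 2) (Fin 2) ℝ) - 1) < 1 / 2}, ?_, ?_⟩
  · have hc : Continuous fun g : SL2 => sz ((g : Matrix (Fin 2) (Fin 2) ℝ) - 1) := by
      have h : ∀ i j : Fin 2, Continuous fun g : SL2 =>
          ((g : Matrix (Fin 2) (Fin 2) ℝ) - 1) i j := by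
        intro i j
        have h1 : Continuous fun g : SL2 => (g : Matrix (Fin 2) (Fin 2) ℝ) i j :=
          (Matrix.SpecialLinearGroup.isClosedEmbedding_val.continuous).matrix_elem i j
        exact h1.sub continuous_const
      unfold sz
      exact (((h 0 0).abs.add (h 0 1).abs)).max ((h 1 0).abs.add (h 1 1).abs)
    refine (isOpen_lt hc continuous_const).mem_nhds ?_
    show sz (((1 : SL2) : Matrix (Fin 2) (Fin 2) ℝ) - 1) < 1 / 2
    have : (((1 : SL2) : Matrix (Fin 2) (Fin 2) ℝ) - 1) = 0 := by simp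
    rw [this]
    unfold sz
    norm_num
  · intro g hg
    have hk : ∀ k : ℕ, (3 / 2 : ℝ) ^ k * sz ((g : Matrix (Fin 2) (Fin 2) ℝ) - 1) ≤
        sz (((g ^ (2 ^ k) : SL2) : Matrix (Fin 2) (Fin 2) ℝ) - 1) := by
      intro k
      induction k with
      | zero => simp
      | succ k ih =>
        have h1 := step (g := ((g ^ (2 ^ k) : SL2) : Matrix (Fin 2) (Fin 2) ℝ))
          (le_of_lt (hg (2 ^ k)))
        have h2 : ((g ^ (2 ^ (k + 1)) : SL2) : Matrix (Fin 2) (Fin 2) ℝ) =
            ((g ^ (2 ^ k) : SL2) : Matrix (Fin 2) (Fin 2) ℝ) *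
              ((g ^ (2 ^ k) : SL2) : Matrix (Fin 2) (Fin 2) ℝ) := by
          rw [← Matrix.SpecialLinearGroup.coe_mul, ← pow_add]
          congr 2
          rw [pow_succ]; ring
        rw [h2]
        refine le_trans ?_ h1
        rw [pow_succ]
        nlinarith
    have h0 : sz ((g : Matrix (Fin 2) (Fin 2) ℝ) - 1) ≤ 0 := by
      by_contra hlt
      push Not at hlt
      obtain ⟨k, hk'⟩ := pow_unbounded_of_one_lt
        (1 / sz ((g : Matrix (Fin 2) (Fin 2) ℝ) - 1)) (by norm_num : (1 : ℝ) < 3 / 2)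
      have h1 := hk k
      have h2 : sz (((g ^ (2 ^ k) : SL2) : Matrix (Fin 2) (Fin 2) ℝ) - 1) < 1 / 2 := hg (2 ^ k)
      rw [div_lt_iff₀ hlt] at hk'
      linarith
    have h1 := sz_zero_iff h0
    apply Subtype.ext
    have := sub_eq_zero.1 h1
    rw [Matrix.SpecialLinearGroup.coe_one]
    exact this

theorem sl2_unimodular (m : Measure SL2) [m.IsHaarMeasure] : m.IsMulRightInvariant := by
  have hperf : commutator SL2 = ⊤ :=
    Matrix.SL2.commutator_eq_top (F := ℝ) (a := 2) (by norm_num) (by norm_num)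
  have hone : ∀ g : SL2, Measure.modularCharacter g = 1 := by
    intro g
    have hle : commutator SL2 ≤ (Measure.modularCharacter (G := SL2)).ker := by
      rw [commutator_def, Subgroup.commutator_le]
      intro a _ b _
      rw [MonoidHom.mem_ker, commutatorElement_def, map_mul, map_mul, map_mul,
        mul_right_comm (Measure.modularCharacter a), ← map_mul, mul_inv_cancel, map_one, one_mul,
        ← map_mul, mul_inv_cancel, map_one]
    have : g ∈ (Measure.modularCharacter (G := SL2)).ker := hle (hperf ▸ Subgroup.mem_top g)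
    exact this
  refine ⟨fun g => ?_⟩
  rw [Measure.map_right_mul_eq_modularCharacterFun_smul m g]
  have : Measure.modularCharacterFun g = 1 := hone g
  rw [this, one_smul]

end Helper418IRS
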