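import Pool.Agent.Helper418_IRS.IR13
import Pool.Agent.Helper418_IRS.Defs

set_option autoImplicit false

namespace Helper418IRS

open MeasureTheory Set Topology Filter
open scoped Pointwise ENNReal



/-- the inclusion of `SL(2, ℤ)` in `SL(2, ℝ)` -/
def toR : Matrix.SpecialLinearGroup (Fin 2) ℤ →* SL2 :=
  Matrix.SpecialLinearGroup.map (Int.castRingHom ℝ)

namespace IR14

/-- squared length of the first column -/
def P (h : SL2) : ℝ := h 0 0 ^ 2 + h 1 0 ^ 2

/-- scalar product of the columns -/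
def X (h : SL2) : ℝ := h 0 0 * h 0 1 + h 1 0 * h 1 1

theorem det_eq (h : SL2) : h 0 0 * h 1 1 - h 0 1 * h 1 0 = 1 := by
  have := h.det_coe
  rwa [Matrix.det_fin_two] at this

theorem P_pos (h : SL2) : 0 < P h := by
  have := det_eq h
  unfold P
  by_contra hn
  have h1 : h 0 0 ^ 2 + h 1 0 ^ 2 = 0 := le_antisymm (not_lt.1 hn) (by positivity)
  have h2 : h 0 0 = 0 := by nlinarith [sq_nonneg (h 0 0), sq_nonneg (h 1 0)]
  have h3 : h 1 0 = 0 := by nlinarith [sq_nonneg (h 0 0), sq_nonneg (h 1 0)]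
  rw [h2, h3] at this
  norm_num at this

theorem continuous_entry (i j : Fin 2) : Continuous (fun h : SL2 => h i j) := by
  have h1 : Continuous (fun h : SL2 => (h : Matrix (Fin 2) (Fin 2) ℝ)) :=
    continuous_subtype_val
  exact h1.matrix_elem i j

theorem continuous_P : Continuous P := by
  unfold P
  exact ((continuous_entry 0 0).pow 2).add ((continuous_entry 1 0).pow 2)

theorem continuous_X : Continuous X := by
  unfold X
  exact ((continuous_entry 0 0).mul (continuous_entry 0 1)).add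
    ((continuous_entry 1 0).mul (continuous_entry 1 1))

/-- `!![1, s; 0, 1]` -/
def u (s : ℝ) : SL2 := ⟨!![1, s; 0, 1], by simp [Matrix.det_fin_two]⟩

/-- `!![r, 0; 0, r⁻¹]` -/
noncomputable def dg (r : ℝ) (hr : r ≠ 0) : SL2 :=
  ⟨!![r, 0; 0, r⁻¹], by simp [Matrix.det_fin_two, hr]⟩

theorem mul_entry (g h : SL2) (i j : Fin 2) : (g * h) i j = g i 0 * h 0 j + g i 1 * h 1 j := by
  rw [Matrix.SpecialLinearGroup.coe_mul, Matrix.mul_apply, Fin.sum_univ_two]

theorem P_u (h : SL2) (s : ℝ) : P (h * u s) = P h := by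
  unfold P
  simp only [mul_entry]
  simp [u]

theorem X_u (h : SL2) (s : ℝ) : X (h * u s) = X h + s * P h := by
  unfold X P
  simp only [mul_entry]
  simp [u]
  ring

theorem P_dg (h : SL2) (r : ℝ) (hr : r ≠ 0) : P (h * dg r hr) = r ^ 2 * P h := by
  unfold P
  simp only [mul_entry]
  simp [dg]
  ring

theorem X_dg (h : SL2) (r : ℝ) (hr : r ≠ 0) : X (h * dg r hr) = X h := by
  unfold X
  simp only [mul_entry]
  simp [dg]
  field_simp

/-- the Siegel pieces -/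
def W (a t : ℝ) : Set SL2 := {h | 1 / 2 < P h ∧ P h ≤ 2 ∧ |X h - t * P h| ≤ a * P h}

theorem meas_W (a t : ℝ) : MeasurableSet (W a t) := by
  have h1 : MeasurableSet {h : SL2 | 1 / 2 < P h} :=
    (isOpen_lt continuous_const continuous_P).measurableSet
  have h2 : MeasurableSet {h : SL2 | P h ≤ 2} :=
    (isClosed_le continuous_P continuous_const).measurableSet
  have h3 : MeasurableSet {h : SL2 | |X h - t * P h| ≤ a * P h} :=
    (isClosed_le ((continuous_X.sub (continuous_const.mul continuous_P)).abs)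
      (continuous_const.mul continuous_P)).measurableSet
  exact h1.inter (h2.inter h3)

/-- the first Siegel set -/
def S1 : Set SL2 := {h | P h ≤ 2 ∧ |X h| ≤ P h / 2}

theorem meas_S1 : MeasurableSet S1 := by
  have h2 : MeasurableSet {h : SL2 | P h ≤ 2} :=
    (isClosed_le continuous_P continuous_const).measurableSet
  have h3 : MeasurableSet {h : SL2 | |X h| ≤ P h / 2} :=
    (isClosed_le continuous_X.abs (continuous_P.div_const 2)).measurableSet
  exact h2.inter h3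

/-- a compact set containing all pieces -/
def A : Set SL2 := {h | ∀ i j, |h i j| ≤ 5}

theorem compact_A : IsCompact A := by
  have h1 : IsCompact {M : Matrix (Fin 2) (Fin 2) ℝ | ∀ i j, M i j ∈ Icc (-5 : ℝ) 5} := by
    have h2 : {M : Matrix (Fin 2) (Fin 2) ℝ | ∀ i j, M i j ∈ Icc (-5 : ℝ) 5} =
        Set.pi univ (fun _ : Fin 2 => Set.pi univ (fun _ : Fin 2 => Icc (-5 : ℝ) 5)) := by
      ext M
      constructor
      · intro h i _ j _; exact h i j
      · intro h i j; exact h i (mem_univ i) j (mem_univ j)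
    rw [h2]
    exact isCompact_univ_pi (fun _ => isCompact_univ_pi (fun _ => isCompact_Icc))
  have h3 := (Matrix.SpecialLinearGroup.isClosedEmbedding_val (n := Fin 2)
    (R := ℝ)).isCompact_preimage h1
  have h4 : A = (fun g : SL2 => (g : Matrix (Fin 2) (Fin 2) ℝ)) ⁻¹'
      {M : Matrix (Fin 2) (Fin 2) ℝ | ∀ i j, M i j ∈ Icc (-5 : ℝ) 5} := by
    ext h
    constructor
    · intro hh i j; exact abs_le.1 (hh i j)
    · intro hh i j; exact abs_le.2 (hh i j)
  rw [h4]; exact h3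

theorem W_subset_A (a t : ℝ) (ha : a ≤ 1 / 2) (ht0 : 0 ≤ t) (ht : t ≤ 2) : W a t ⊆ A := by
  rintro h ⟨h1, h2, h3⟩
  have hd := det_eq h
  have hP := P_pos h
  have hx : |X h| ≤ 5 / 2 * P h := by
    rw [abs_le] at h3 ⊢
    constructor <;> nlinarith [h3.1, h3.2]
  have hX2 : X h ^ 2 ≤ 25 := by
    have : |X h| ≤ 5 := by linarith
    have h0 := abs_nonneg (X h)
    rw [← sq_abs]; nlinarith
  have hXP : X h ^ 2 ≤ (5 / 2 * P h) ^ 2 := by
    rw [← sq_abs]
    exact pow_le_pow_left₀ (abs_nonneg _) hx 2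
  have hQ : P h * (h 0 1 ^ 2 + h 1 1 ^ 2) = X h ^ 2 + 1 := by
    have : (h 0 0 * h 1 1 - h 0 1 * h 1 0) ^ 2 = 1 := by rw [hd]; norm_num
    unfold P X
    nlinarith
  have hQ2 : h 0 1 ^ 2 + h 1 1 ^ 2 ≤ 25 := by
    have h5 : P h * (h 0 1 ^ 2 + h 1 1 ^ 2) ≤ P h * 25 := by
      rw [hQ]; nlinarith
    exact le_of_mul_le_mul_left h5 hP
  have hP2 : h 0 0 ^ 2 + h 1 0 ^ 2 ≤ 25 := by
    have : P h ≤ 25 := by linarith
    exact this
  intro i j
  apply abs_le_of_sq_le_sq _ (by norm_num)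
  fin_cases i <;> fin_cases j <;> simp
  · nlinarith [sq_nonneg (h 0 0), sq_nonneg (h 1 0)]
  · nlinarith [sq_nonneg (h 0 1), sq_nonneg (h 1 1)]
  · nlinarith [sq_nonneg (h 0 0), sq_nonneg (h 1 0)]
  · nlinarith [sq_nonneg (h 0 1), sq_nonneg (h 1 1)]

theorem m_W (m : Measure SL2) [m.IsMulRightInvariant] (a t : ℝ) : m (W a t) = m (W a 0) := by
  have h1 : W a t = (fun h => h * u (-t)) ⁻¹' (W a 0) := by
    ext h
    simp only [W, mem_ofPred_eq, mem_preimage, P_u, X_u]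
    constructor
    · rintro ⟨a1, a2, a3⟩
      refine ⟨a1, a2, ?_⟩
      convert a3 using 2
      ring
    · rintro ⟨a1, a2, a3⟩
      refine ⟨a1, a2, ?_⟩
      convert a3 using 2
      ring
  rw [h1, measure_preimage_mul_right]

theorem m_Wj (m : Measure SL2) [m.IsMulRightInvariant] (j : ℕ) :
    ((4 : ℕ) ^ j : ℕ) * m (W ((1 / 4) ^ j / 2) 0) ≤ m A := by
  set c : ℝ := (1 / 4) ^ j with hc
  have hc0 : 0 < c := by positivity
  have hc1 : c ≤ 1 := pow_le_one₀ (by norm_num) (by norm_num)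
  have hc4 : (4 : ℝ) ^ j * c = 1 := by
    rw [hc, ← mul_pow]; norm_num
  have hdis : PairwiseDisjoint (↑(Finset.range (4 ^ j)) : Set ℕ)
      (fun k : ℕ => W (c / 2) (2 * k * c)) := by
    intro k _ l _ hkl
    rw [Function.onFun, Set.disjoint_left]
    rintro h ⟨a1, a2, a3⟩ ⟨b1, b2, b3⟩
    have hP := P_pos h
    have h1 : |(2 * (k : ℝ) * c - 2 * l * c) * P h| ≤ c * P h := by
      rw [abs_le] at a3 b3 ⊢
      constructor <;> nlinarith [a3.1, a3.2, b3.1, b3.2]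
    have h2 : (2 * (k : ℝ) * c - 2 * l * c) * P h = (2 * ((k : ℝ) - l)) * (c * P h) := by ring
    rw [h2, abs_mul, abs_of_pos (mul_pos hc0 hP)] at h1
    have h3 : |2 * ((k : ℝ) - l)| ≤ 1 := by
      have : |2 * ((k : ℝ) - l)| * (c * P h) ≤ 1 * (c * P h) := by linarith
      exact le_of_mul_le_mul_right this (mul_pos hc0 hP)
    have h4 : ((2 * ((k : ℤ) - l) : ℤ) : ℝ) = 2 * ((k : ℝ) - l) := by push_cast; ring
    rw [← h4, ← Int.cast_abs] at h3
    have h5 : |2 * ((k : ℤ) - l)| ≤ 1 := by exact_mod_cast h3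
    rw [abs_le] at h5
    omega
  have hm := measure_biUnion_finset (μ := m) hdis (fun b _ => meas_W _ _)
  have hsub : (⋃ b ∈ Finset.range (4 ^ j), W (c / 2) (2 * b * c)) ⊆ A := by
    apply iUnion₂_subset
    intro k hk
    rw [Finset.mem_range] at hk
    apply W_subset_A _ _ (by linarith) (by positivity)
    have : (k : ℝ) ≤ 4 ^ j := by exact_mod_cast hk.le
    nlinarith
  have hle := measure_mono (μ := m) hsub
  rw [hm] at hle
  simp only [m_W m (c / 2)] at hle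
  rw [Finset.sum_const, Finset.card_range, nsmul_eq_mul] at hle
  exact hle

theorem m_S1 (m : Measure SL2) [m.IsHaarMeasure] [m.IsMulRightInvariant] : m S1 ≠ ∞ := by
  have hA : m A ≠ ∞ := compact_A.measure_lt_top.ne
  have h2 : ∀ j : ℕ, (2 : ℝ) ^ j ≠ 0 := fun j => by positivity
  have hsub : S1 ⊆ ⋃ j : ℕ, (fun h => h * dg (2 ^ j) (h2 j)) ⁻¹' (W ((1 / 4) ^ j / 2) 0) := by
    rintro h ⟨h1, h3⟩
    have hP := P_pos h
    obtain ⟨n, hn1, hn2⟩ := exists_nat_pow_near (x := 2 / P h) (y := 4)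
      (by rw [le_div_iff₀ hP]; linarith) (by norm_num)
    rw [le_div_iff₀ hP] at hn1
    rw [div_lt_iff₀ hP] at hn2
    rw [mem_iUnion]
    refine ⟨n, ?_⟩
    have h4 : ((2 : ℝ) ^ n) ^ 2 = 4 ^ n := by
      rw [← pow_mul, mul_comm, pow_mul]; norm_num
    have h5 : (4 : ℝ) ^ n * (1 / 4) ^ n = 1 := by
      rw [← mul_pow]; norm_num
    simp only [mem_preimage, W, mem_ofPred_eq, P_dg, X_dg, h4]
    refine ⟨?_, hn1, ?_⟩
    · rw [pow_succ] at hn2; linarith
    · have h6 : (1 / 4 : ℝ) ^ n / 2 * (4 ^ n * P h) = (4 ^ n * (1 / 4) ^ n) * (P h / 2) := by ring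
      rw [h6, h5]
      simpa using h3
  have hle : m S1 ≤ ∑' j : ℕ, m A * (4⁻¹ : ℝ≥0∞) ^ j := by
    refine (measure_mono hsub).trans ((measure_iUnion_le _).trans ?_)
    apply ENNReal.tsum_le_tsum
    intro j
    rw [measure_preimage_mul_right]
    have h3 := m_Wj m j
    have h4 : ((4 : ℕ) ^ j : ℕ) * m (W ((1 / 4) ^ j / 2) 0) * (4⁻¹ : ℝ≥0∞) ^ j =
        m (W ((1 / 4) ^ j / 2) 0) := by
      have h5 : (((4 : ℕ) ^ j : ℕ) : ℝ≥0∞) * (4⁻¹ : ℝ≥0∞) ^ j = 1 := by
        push_cast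
        rw [← mul_pow, ENNReal.mul_inv_cancel (by norm_num) (by norm_num), one_pow]
      calc ((4 : ℕ) ^ j : ℕ) * m (W ((1 / 4) ^ j / 2) 0) * (4⁻¹ : ℝ≥0∞) ^ j
          = (((4 : ℕ) ^ j : ℕ) : ℝ≥0∞) * (4⁻¹ : ℝ≥0∞) ^ j * m (W ((1 / 4) ^ j / 2) 0) := by ring
        _ = _ := by rw [h5, one_mul]
    rw [← h4]
    gcongr
  rw [ENNReal.tsum_mul_left, ENNReal.tsum_geometric] at hle
  refine (lt_of_le_of_lt hle ?_).ne
  apply ENNReal.mul_lt_top hA.lt_top
  rw [ENNReal.inv_lt_top]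
  simp

theorem exists_mem_S1 (g : SL2) :
    ∃ γ : Matrix.SpecialLinearGroup (Fin 2) ℤ, g * toR γ ∈ S1 := by
  obtain ⟨δ, hδ⟩ := ModularGroup.exists_smul_mem_fd (g⁻¹ • UpperHalfPlane.I)
  refine ⟨δ⁻¹, ?_⟩
  set h : SL2 := g * toR δ⁻¹ with hh
  have hz : δ • (g⁻¹ • UpperHalfPlane.I) = h⁻¹ • UpperHalfPlane.I := by
    have h1 : h⁻¹ = toR δ * g⁻¹ := by
      rw [hh, map_inv, mul_inv_rev, inv_inv]
    rw [h1, mul_smul]
    rfl
  rw [hz] at hδ
  have hP := P_pos h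
  have hd := det_eq h
  have hi : (h⁻¹ : SL2) 0 0 = h 1 1 ∧ (h⁻¹ : SL2) 0 1 = -h 0 1 ∧ (h⁻¹ : SL2) 1 0 = -h 1 0 ∧
      (h⁻¹ : SL2) 1 1 = h 0 0 := by
    rw [Matrix.SpecialLinearGroup.coe_inv, Matrix.adjugate_fin_two]
    simp
  obtain ⟨i1, i2, i3, i4⟩ := hi
  have hco : ((h⁻¹ • UpperHalfPlane.I : UpperHalfPlane) : ℂ) =
      ⟨-X h / P h, 1 / P h⟩ := by
    rw [UpperHalfPlane.coe_specialLinearGroup_apply]
    simp only [Algebra.algebraMap_self, RingHom.id_apply, UpperHalfPlane.coe_I]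
    rw [i1, i2, i3, i4]
    have hne : ((-h 1 0 : ℝ) : ℂ) * Complex.I + ((h 0 0 : ℝ) : ℂ) ≠ 0 := by
      intro h0
      have e1 := congrArg Complex.re h0
      have e2 := congrArg Complex.im h0
      simp at e1 e2
      unfold P at hP
      rw [e1, e2] at hP
      norm_num at hP
    rw [div_eq_iff hne]
    apply Complex.ext
    · simp
      field_simp
      unfold X P
      linear_combination (h 1 0) * hd
    · simp
      field_simp
      unfold X P
      linear_combination (h 0 0) * hd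
  have him : (h⁻¹ • UpperHalfPlane.I : UpperHalfPlane).im = 1 / P h := by
    rw [← UpperHalfPlane.coe_im, hco]
  have hre : (h⁻¹ • UpperHalfPlane.I : UpperHalfPlane).re = -X h / P h := by
    rw [← UpperHalfPlane.coe_re, hco]
  have h3 := ModularGroup.three_le_four_mul_im_sq_of_mem_fd hδ
  have h4 := hδ.2
  rw [him] at h3
  rw [hre] at h4
  constructor
  · rw [div_pow, one_pow, ← mul_div_assoc, mul_one, le_div_iff₀ (by positivity)] at h3
    nlinarith
  · rw [abs_div, abs_neg, abs_of_pos hP, div_le_iff₀ hP] at h4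
    linarith

end IR14

/-- TARGET -/
theorem siegel_fi (m : Measure SL2) [m.IsHaarMeasure] [m.IsMulRightInvariant]
    (Γ0 : Subgroup (Matrix.SpecialLinearGroup (Fin 2) ℤ)) [Γ0.FiniteIndex] :
    ∃ S : Set SL2, MeasurableSet S ∧ m S ≠ ∞ ∧ ∀ g : SL2, ∃ γ ∈ Γ0, g * toR γ ∈ S := by
  classical
  have : Finite (Matrix.SpecialLinearGroup (Fin 2) ℤ ⧸ Γ0) := Γ0.finite_quotient_of_finiteIndex
  let _ : Fintype (Matrix.SpecialLinearGroup (Fin 2) ℤ ⧸ Γ0) := Fintype.ofFinite _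
  refine ⟨⋃ c : Matrix.SpecialLinearGroup (Fin 2) ℤ ⧸ Γ0,
    (fun h => h * toR (c.out)⁻¹) ⁻¹' IR14.S1, ?_, ?_, ?_⟩
  · exact MeasurableSet.iUnion (fun c => (measurable_mul_const _) IR14.meas_S1)
  · have h1 : m (⋃ c : Matrix.SpecialLinearGroup (Fin 2) ℤ ⧸ Γ0,
        (fun h => h * toR (c.out)⁻¹) ⁻¹' IR14.S1) ≤
        ∑ c : Matrix.SpecialLinearGroup (Fin 2) ℤ ⧸ Γ0, m IR14.S1 := by
      refine (measure_iUnion_fintype_le m _).trans (Finset.sum_le_sum (fun c _ => ?_))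
      rw [measure_preimage_mul_right]
    refine (lt_of_le_of_lt h1 ?_).ne
    exact ENNReal.sum_lt_top.2 (fun c _ => (IR14.m_S1 m).lt_top)
  · intro g
    obtain ⟨γ, hγ⟩ := IR14.exists_mem_S1 g
    set c : Matrix.SpecialLinearGroup (Fin 2) ℤ ⧸ Γ0 := QuotientGroup.mk γ⁻¹ with hc
    have h1 : (c.out)⁻¹ * γ⁻¹ ∈ Γ0 := by
      rw [← QuotientGroup.eq, QuotientGroup.out_eq']
    refine ⟨γ * c.out, ?_, ?_⟩
    · have := Γ0.inv_mem h1
      simpa using this
    · rw [mem_iUnion]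
      refine ⟨c, ?_⟩
      show g * toR (γ * c.out) * toR (c.out)⁻¹ ∈ IR14.S1
      rw [mul_assoc, ← map_mul, mul_inv_cancel_right]
      exact hγ

end Helper418IRS

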