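import Pool.Agent.Helper418_IRS.Defs
import Pool.Agent.Helper460_OutF.Sanov

set_option autoImplicit false

namespace Helper418IRS

open MeasureTheory Set Topology Filter
open scoped Pointwise ENNReal

namespace IR15

open Pool.Agent.Helper460_OutF (saA saB sanov sanov_injective)
open scoped MatrixGroups

theorem saA_mem : saA ∈ sanov.range := ⟨FreeGroup.of 0, by simp [sanov]⟩

theorem saB_mem : saB ∈ sanov.range := ⟨FreeGroup.of 1, by simp [sanov]⟩

/-- upper triangular elements -/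
def XA (k : ℤ) : SL(2, ℤ) := ⟨!![1, 2 * k; 0, 1], by simp [Matrix.det_fin_two]⟩

/-- lower triangular elements -/
def XB (k : ℤ) : SL(2, ℤ) := ⟨!![1, 0; 2 * k, 1], by simp [Matrix.det_fin_two]⟩

theorem mul_ent (X M : SL(2, ℤ)) (i j : Fin 2) :
    (X * M) i j = X i 0 * M 0 j + X i 1 * M 1 j := by
  rw [Matrix.SpecialLinearGroup.coe_mul, Matrix.mul_apply, Fin.sum_univ_two]

theorem XA_00 (k : ℤ) : (XA k) 0 0 = 1 := rfl
theorem XA_01 (k : ℤ) : (XA k) 0 1 = 2 * k := rfl
theorem XA_10 (k : ℤ) : (XA k) 1 0 = 0 := rfl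
theorem XA_11 (k : ℤ) : (XA k) 1 1 = 1 := rfl
theorem XB_00 (k : ℤ) : (XB k) 0 0 = 1 := rfl
theorem XB_01 (k : ℤ) : (XB k) 0 1 = 0 := rfl
theorem XB_10 (k : ℤ) : (XB k) 1 0 = 2 * k := rfl
theorem XB_11 (k : ℤ) : (XB k) 1 1 = 1 := rfl

theorem ext4 {X Y : SL(2, ℤ)} (h00 : X 0 0 = Y 0 0) (h01 : X 0 1 = Y 0 1)
    (h10 : X 1 0 = Y 1 0) (h11 : X 1 1 = Y 1 1) : X = Y := by
  ext i j
  fin_cases i <;> fin_cases j
  · exact h00
  · exact h01
  · exact h10
  · exact h11

theorem XA_add (k l : ℤ) : XA (k + l) = XA k * XA l := by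
  apply ext4 <;> rw [mul_ent] <;> simp only [XA_00, XA_01, XA_10, XA_11] <;> ring

theorem XB_add (k l : ℤ) : XB (k + l) = XB k * XB l := by
  apply ext4 <;> rw [mul_ent] <;> simp only [XB_00, XB_01, XB_10, XB_11] <;> ring

theorem XA_zero : XA 0 = 1 := by
  ext i j
  fin_cases i <;> fin_cases j <;> simp [XA]

theorem XB_zero : XB 0 = 1 := by
  ext i j
  fin_cases i <;> fin_cases j <;> simp [XB]

theorem XA_mem (k : ℤ) : XA k ∈ sanov.range := by
  have h1 : XA 1 ∈ sanov.range := by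
    have : XA 1 = saA := by
      ext i j
      fin_cases i <;> fin_cases j <;> simp [XA, saA]
    rw [this]; exact saA_mem
  have hneg : XA (-1) ∈ sanov.range := by
    have : XA (-1) = (XA 1)⁻¹ := by
      rw [eq_inv_iff_mul_eq_one, ← XA_add]
      exact XA_zero
    rw [this]; exact inv_mem h1
  induction k using Int.induction_on with
  | zero => rw [XA_zero]; exact one_mem _
  | succ i ih => rw [XA_add]; exact mul_mem ih h1
  | pred i ih => rw [sub_eq_add_neg, XA_add]; exact mul_mem ih hneg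

theorem XB_mem (k : ℤ) : XB k ∈ sanov.range := by
  have h1 : XB 1 ∈ sanov.range := by
    have : XB 1 = saB := by
      ext i j
      fin_cases i <;> fin_cases j <;> simp [XB, saB]
    rw [this]; exact saB_mem
  have hneg : XB (-1) ∈ sanov.range := by
    have : XB (-1) = (XB 1)⁻¹ := by
      rw [eq_inv_iff_mul_eq_one, ← XB_add]
      exact XB_zero
    rw [this]; exact inv_mem h1
  induction k using Int.induction_on with
  | zero => rw [XB_zero]; exact one_mem _
  | succ i ih => rw [XB_add]; exact mul_mem ih h1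
  | pred i ih => rw [sub_eq_add_neg, XB_add]; exact mul_mem ih hneg

theorem XA_mul (k : ℤ) (M : SL(2, ℤ)) : (XA k * M) 0 0 = M 0 0 + 2 * k * M 1 0 ∧
    (XA k * M) 0 1 = M 0 1 + 2 * k * M 1 1 ∧ (XA k * M) 1 0 = M 1 0 ∧
    (XA k * M) 1 1 = M 1 1 := by
  refine ⟨?_, ?_, ?_, ?_⟩ <;> rw [mul_ent] <;> simp only [XA_00, XA_01, XA_10, XA_11] <;> ring

theorem XB_mul (k : ℤ) (M : SL(2, ℤ)) : (XB k * M) 0 0 = M 0 0 ∧
    (XB k * M) 0 1 = M 0 1 ∧ (XB k * M) 1 0 = M 1 0 + 2 * k * M 0 0 ∧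
    (XB k * M) 1 1 = M 1 1 + 2 * k * M 0 1 := by
  refine ⟨?_, ?_, ?_, ?_⟩ <;> rw [mul_ent] <;> simp only [XB_00, XB_01, XB_10, XB_11] <;> ring

/-- reduction of the larger of two numbers -/
theorem red (x y : ℤ) (hy : y ≠ 0) (hxy : y.natAbs < x.natAbs) :
    ∃ k : ℤ, (x + 2 * k * y).natAbs < x.natAbs := by
  rcases lt_or_gt_of_ne hy with h | h
  · by_cases hx : 0 < x
    · exact ⟨1, by omega⟩
    · exact ⟨-1, by omega⟩
  · by_cases hx : 0 < x
    · exact ⟨-1, by omega⟩
    · exact ⟨1, by omega⟩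

theorem mem_range (n : ℕ) : ∀ M : SL(2, ℤ), (M 0 0).natAbs + (M 1 0).natAbs = n →
    (M 0 0) % 4 = 1 → (M 0 1) % 2 = 0 → (M 1 0) % 2 = 0 → M ∈ sanov.range := by
  induction n using Nat.strong_induction_on with
  | _ n ih =>
    intro M hn ha hb hc
    have hdet : M 0 0 * M 1 1 - M 0 1 * M 1 0 = 1 := by
      have := M.det_coe
      rwa [Matrix.det_fin_two] at this
    by_cases hc0 : M 1 0 = 0
    · rw [hc0, mul_zero, sub_zero] at hdet
      have h1 : M 0 0 = 1 ∨ M 0 0 = -1 := Int.isUnit_iff.1 (IsUnit.of_mul_eq_one _ hdet)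
      have h2 : M 0 0 = 1 := by
        rcases h1 with h | h
        · exact h
        · rw [h] at ha; norm_num at ha
      have h3 : M 1 1 = 1 := by rw [h2, one_mul] at hdet; exact hdet
      have h4 : M = XA (M 0 1 / 2) := by
        have h5 : 2 * (M 0 1 / 2) = M 0 1 := by omega
        exact ext4 (by rw [XA_00, h2]) (by rw [XA_01, h5]) (by rw [XA_10, hc0]) (by rw [XA_11, h3])
      rw [h4]
      exact XA_mem _
    · have ha0 : M 0 0 ≠ 0 := by
        intro h; rw [h] at ha; norm_num at ha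
      rcases lt_trichotomy (M 1 0).natAbs (M 0 0).natAbs with h | h | h
      · obtain ⟨k, hk⟩ := red (M 0 0) (M 1 0) hc0 h
        obtain ⟨e1, e2, e3, e4⟩ := XA_mul k M
        have h5 : XA k * M ∈ sanov.range := by
          refine ih _ ?_ (XA k * M) rfl ?_ ?_ ?_
          · rw [e1, e3]; omega
          · rw [e1]
            obtain ⟨m, hm⟩ : ∃ m, M 1 0 = 2 * m := ⟨M 1 0 / 2, by omega⟩
            rw [hm, show M 0 0 + 2 * k * (2 * m) = M 0 0 + 4 * (k * m) by ring]
            omega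
          · rw [e2, show M 0 1 + 2 * k * M 1 1 = M 0 1 + 2 * (k * M 1 1) by ring]
            omega
          · rw [e3]; exact hc
        exact (Subgroup.mul_mem_cancel_left _ (XA_mem k)).1 h5
      · omega
      · obtain ⟨k, hk⟩ := red (M 1 0) (M 0 0) ha0 h
        obtain ⟨e1, e2, e3, e4⟩ := XB_mul k M
        have h5 : XB k * M ∈ sanov.range := by
          refine ih _ ?_ (XB k * M) rfl ?_ ?_ ?_
          · rw [e1, e3]; omega
          · rw [e1]; exact ha
          · rw [e2]; exact hb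
          · rw [e3, show M 1 0 + 2 * k * M 0 0 = M 1 0 + 2 * (k * M 0 0) by ring]
            omega
        exact (Subgroup.mul_mem_cancel_left _ (XB_mem k)).1 h5

theorem ker_le : (Matrix.SpecialLinearGroup.map (n := Fin 2) (Int.castRingHom (ZMod 4))).ker ≤
    sanov.range := by
  intro M hM
  rw [MonoidHom.mem_ker] at hM
  have h : ∀ i j, ((M i j : ℤ) : ZMod 4) = (1 : Matrix (Fin 2) (Fin 2) (ZMod 4)) i j := by
    intro i j
    have := congrArg (fun X : SL(2, ZMod 4) => X i j) hM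
    simpa using this
  have h00 := h 0 0
  have h01 := h 0 1
  have h10 := h 1 0
  simp only [Matrix.one_apply_eq] at h00
  rw [Matrix.one_apply_ne (by decide)] at h01 h10
  have g00 : (4 : ℤ) ∣ M 0 0 - 1 :=
    (ZMod.intCast_zmod_eq_zero_iff_dvd _ 4).1 (by rw [Int.cast_sub, h00, Int.cast_one, sub_self])
  have g01 : (4 : ℤ) ∣ M 0 1 := (ZMod.intCast_zmod_eq_zero_iff_dvd _ 4).1 h01
  have g10 : (4 : ℤ) ∣ M 1 0 := (ZMod.intCast_zmod_eq_zero_iff_dvd _ 4).1 h10
  exact mem_range _ M rfl (by omega) (by omega) (by omega)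

end IR15

/-- TARGET -/
theorem sanov_range_fi :
    ∃ f : FreeGroup (Fin 2) →* Matrix.SpecialLinearGroup (Fin 2) ℤ, Function.Injective f ∧
      f.range.FiniteIndex := by
  refine ⟨Pool.Agent.Helper460_OutF.sanov, Pool.Agent.Helper460_OutF.sanov_injective, ?_⟩
  have h1 : (Matrix.SpecialLinearGroup.map (n := Fin 2) (Int.castRingHom (ZMod 4))).ker.FiniteIndex :=
    Subgroup.finiteIndex_ker _
  exact Subgroup.finiteIndex_of_le IR15.ker_le

end Helper418IRS
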