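import Pool.Agent.Helper418_IRS.Defs

set_option autoImplicit false

namespace Helper418IRS

open MeasureTheory Set Topology Filter
open scoped Pointwise ENNReal

namespace IR16

variable {Q : Type} [Group Q] {C : Type} [Group C]

/-- the homomorphism to the wreath product -/
def ff (c : C → Q) (g : C) : FreeGroup (Fin 2) →* RegularWreathProduct Q C :=
  FreeGroup.lift ![⟨c, 1⟩, ⟨1, g⟩]

theorem ff_a (c : C → Q) (g : C) : ff c g (FreeGroup.of 0) = ⟨c, 1⟩ := by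
  unfold ff
  rw [FreeGroup.lift_apply_of]
  rfl

theorem ff_b (c : C → Q) (g : C) : ff c g (FreeGroup.of 1) = ⟨1, g⟩ := by
  unfold ff
  rw [FreeGroup.lift_apply_of]
  rfl

theorem ff_bpow (c : C → Q) (g : C) (j : ℤ) :
    ff c g (FreeGroup.of 1 ^ j) = RegularWreathProduct.inl (g ^ j) := by
  rw [map_zpow, ff_b, map_zpow]
  rfl

/-- the finite index subgroup -/
def KK (c : C → Q) (g : C) : Subgroup (FreeGroup (Fin 2)) :=
  ((RegularWreathProduct.rightHom (D := Q) (Q := C)).comp (ff c g)).ker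

theorem mem_KK (c : C → Q) (g : C) (k : FreeGroup (Fin 2)) : k ∈ KK c g ↔ (ff c g k).right = 1 :=
  MonoidHom.mem_ker

/-- the coordinate at the identity -/
def phi (c : C → Q) (g : C) : KK c g →* Q where
  toFun k := (ff c g k).left 1
  map_one' := by
    show (ff c g 1).left 1 = 1
    rw [map_one]
    rfl
  map_mul' := by
    intro k l
    show (ff c g ((k : FreeGroup (Fin 2)) * l)).left 1 = (ff c g k).left 1 * (ff c g l).left 1
    rw [map_mul, RegularWreathProduct.mul_left, Pi.mul_apply]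
    have h := (mem_KK c g k).1 k.2
    rw [h, inv_one, one_mul]

theorem conj_mem (c : C → Q) (g : C) (j : ℤ) :
    (FreeGroup.of 1 ^ j * FreeGroup.of 0 * (FreeGroup.of 1 ^ j)⁻¹ : FreeGroup (Fin 2)) ∈ KK c g ∧
      (ff c g (FreeGroup.of 1 ^ j * FreeGroup.of 0 * (FreeGroup.of 1 ^ j)⁻¹)).left 1 = c ((g ^ j)⁻¹) := by
  have e : ff c g (FreeGroup.of 1 ^ j * FreeGroup.of 0 * (FreeGroup.of 1 ^ j)⁻¹) =
      RegularWreathProduct.inl (g ^ j) * ⟨c, 1⟩ * (RegularWreathProduct.inl (g ^ j))⁻¹ := by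
    rw [map_mul, map_mul, map_inv, ff_bpow, ff_a]
  generalize g ^ j = x at e ⊢
  constructor
  · rw [mem_KK, e]
    simp
  · rw [e]
    simp

theorem noncomm : (FreeGroup.of 0 : FreeGroup (Fin 2)) * (FreeGroup.of 1 * FreeGroup.of 0 * (FreeGroup.of 1)⁻¹) ≠
    (FreeGroup.of 1 * FreeGroup.of 0 * (FreeGroup.of 1)⁻¹) * FreeGroup.of 0 := by
  intro h
  have h2 := congrArg (FreeGroup.lift ![(Equiv.swap 0 1 : Equiv.Perm (Fin 3)), Equiv.swap 1 2]) h
  simp only [map_mul, map_inv, FreeGroup.lift_apply_of] at h2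
  revert h2
  decide

end IR16

open IR16 in
/-- TARGET -/
theorem free_surj (Q : Type) [Group Q] [Group.FG Q] :
    ∃ (K : Subgroup (FreeGroup (Fin 2))) (_ : K.FiniteIndex) (φ : K →* Q),
      Function.Surjective φ ∧ ∃ x y : K, φ x = 1 ∧ φ y = 1 ∧ x * y ≠ y * x := by
  classical
  obtain ⟨S, hS⟩ := (Group.fg_iff' (G := Q)).1 inferInstance
  obtain ⟨T, hT, hcl⟩ := hS
  set l := T.toList with hl
  set n := l.length with hn
  let c : Multiplicative (ZMod (n + 2)) → Q := fun m =>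
    if 1 ≤ (Multiplicative.toAdd m).val ∧ (Multiplicative.toAdd m).val ≤ n then
      l.getD ((Multiplicative.toAdd m).val - 1) 1 else 1
  let g : Multiplicative (ZMod (n + 2)) := Multiplicative.ofAdd 1
  refine ⟨KK c g, inferInstanceAs (MonoidHom.ker _).FiniteIndex, phi c g, ?_, ?_⟩
  · rw [← MonoidHom.range_eq_top, eq_top_iff, ← hcl, Subgroup.closure_le]
    intro s hs
    have hsl : s ∈ l := by rw [hl]; exact Finset.mem_toList.2 hs
    obtain ⟨i, hi, his⟩ := List.mem_iff_getElem.1 hsl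
    have hi' : i < n := hi
    have hval : ((((i + 1 : ℕ) : ZMod (n + 2)))).val = i + 1 := ZMod.val_cast_of_lt (by omega)
    obtain ⟨h1, h2⟩ := conj_mem c g (-((i + 1 : ℕ) : ℤ))
    refine ⟨⟨_, h1⟩, ?_⟩
    show (ff c g _).left 1 = s
    rw [h2]
    have e : (g ^ (-((i + 1 : ℕ) : ℤ)))⁻¹ = Multiplicative.ofAdd (((i + 1 : ℕ) : ZMod (n + 2))) := by
      rw [zpow_neg, inv_inv, zpow_natCast]
      show Multiplicative.ofAdd (1 : ZMod (n + 2)) ^ (i + 1) = _
      rw [← ofAdd_nsmul, nsmul_one]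
    rw [e]
    show (if 1 ≤ (((i + 1 : ℕ) : ZMod (n + 2))).val ∧ (((i + 1 : ℕ) : ZMod (n + 2))).val ≤ n then
      l.getD ((((i + 1 : ℕ) : ZMod (n + 2))).val - 1) 1 else 1) = s
    rw [hval, if_pos ⟨by omega, by omega⟩, Nat.add_sub_cancel, List.getD_eq_getElem _ _ hi, his]
  · obtain ⟨h1, h2⟩ := conj_mem c g 0
    obtain ⟨h3, h4⟩ := conj_mem c g 1
    have e0 : (FreeGroup.of 1 ^ (0 : ℤ) * FreeGroup.of 0 * (FreeGroup.of 1 ^ (0 : ℤ))⁻¹ : FreeGroup (Fin 2)) = FreeGroup.of 0 := by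
      simp
    have e1 : (FreeGroup.of 1 ^ (1 : ℤ) * FreeGroup.of 0 * (FreeGroup.of 1 ^ (1 : ℤ))⁻¹ : FreeGroup (Fin 2)) =
        FreeGroup.of 1 * FreeGroup.of 0 * (FreeGroup.of 1)⁻¹ := by
      rw [zpow_one]
    rw [e0] at h1 h2
    rw [e1] at h3 h4
    refine ⟨⟨_, h1⟩, ⟨_, h3⟩, ?_, ?_, ?_⟩
    · have h5 : phi c g ⟨FreeGroup.of 0, h1⟩ = (ff c g (FreeGroup.of 0)).left 1 := rfl
      rw [h5, h2, zpow_zero, inv_one]
      show (if 1 ≤ (0 : ZMod (n + 2)).val ∧ (0 : ZMod (n + 2)).val ≤ n then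
        l.getD ((0 : ZMod (n + 2)).val - 1) 1 else 1) = 1
      rw [ZMod.val_zero, if_neg (by omega)]
    · have h5 : phi c g ⟨FreeGroup.of 1 * FreeGroup.of 0 * (FreeGroup.of 1)⁻¹, h3⟩ =
          (ff c g (FreeGroup.of 1 * FreeGroup.of 0 * (FreeGroup.of 1)⁻¹)).left 1 := rfl
      rw [h5, h4, zpow_one]
      show (if 1 ≤ (-1 : ZMod (n + 2)).val ∧ (-1 : ZMod (n + 2)).val ≤ n then
        l.getD ((-1 : ZMod (n + 2)).val - 1) 1 else 1) = 1
      have : (-1 : ZMod (n + 2)).val = n + 1 := ZMod.val_neg_one (n + 1)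
      rw [this, if_neg (by omega)]
    · intro h
      exact noncomm (congrArg Subtype.val h)

end Helper418IRS
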