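import Pool.Agent.Helper418_IRS.IR13
import Pool.Agent.Helper418_IRS.Defs

set_option autoImplicit false

namespace Helper418IRS

open MeasureTheory Set Topology Filter
open scoped Pointwise ENNReal

namespace IR17

/-- a matrix of `SL(2, ℝ)` commuting with two non-commuting ones and with positive `(0,0)` entry is
the identity -/
theorem eq_one_of_comm (l x y : SL2) (hxy : x * y ≠ y * x) (h1 : l * x = x * l)
    (h2 : l * y = y * l) (hpos : 0 < l 0 0) : l = 1 := by
  have e1 : (l : Matrix (Fin 2) (Fin 2) ℝ) * x = x * l := by
    have := congrArg (fun z : SL2 => (z : Matrix (Fin 2) (Fin 2) ℝ)) h1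
    simpa using this
  have e2 : (l : Matrix (Fin 2) (Fin 2) ℝ) * y = y * l := by
    have := congrArg (fun z : SL2 => (z : Matrix (Fin 2) (Fin 2) ℝ)) h2
    simpa using this
  have hne : ¬ ((x : Matrix (Fin 2) (Fin 2) ℝ) * y = y * x) := by
    intro h
    apply hxy
    apply Subtype.ext
    simpa using h
  have hdet : l 0 0 * l 1 1 - l 0 1 * l 1 0 = 1 := by
    have := l.2
    rw [Matrix.det_fin_two] at this
    exact this
  -- entries
  set a := l 0 0 with ha
  set b := l 0 1 with hb
  set c := l 1 0 with hc
  set d := l 1 1 with hd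
  set p := x 0 0 with hp
  set q := x 0 1 with hq
  set r := x 1 0 with hr
  set s := x 1 1 with hs
  set p' := y 0 0 with hp'
  set q' := y 0 1 with hq'
  set r' := y 1 0 with hr'
  set s' := y 1 1 with hs'
  have x00 : a * p + b * r = p * a + q * c := by
    have := congrFun (congrFun e1 0) 0
    simpa [Matrix.mul_apply, Fin.sum_univ_two] using this
  have x01 : a * q + b * s = p * b + q * d := by
    have := congrFun (congrFun e1 0) 1
    simpa [Matrix.mul_apply, Fin.sum_univ_two] using this
  have x10 : c * p + d * r = r * a + s * c := by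
    have := congrFun (congrFun e1 1) 0
    simpa [Matrix.mul_apply, Fin.sum_univ_two] using this
  have y00 : a * p' + b * r' = p' * a + q' * c := by
    have := congrFun (congrFun e2 0) 0
    simpa [Matrix.mul_apply, Fin.sum_univ_two] using this
  have y01 : a * q' + b * s' = p' * b + q' * d := by
    have := congrFun (congrFun e2 0) 1
    simpa [Matrix.mul_apply, Fin.sum_univ_two] using this
  have y10 : c * p' + d * r' = r' * a + s' * c := by
    have := congrFun (congrFun e2 1) 0
    simpa [Matrix.mul_apply, Fin.sum_univ_two] using this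
  -- the commutator of x and y is nonzero
  have hn : ¬ (q * r' = q' * r ∧ (p - s) * q' = (p' - s') * q ∧ (p - s) * r' = (p' - s') * r) := by
    rintro ⟨h3, h4, h5⟩
    apply hne
    ext i j
    fin_cases i <;> fin_cases j <;>
      simp only [Matrix.mul_apply, Fin.sum_univ_two, Fin.zero_eta, Fin.mk_one, Fin.isValue,
        ← hp, ← hq, ← hr, ← hs, ← hp', ← hq', ← hr', ← hs'] <;> linarith
  -- b r = q c, (a - d) q = (p - s) b, (a - d) r = (p - s) c, same for y
  have b0 : b = 0 := by
    by_contra hb0
    apply hn
    have k1 : b * r = q * c := by linarith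
    have k2 : (a - d) * q = (p - s) * b := by linarith
    have k1' : b * r' = q' * c := by linarith
    have k2' : (a - d) * q' = (p' - s') * b := by linarith
    refine ⟨?_, ?_, ?_⟩
    · apply mul_left_cancel₀ hb0
      linear_combination q * k1' - q' * k1
    · apply mul_left_cancel₀ hb0
      linear_combination (-q') * k2 + q * k2'
    · apply mul_left_cancel₀ hb0
      apply mul_left_cancel₀ hb0
      linear_combination (-c * q') * k2 + (c * q) * k2' + (b * (p - s)) * k1' -
        (b * (p' - s')) * k1
  have c0 : c = 0 := by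
    by_contra hc0
    apply hn
    have k1 : q * c = 0 := by rw [b0] at x00; linarith
    have k1' : q' * c = 0 := by rw [b0] at y00; linarith
    have kq : q = 0 := by
      rcases mul_eq_zero.mp k1 with h | h
      · exact h
      · exact absurd h hc0
    have kq' : q' = 0 := by
      rcases mul_eq_zero.mp k1' with h | h
      · exact h
      · exact absurd h hc0
    have k3 : (a - d) * r = (p - s) * c := by linarith
    have k3' : (a - d) * r' = (p' - s') * c := by linarith
    refine ⟨by rw [kq, kq']; ring, by rw [kq, kq']; ring, ?_⟩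
    apply mul_left_cancel₀ hc0
    linear_combination (-r') * k3 + r * k3'
  have had : a = d := by
    by_contra had
    apply hn
    have had' : a - d ≠ 0 := sub_ne_zero.mpr had
    have kq : q = 0 := by
      rw [b0] at x01
      have : (a - d) * q = 0 := by linarith
      rcases mul_eq_zero.mp this with h | h
      · exact absurd h had'
      · exact h
    have kq' : q' = 0 := by
      rw [b0] at y01
      have : (a - d) * q' = 0 := by linarith
      rcases mul_eq_zero.mp this with h | h
      · exact absurd h had'
      · exact h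
    have kr : r = 0 := by
      rw [c0] at x10
      have : (a - d) * r = 0 := by linarith
      rcases mul_eq_zero.mp this with h | h
      · exact absurd h had'
      · exact h
    have kr' : r' = 0 := by
      rw [c0] at y10
      have : (a - d) * r' = 0 := by linarith
      rcases mul_eq_zero.mp this with h | h
      · exact absurd h had'
      · exact h
    rw [kq, kq', kr, kr']
    simp
  have ha1 : a = 1 := by
    rw [b0, ← had] at hdet
    have : a * a = 1 := by linarith
    nlinarith
  apply Subtype.ext
  ext i j
  fin_cases i <;> fin_cases j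
  · exact ha1
  · exact b0
  · exact c0
  · show d = 1
    rw [← had]; exact ha1

end IR17

/-- TARGET -/
theorem nrm_discrete (N : ClosedSubgroup SL2) (hN : DiscreteTopology N) (x y : SL2) (hx : x ∈ N)
    (hy : y ∈ N) (hxy : x * y ≠ y * x) : DiscreteTopology (nrm N) := by
  -- a neighbourhood O of 1 with O ∩ N = {1}
  have hO : ∃ O : Set SL2, IsOpen O ∧ (1 : SL2) ∈ O ∧ ∀ z ∈ N, z ∈ O → z = 1 := by
    have h1 : IsOpen ({1} : Set N) := isOpen_discrete _
    obtain ⟨O, hO, hO1⟩ := isOpen_induced_iff.mp h1
    refine ⟨O, hO, ?_, ?_⟩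
    · have : (1 : N) ∈ (Subtype.val ⁻¹' O : Set N) := by
        rw [hO1]; exact Set.mem_singleton _
      exact this
    · intro z hz hzO
      have : (⟨z, hz⟩ : N) ∈ (Subtype.val ⁻¹' O : Set N) := hzO
      rw [hO1] at this
      exact congrArg Subtype.val (Set.mem_singleton_iff.mp this)
  obtain ⟨O, hOo, hO1, hON⟩ := hO
  let O' : Set SL2 := {l | l * x * l⁻¹ * x⁻¹ ∈ O ∧ l * y * l⁻¹ * y⁻¹ ∈ O ∧ 0 < l 0 0}
  have hO' : IsOpen O' := by
    have cz : ∀ z : SL2, Continuous fun l : SL2 => l * z * l⁻¹ * z⁻¹ := fun z =>
      ((continuous_id.mul continuous_const).mul continuous_inv).mul continuous_const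
    have c1 := cz x
    have c2 := cz y
    have c3 : Continuous fun l : SL2 => l 0 0 := by
      have h : Continuous fun l : SL2 => (l : Matrix (Fin 2) (Fin 2) ℝ) := continuous_subtype_val
      exact h.matrix_elem 0 0
    exact (hOo.preimage c1).inter ((hOo.preimage c2).inter (isOpen_lt continuous_const c3))
  have h1O' : (1 : SL2) ∈ O' := by
    refine ⟨by simpa using hO1, by simpa using hO1, ?_⟩
    show (0 : ℝ) < (1 : Matrix (Fin 2) (Fin 2) ℝ) 0 0
    simp
  have key : ∀ l ∈ nrm N, l ∈ O' → l = 1 := by
    intro l hl hlO
    have hcomm : ∀ z ∈ N, l * z * l⁻¹ * z⁻¹ ∈ O → l * z = z * l := by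
      intro z hz hzO
      have hmem : l * z * l⁻¹ ∈ N := by
        have h : conj l N = N := hl
        rw [← h, mem_conj]
        simpa [mul_assoc] using hz
      have h2 : l * z * l⁻¹ * z⁻¹ ∈ N := mul_mem hmem (inv_mem hz)
      have h3 := hON _ h2 hzO
      have h4 : l * z * l⁻¹ = z := by
        have := mul_inv_eq_one.mp h3
        exact this
      calc l * z = l * z * l⁻¹ * l := by group
        _ = z * l := by rw [h4]
    exact IR17.eq_one_of_comm l x y hxy (hcomm x hx hlO.1) (hcomm y hy hlO.2.1) hlO.2.2
  apply discreteTopology_of_isOpen_singleton_one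
  refine isOpen_induced_iff.mpr ⟨O', hO', ?_⟩
  ext z
  constructor
  · intro hz
    exact Set.mem_singleton_iff.mpr (Subtype.ext (key z z.2 hz))
  · intro hz
    rw [Set.mem_singleton_iff.mp hz]
    exact h1O'

end Helper418IRS
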