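import Pool.Agent.Helper418_IRS.IR2
import Pool.Agent.Helper418_IRS.IR11
import Pool.Agent.Helper418_IRS.Defs

set_option autoImplicit false

namespace Helper418IRS

open MeasureTheory Set Topology Filter
open scoped Pointwise ENNReal

/-! GIVEN (proved elsewhere) -/




namespace IR18

theorem measurable_smul_quot {G : Type} [Group G] [TopologicalSpace G] [IsTopologicalGroup G]
    [SecondCountableTopology G] [MeasurableSpace G] [BorelSpace G] (Γ : Subgroup G) (g : G) :
    Measurable (fun x : G ⧸ Γ => g • x) := by
  have h : Measurable (fun a : G => ((g * a : G) : G ⧸ Γ)) :=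
    (QuotientGroup.measurable_coe).comp (measurable_const_mul g)
  exact measurable_from_quotient.2 h

theorem measurableSet_whole {G : Type} [Group G] [TopologicalSpace G] [IsTopologicalGroup G]
    [SecondCountableTopology G] : MeasurableSet ({whole G} : Set (ClosedSubgroup G)) := by
  have h : ({whole G} : Set (ClosedSubgroup G)) =
      ⋂ U ∈ TopologicalSpace.countableBasis G,
        {H : ClosedSubgroup G | ((H : Set G) ∩ U).Nonempty} := by
    ext H
    simp only [mem_singleton_iff, mem_iInter, mem_setOf_eq]
    constructor
    · rintro rfl U hU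
      obtain ⟨x, hx⟩ := TopologicalSpace.nonempty_of_mem_countableBasis hU
      exact ⟨x, show x ∈ (⊤ : Subgroup G) from Subgroup.mem_top x, hx⟩
    · intro hH
      have hd : Dense (H : Set G) := by
        rw [(TopologicalSpace.isBasis_countableBasis G).dense_iff]
        intro o ho _
        rw [inter_comm]
        exact hH o ho
      have hc : IsClosed (H : Set G) := H.isClosed'
      have hu : (H : Set G) = univ := by rw [← hc.closure_eq]; exact hd.closure_eq
      apply SetLike.ext'
      rw [hu]
      rfl
  rw [h]
  refine MeasurableSet.biInter (TopologicalSpace.countable_countableBasis G) fun U hU => ?_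
  have ho : IsOpen {H : ClosedSubgroup G | ((H : Set G) ∩ U).Nonempty} :=
    TopologicalSpace.isOpen_generateFrom_of_mem
      (Or.inr ⟨U, TopologicalSpace.isOpen_of_mem_countableBasis hU, rfl⟩)
  exact ho.measurableSet

theorem conj_whole {G : Type} [Group G] [TopologicalSpace G] [IsTopologicalGroup G] (g : G)
    (N : ClosedSubgroup G) (h : conj g N = whole G) : N = whole G := by
  have h1 : conj g⁻¹ (conj g N) = conj g⁻¹ (whole G) := by rw [h]
  rw [conj_conj, inv_mul_cancel, conj_one] at h1
  rw [h1]
  apply SetLike.ext
  intro x
  rw [mem_conj]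
  exact ⟨fun _ => Subgroup.mem_top x, fun _ => Subgroup.mem_top _⟩

end IR18

/-- TARGET -/
theorem irs_of_nrm {G : Type} [Group G] [TopologicalSpace G] [IsTopologicalGroup G]
    [T2Space G] [LocallyCompactSpace G] [SecondCountableTopology G] [MeasurableSpace G]
    [BorelSpace G] (N : ClosedSubgroup G) (ν0 : Measure (G ⧸ nrm N)) (hν0 : InvProb (nrm N) ν0) :
    IsIRS (ν0.map (cosetConj (nrm N) N)) ∧ IsErgodic (ν0.map (cosetConj (nrm N) N)) ∧
      (N ≠ whole G → ν0.map (cosetConj (nrm N) N) ≠ Measure.dirac (whole G)) := by
  have hN : ∀ γ ∈ nrm N, conj γ N = N := fun γ h => h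
  have hc : Measurable (cosetConj (nrm N) N) := measurable_cosetConj (nrm N) N hN
  have hp : IsProbabilityMeasure ν0 := hν0.1
  refine ⟨⟨Measure.isProbabilityMeasure_map hc.aemeasurable, fun g => ?_⟩, ?_, ?_⟩
  · have hcg : Measurable (fun H : ClosedSubgroup G => conj g H) :=
      (continuous_conj_right g).measurable
    have hs := IR18.measurable_smul_quot (nrm N) g
    calc (ν0.map (cosetConj (nrm N) N)).map (conj g)
        = ν0.map ((fun H : ClosedSubgroup G => conj g H) ∘ cosetConj (nrm N) N) :=
          Measure.map_map hcg hc
      _ = ν0.map (cosetConj (nrm N) N ∘ fun x : G ⧸ nrm N => g • x) := by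
          congr 1
          funext x
          exact (cosetConj_smul hN g x).symm
      _ = (ν0.map (fun x : G ⧸ nrm N => g • x)).map (cosetConj (nrm N) N) :=
          (Measure.map_map hc hs).symm
      _ = ν0.map (cosetConj (nrm N) N) := by rw [hν0.2 g]
  · intro S hS hinv
    have key : ∀ x : G ⧸ nrm N, cosetConj (nrm N) N x ∈ S ↔ N ∈ S := by
      intro x
      induction x using QuotientGroup.induction_on with
      | H a =>
        rw [cosetConj_mk hN a]
        constructor
        · intro h
          have : N ∈ conj a ⁻¹' S := h
          rwa [hinv a] at this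
        · intro h
          have : N ∈ conj a ⁻¹' S := by rw [hinv a]; exact h
          exact this
    by_cases hm : N ∈ S
    · right
      rw [Measure.map_apply hc hS.compl]
      have : cosetConj (nrm N) N ⁻¹' Sᶜ = ∅ := by
        ext x
        simp only [mem_preimage, mem_compl_iff, mem_empty_iff_false, iff_false, not_not]
        exact (key x).2 hm
      rw [this, measure_empty]
    · left
      rw [Measure.map_apply hc hS]
      have : cosetConj (nrm N) N ⁻¹' S = ∅ := by
        ext x
        simp only [mem_preimage, mem_empty_iff_false, iff_false]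
        exact fun h => hm ((key x).1 h)
      rw [this, measure_empty]
  · intro hne heq
    have hw := IR18.measurableSet_whole (G := G)
    have h1 : (ν0.map (cosetConj (nrm N) N)) {whole G} = 1 := by
      rw [heq, Measure.dirac_apply' _ hw]
      simp
    rw [Measure.map_apply hc hw] at h1
    have : cosetConj (nrm N) N ⁻¹' {whole G} = ∅ := by
      ext x
      simp only [mem_preimage, mem_singleton_iff, mem_empty_iff_false, iff_false]
      intro h
      exact hne (IR18.conj_whole x.out N h)
    rw [this, measure_empty] at h1
    exact zero_ne_one h1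

end Helper418IRS
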