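import Pool.Agent.Helper418_IRS.Defs

set_option autoImplicit false

namespace Helper418IRS

open MeasureTheory Set Topology Filter
open scoped Pointwise ENNReal

namespace IR6

variable {G : Type} [Group G] [TopologicalSpace G] [IsTopologicalGroup G]
    [SecondCountableTopology G] [MeasurableSpace G] [BorelSpace G]

/-- A Borel set of representatives of the cosets of a discrete subgroup. -/
theorem exists_F (Γ : Subgroup G) (hΓ : DiscreteTopology Γ) :
    ∃ F : Set G, MeasurableSet F ∧ ∀ x : G, ∃! γ : Γ.op, γ • x ∈ F := by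
  classical
  -- a neighbourhood of `1` that meets `Γ` in `1` only
  obtain ⟨V, hV, hV1⟩ : ∃ V : Set G, IsOpen V ∧ ∀ γ ∈ Γ, γ ∈ V ↔ γ = 1 := by
    obtain ⟨V, hV, hV1⟩ := isOpen_induced_iff.1 (isOpen_discrete ({1} : Set Γ))
    refine ⟨V, hV, fun γ hγ => ?_⟩
    have h := Set.ext_iff.1 hV1 ⟨γ, hγ⟩
    rw [mem_preimage, mem_singleton_iff] at h
    rw [h, Subtype.ext_iff]
    rfl
  have hV0 : V ∈ 𝓝 (1 : G) := hV.mem_nhds ((hV1 1 Γ.one_mem).2 rfl)
  obtain ⟨W, hW, hW1, hWW⟩ := exists_open_nhds_one_split hV0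
  obtain ⟨U, hU, hU1, hUU⟩ : ∃ U : Set G, IsOpen U ∧ 1 ∈ U ∧ ∀ a ∈ U, ∀ b ∈ U, a⁻¹ * b ∈ V := by
    refine ⟨W ∩ W⁻¹, hW.inter hW.inv, ⟨hW1, by simpa using hW1⟩, fun a ha b hb => ?_⟩
    exact hWW _ ha.2 _ hb.1
  obtain ⟨s, hs, hcov⟩ := TopologicalSpace.countable_cover_nhds
    (f := fun x : G => {y | x⁻¹ * y ∈ U}) (fun x => by
      have h1 : IsOpen {y | x⁻¹ * y ∈ U} := hU.preimage (continuous_const_mul x⁻¹)
      refine h1.mem_nhds ?_
      show x⁻¹ * x ∈ U
      rw [inv_mul_cancel]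
      exact hU1)
  have hsne : s.Nonempty := by
    have h1 : (1 : G) ∈ ⋃ x ∈ s, {y | x⁻¹ * y ∈ U} := by rw [hcov]; trivial
    simp only [mem_iUnion] at h1
    obtain ⟨x, hx, -⟩ := h1
    exact ⟨x, hx⟩
  obtain ⟨g, rfl⟩ := hs.exists_eq_range hsne
  have hg : ∀ y : G, ∃ i, (g i)⁻¹ * y ∈ U := by
    intro y
    have h1 : y ∈ ⋃ x ∈ range g, {y | x⁻¹ * y ∈ U} := by rw [hcov]; trivial
    simp only [mem_iUnion] at h1
    obtain ⟨x, ⟨i, rfl⟩, hx⟩ := h1
    exact ⟨i, hx⟩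
  let P : ℕ → Set G := fun i => {y | (g i)⁻¹ * y ∈ U}
  let Q : ℕ → Set G := fun i => {y | ∃ γ ∈ Γ, y * γ ∈ P i}
  have hP : ∀ i, IsOpen (P i) := fun i => hU.preimage (continuous_const_mul (g i)⁻¹)
  have hQ : ∀ i, IsOpen (Q i) := by
    intro i
    have e : Q i = ⋃ γ ∈ Γ, (fun y => y * γ) ⁻¹' P i := by
      ext y
      simp only [mem_iUnion, mem_preimage]
      constructor
      · rintro ⟨γ, h1, h2⟩
        exact ⟨γ, h1, h2⟩
      · rintro ⟨γ, h1, h2⟩
        exact ⟨γ, h1, h2⟩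
    rw [e]
    exact isOpen_biUnion fun γ _ => (hP i).preimage (continuous_mul_const γ)
  have hQQ : ∀ i x γ, γ ∈ Γ → x * γ ∈ Q i → x ∈ Q i := by
    rintro i x γ hγ ⟨γ', h1, h2⟩
    exact ⟨γ * γ', Γ.mul_mem hγ h1, by rwa [← mul_assoc]⟩
  refine ⟨⋃ i, (P i ∩ ⋂ j ∈ Finset.range i, (Q j)ᶜ), ?_, fun x => ?_⟩
  · refine MeasurableSet.iUnion fun i => (hP i).measurableSet.inter ?_
    exact Finset.measurableSet_biInter _ fun j _ => (hQ j).measurableSet.compl
  · have hex : ∃ i, x ∈ Q i := by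
      obtain ⟨i, hi⟩ := hg x
      exact ⟨i, 1, Γ.one_mem, by rw [mul_one]; exact hi⟩
    obtain ⟨γ, hγ, hx⟩ := Nat.find_spec hex
    refine ⟨⟨MulOpposite.op γ, hγ⟩, ?_, ?_⟩
    · show x * γ ∈ _
      refine mem_iUnion.2 ⟨Nat.find hex, hx, ?_⟩
      simp only [mem_iInter, Finset.mem_range, mem_compl_iff]
      intro j hj h
      exact Nat.find_min hex hj (hQQ j x γ hγ h)
    · rintro ⟨γ', hγ'⟩ h
      have hγ'' : γ'.unop ∈ Γ := hγ'
      have h1 : x * γ'.unop ∈ ⋃ i, (P i ∩ ⋂ j ∈ Finset.range i, (Q j)ᶜ) := h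
      rw [mem_iUnion] at h1
      obtain ⟨i, hi, hi'⟩ := h1
      simp only [mem_iInter, Finset.mem_range, mem_compl_iff] at hi'
      have hxi : x ∈ Q i := ⟨γ'.unop, hγ'', hi⟩
      have hle : Nat.find hex ≤ i := Nat.find_min' hex hxi
      have hge : i ≤ Nat.find hex := by
        by_contra hlt
        push Not at hlt
        refine hi' _ hlt ⟨γ'.unop⁻¹ * γ, Γ.mul_mem (Γ.inv_mem hγ'') hγ, ?_⟩
        have e : x * γ'.unop * (γ'.unop⁻¹ * γ) = x * γ := by group
        rw [e]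
        exact hx
      have hie : i = Nat.find hex := le_antisymm hge hle
      rw [← hie] at hx
      have h2 := hUU _ hi _ hx
      have e : ((g i)⁻¹ * (x * γ'.unop))⁻¹ * ((g i)⁻¹ * (x * γ)) = γ'.unop⁻¹ * γ := by group
      rw [e, hV1 _ (Γ.mul_mem (Γ.inv_mem hγ'') hγ), inv_mul_eq_one] at h2
      refine Subtype.ext ?_
      show γ' = MulOpposite.op γ
      rw [← h2]
      rfl

theorem countable_of_discrete (Γ : Subgroup G) (hΓ : DiscreteTopology Γ) : Countable Γ :=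
  TopologicalSpace.separableSpace_iff_countable.1 inferInstance

theorem main (m : Measure G) [m.IsHaarMeasure] [m.IsMulRightInvariant] (Γ : Subgroup G)
    (hΓ : DiscreteTopology Γ) (S : Set G) (hfin : m S ≠ ∞)
    (hcov : ∀ g : G, ∃ γ ∈ Γ, g * γ ∈ S) :
    ∃ ν : Measure (G ⧸ Γ), InvProb Γ ν := by
  obtain ⟨F, hF, hFx⟩ := exists_F Γ hΓ
  have hc : Countable Γ := countable_of_discrete Γ hΓ
  have hc' : Countable Γ.op := by
    have hi : Function.Injective (fun x : Γ.op => (⟨x.1.unop, x.2⟩ : Γ)) := by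
      intro x y h
      exact Subtype.ext (MulOpposite.unop_injective (Subtype.ext_iff.1 h))
    exact hi.countable
  have hfd : IsFundamentalDomain Γ.op F m := IsFundamentalDomain.mk' hF.nullMeasurableSet hFx
  have hF0 : m F ≠ 0 := by
    intro h
    have h1 : m univ = 0 := hfd.measure_zero_of_invariant univ (fun g => smul_set_univ) (by
      rw [univ_inter]; exact h)
    exact (isOpen_univ.measure_ne_zero m univ_nonempty) h1
  have hFt : m F ≠ ∞ := by
    refine ne_top_of_le_ne_top hfin ?_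
    rw [hfd.measure_eq_tsum S]
    refine le_trans (measure_mono ?_) (measure_iUnion_le _)
    intro x hx
    obtain ⟨γ, hγ, h⟩ := hcov x
    refine mem_iUnion.2 ⟨(⟨MulOpposite.op γ, hγ⟩ : Γ.op)⁻¹, ?_, hx⟩
    rw [mem_smul_set_iff_inv_smul_mem, inv_inv]
    exact h
  have hπ : Measurable (QuotientGroup.mk : G → G ⧸ Γ) := measurable_from_quotient.1 measurable_id
  refine ⟨(m F)⁻¹ • (m.restrict F).map (QuotientGroup.mk : G → G ⧸ Γ), ⟨?_⟩, fun g => ?_⟩
  · rw [Measure.smul_apply, Measure.map_apply hπ MeasurableSet.univ, preimage_univ,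
      Measure.restrict_apply_univ, smul_eq_mul]
    exact ENNReal.inv_mul_cancel hF0 hFt
  · have hg : Measurable (fun x : G ⧸ Γ => g • x) := by
      refine measurable_from_quotient.2 ?_
      exact hπ.comp (measurable_const_mul g)
    rw [Measure.map_smul]
    congr 1
    ext A hA
    rw [Measure.map_apply hg hA, Measure.map_apply hπ (hg hA), Measure.map_apply hπ hA,
      Measure.restrict_apply (hπ (hg hA)), Measure.restrict_apply (hπ hA)]
    set B : Set G := (QuotientGroup.mk : G → G ⧸ Γ) ⁻¹' A with hB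
    have e : (QuotientGroup.mk : G → G ⧸ Γ) ⁻¹' ((fun x : G ⧸ Γ => g • x) ⁻¹' A) =
        (fun x => g * x) ⁻¹' B := rfl
    rw [e]
    have hgF : IsFundamentalDomain Γ.op (g • F) m := hfd.smul_of_comm g
    have h1 : m ((fun x => g * x) ⁻¹' B ∩ F) = m (B ∩ g • F) := by
      rw [← measure_preimage_mul m g (B ∩ g • F), preimage_inter]
      congr 2
      ext x
      rw [mem_preimage, ← smul_eq_mul, smul_mem_smul_set_iff]
    rw [h1]
    refine hgF.measure_set_eq hfd (hπ hA) fun γ => ?_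
    ext x
    have h2 : ((γ • x : G) : G ⧸ Γ) = (x : G ⧸ Γ) := by
      have h3 : (γ • x : G) = x * (γ : Gᵐᵒᵖ).unop := rfl
      rw [h3]
      exact QuotientGroup.mk_mul_of_mem x γ.2
    show ((γ • x : G) : G ⧸ Γ) ∈ A ↔ (x : G ⧸ Γ) ∈ A
    rw [h2]

end IR6

/-- TARGET -/
theorem exists_invProb {G : Type} [Group G] [TopologicalSpace G] [IsTopologicalGroup G]
    [T2Space G] [LocallyCompactSpace G] [SecondCountableTopology G] [MeasurableSpace G]
    [BorelSpace G] (m : Measure G) [m.IsHaarMeasure] [m.IsMulRightInvariant] (Γ : ClosedSubgroup G)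
    (hΓ : DiscreteTopology Γ) (S : Set G) (hS : MeasurableSet S) (hfin : m S ≠ ∞)
    (hcov : ∀ g : G, ∃ γ ∈ Γ, g * γ ∈ S) :
    ∃ ν : Measure (G ⧸ Γ.toSubgroup), InvProb Γ.toSubgroup ν :=
  IR6.main m Γ.toSubgroup hΓ S hfin hcov

end Helper418IRS
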