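import Pool.Agent.Helper418_IRS.IR13
import Pool.Agent.Helper418_IRS.IR14
import Pool.Agent.Helper418_IRS.IR15
import Pool.Agent.Helper418_IRS.IR16
import Pool.Agent.Helper418_IRS.IR17
import Pool.Agent.Helper418_IRS.IR6
import Pool.Agent.Helper418_IRS.IR8
import Pool.Agent.Helper418_IRS.IR12
import Pool.Agent.Helper418_IRS.IR18
import Pool.Agent.Helper418_IRS.Defs

set_option autoImplicit false

namespace Helper418IRS

open MeasureTheory Set Topology Filter
open scoped Pointwise ENNReal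

/-! GIVEN (proved elsewhere) -/




/-! TARGETS -/
theorem exists_surj (Q : Type) [Group Q] [Group.FG Q] :
    ∃ (Γ0 : Subgroup (Matrix.SpecialLinearGroup (Fin 2) ℤ)) (_ : Γ0.FiniteIndex) (φ : Γ0 →* Q),
      Function.Surjective φ ∧ ∃ x y : Γ0, φ x = 1 ∧ φ y = 1 ∧ x * y ≠ y * x := by
  obtain ⟨K, hK, φ, hφ, x, y, hx, hy, hxy⟩ := free_surj Q
  obtain ⟨f, hf, hfi⟩ := sanov_range_fi
  refine ⟨K.map f, ?_, φ.comp (K.equivMapOfInjective f hf).symm.toMonoidHom, ?_,
    K.equivMapOfInjective f hf x, K.equivMapOfInjective f hf y, ?_, ?_, ?_⟩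
  · refine ⟨?_⟩
    rw [Subgroup.index_map_of_injective K hf]
    exact mul_ne_zero hK.index_ne_zero hfi.index_ne_zero
  · exact hφ.comp (K.equivMapOfInjective f hf).symm.surjective
  · show φ ((K.equivMapOfInjective f hf).symm (K.equivMapOfInjective f hf x)) = 1
    rw [MulEquiv.symm_apply_apply, hx]
  · show φ ((K.equivMapOfInjective f hf).symm (K.equivMapOfInjective f hf y)) = 1
    rw [MulEquiv.symm_apply_apply, hy]
  · intro h
    apply hxy
    apply (K.equivMapOfInjective f hf).injective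
    rw [map_mul, map_mul]
    exact h

namespace IR19

theorem toR_apply (g : Matrix.SpecialLinearGroup (Fin 2) ℤ) (i j : Fin 2) :
    (toR g) i j = ((g i j : ℤ) : ℝ) := by
  simp [toR]

theorem toR_injective : Function.Injective toR := by
  intro a b h
  ext i j
  have h1 := congrArg (fun z : SL2 => z i j) h
  simp only [toR_apply] at h1
  exact_mod_cast h1

/-- a neighbourhood of one -/
def nb : Set SL2 := {g : SL2 | ∀ i j, |g i j - (1 : SL2) i j| < 1}

theorem nb_open : IsOpen nb := by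
  have h : nb = ⋂ i : Fin 2, ⋂ j : Fin 2, {g : SL2 | |g i j - (1 : SL2) i j| < 1} := by
    ext g
    simp [nb]
  rw [h]
  refine isOpen_iInter_of_finite fun i => isOpen_iInter_of_finite fun j => ?_
  have hc : Continuous (fun g : SL2 => g i j) :=
    (continuous_apply_apply i j).comp continuous_subtype_val
  exact isOpen_lt ((hc.sub continuous_const).abs) continuous_const

theorem nb_int (κ : Matrix.SpecialLinearGroup (Fin 2) ℤ) (h : toR κ ∈ nb) : κ = 1 := by
  ext i j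
  have h1 := h i j
  rw [toR_apply, ← map_one toR, toR_apply] at h1
  have h2 : |κ i j - (1 : Matrix.SpecialLinearGroup (Fin 2) ℤ) i j| < 1 := by exact_mod_cast h1
  have h3 := Int.abs_lt_one_iff.1 h2
  linarith

theorem discrete_of_int (H : Subgroup SL2)
    (h : ∀ z ∈ H, ∃ κ : Matrix.SpecialLinearGroup (Fin 2) ℤ, toR κ = z) : DiscreteTopology H := by
  apply discreteTopology_of_isOpen_singleton_one
  have h1 : ({1} : Set H) = Subtype.val ⁻¹' nb := by
    ext z
    constructor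
    · intro hz
      rw [Set.mem_singleton_iff] at hz
      subst hz
      intro i j
      simp
    · intro hz
      obtain ⟨κ, hκ⟩ := h z z.2
      have h2 : toR κ ∈ nb := by rw [hκ]; exact hz
      have h3 := nb_int κ h2
      rw [h3, map_one] at hκ
      rw [Set.mem_singleton_iff]
      exact Subtype.ext hκ.symm
  rw [h1]
  exact nb_open.preimage continuous_subtype_val

end IR19

open IR19 in
theorem exists_irs_not_limit (Q : Type) [Group Q] [Group.FG Q] (hQ : ¬ IsSof Q) :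
    ∃ μ : Measure (ClosedSubgroup SL2), IsIRS μ ∧ IsErgodic μ ∧ μ ≠ Measure.dirac (whole SL2) ∧
      ¬ ∃ μk : ℕ → Measure (ClosedSubgroup SL2), (∀ k, IsLatticeIRS (μk k)) ∧ WeakLim μk μ := by
  obtain ⟨Γ0, hfi, φ, hφ, x, y, hx, hy, hxy⟩ := exists_surj Q
  have := hfi
  let Ns : Subgroup SL2 := (φ.ker.map Γ0.subtype).map toR
  have hNs : ∀ z, z ∈ Ns ↔ ∃ γ : Γ0, φ γ = 1 ∧ toR (γ : Matrix.SpecialLinearGroup (Fin 2) ℤ) = z := by
    intro z
    constructor
    · rintro ⟨_, ⟨γ, hγ, rfl⟩, rfl⟩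
      exact ⟨γ, hγ, rfl⟩
    · rintro ⟨γ, hγ, rfl⟩
      exact ⟨_, ⟨γ, hγ, rfl⟩, rfl⟩
  have hdisc : DiscreteTopology Ns := discrete_of_int Ns fun z hz => by
    obtain ⟨γ, _, hγ⟩ := (hNs z).1 hz
    exact ⟨γ, hγ⟩
  obtain ⟨N, hmemN, hdiscN⟩ : ∃ N : ClosedSubgroup SL2, (∀ z : SL2, z ∈ N ↔ ∃ γ : Γ0, φ γ = 1 ∧
      toR (γ : Matrix.SpecialLinearGroup (Fin 2) ℤ) = z) ∧ DiscreteTopology N :=
    ⟨⟨Ns, Subgroup.isClosed_of_discrete⟩, hNs, hdisc⟩
  have hdn : DiscreteTopology (nrm N) := by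
    refine nrm_discrete N hdiscN (toR x) (toR y) ((hmemN _).2 ⟨x, hx, rfl⟩)
      ((hmemN _).2 ⟨y, hy, rfl⟩) ?_
    intro h
    rw [← map_mul, ← map_mul] at h
    exact hxy (Subtype.ext (toR_injective h))
  have hle : ∀ γ : Γ0, toR (γ : Matrix.SpecialLinearGroup (Fin 2) ℤ) ∈ nrm N := by
    intro γ
    rw [mem_nrm]
    apply SetLike.ext
    intro z
    rw [mem_conj, hmemN, hmemN]
    constructor
    · rintro ⟨κ, h1, h2⟩
      refine ⟨γ * κ * γ⁻¹, ?_, ?_⟩
      · rw [map_mul, map_mul, h1, mul_one, map_inv, mul_inv_cancel]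
      · rw [Subgroup.coe_mul, Subgroup.coe_mul, Subgroup.coe_inv, map_mul, map_mul, h2, map_inv]
        group
    · rintro ⟨κ, h1, h2⟩
      refine ⟨γ⁻¹ * κ * γ, ?_, ?_⟩
      · rw [map_mul, map_mul, h1, mul_one, map_inv, inv_mul_cancel]
      · rw [Subgroup.coe_mul, Subgroup.coe_mul, Subgroup.coe_inv, map_mul, map_mul, h2, map_inv]
  let m : Measure SL2 := Measure.haar
  have hm : m.IsMulRightInvariant := sl2_unimodular m
  obtain ⟨S, hS, hfin, hcov⟩ := siegel_fi m Γ0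
  let Γc : ClosedSubgroup SL2 := ⟨nrm N, Subgroup.isClosed_of_discrete⟩
  have hΓc : DiscreteTopology Γc := hdn
  obtain ⟨ν, hν⟩ := exists_invProb m Γc hΓc S hS hfin (fun g => by
    obtain ⟨γ, hγ, hg⟩ := hcov g
    exact ⟨toR γ, hle ⟨γ, hγ⟩, hg⟩)
  obtain ⟨h1, h2, h3⟩ := irs_of_nrm N ν hν
  refine ⟨ν.map (cosetConj (nrm N) N), h1, h2, h3 ?_, ?_⟩
  · intro hw
    have hmem : (⟨!![1, 1 / 2; 0, 1], by simp [Matrix.det_fin_two]⟩ : SL2) ∈ N := by
      rw [hw]
      trivial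
    obtain ⟨γ, -, hγ⟩ := (hmemN _).1 hmem
    have h4 := congrArg (fun z : SL2 => z 0 1) hγ
    simp only [toR_apply] at h4
    have h5 : (((γ : Matrix.SpecialLinearGroup (Fin 2) ℤ) 0 1 : ℤ) : ℝ) = 1 / 2 := h4
    have h6 : (2 * ((γ : Matrix.SpecialLinearGroup (Fin 2) ℤ) 0 1) : ℤ) = 1 := by
      have : (2 * (((γ : Matrix.SpecialLinearGroup (Fin 2) ℤ) 0 1 : ℤ) : ℝ)) = 1 := by
        rw [h5]; norm_num
      exact_mod_cast this
    omega
  · rintro ⟨μk, hk, hlim⟩
    have hsof := transfer sl2_nss m N hdn ν hν μk hk hlim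
    apply hQ
    let h : Γ0 →* nrm N := (toR.comp Γ0.subtype).codRestrict (nrm N) hle
    let ψ : Γ0 →* nrm N ⧸ N.toSubgroup.subgroupOf (nrm N) := (QuotientGroup.mk' _).comp h
    have hψ : ∀ γ : Γ0, ψ γ = 1 ↔ φ γ = 1 := by
      intro γ
      show (QuotientGroup.mk (h γ) : nrm N ⧸ N.toSubgroup.subgroupOf (nrm N)) = 1 ↔ _
      rw [QuotientGroup.eq_one_iff, Subgroup.mem_subgroupOf]
      show toR (γ : Matrix.SpecialLinearGroup (Fin 2) ℤ) ∈ N ↔ _
      rw [hmemN]
      constructor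
      · rintro ⟨κ, h1, h2⟩
        have : κ = γ := Subtype.ext (toR_injective h2)
        rw [← this]; exact h1
      · intro h1
        exact ⟨γ, h1, rfl⟩
    let e := QuotientGroup.quotientKerEquivOfSurjective φ hφ
    let F : Q →* nrm N ⧸ N.toSubgroup.subgroupOf (nrm N) :=
      (QuotientGroup.lift φ.ker ψ (fun γ hγ => (hψ γ).2 hγ)).comp e.symm.toMonoidHom
    refine sof_of_injective F ?_ hsof
    rw [injective_iff_map_eq_one]
    intro q hq
    obtain ⟨γ, rfl⟩ := hφ q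
    have h4 : e.symm (φ γ) = QuotientGroup.mk γ := by
      rw [MulEquiv.symm_apply_eq]
      rfl
    have h5 : F (φ γ) = ψ γ := by
      show QuotientGroup.lift φ.ker ψ (fun γ hγ => (hψ γ).2 hγ) (e.symm (φ γ)) = _
      rw [h4]
      rfl
    rw [h5] at hq
    exact (hψ γ).1 hq

end Helper418IRS
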