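import Pool.Agent.Helper418_IRS.Defs

set_option autoImplicit false

namespace Helper418IRS

open MeasureTheory Set Topology Filter
open scoped Pointwise ENNReal


namespace IR7

theorem finite_of_bdd {Z : Type} {c : ℝ} (h : ∀ S : Finset Z, (S.card : ℝ) ≤ c) : Finite Z := by
  classical
  by_contra hn
  have hi : Infinite Z := not_finite_iff_infinite.mp hn
  obtain ⟨n, hn⟩ := exists_nat_gt c
  obtain ⟨S, hS⟩ := Infinite.exists_subset_card_eq Z n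
  have := h S
  rw [hS] at this
  linarith

end IR7

/-- TARGET -/
theorem sofic_data {G Y : Type} [Group G] [MulAction G Y] [MeasurableSpace Y] (ν : Measure Y)
    [IsFiniteMeasure ν] (U0 T0 : Set G) (X0 X1 X2 X3 : Set Y) (h01 : X0 ⊆ X1) (h12 : X1 ⊆ X2)
    (h23 : X2 ⊆ X3) (hX0 : MeasurableSet X0) (hX3 : MeasurableSet X3)
    (hone : (1 : G) ∈ U0) (hsymm : ∀ u ∈ U0, u⁻¹ ∈ U0)
    {Q : Type} [Group Q] (r : Q → G) (E : Finset Q)
    (c1 : ∀ a ∈ U0, ∀ b ∈ U0, ∀ c ∈ U0, a * b * c ∈ T0)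
    (c2 : ∀ q ∈ E, ∀ a ∈ U0, ∀ b ∈ U0, ∀ c ∈ U0, a * (r q * b * (r q)⁻¹) * c ∈ T0)
    (c3 : ∀ q ∈ E, ∀ a ∈ U0, ∀ b ∈ U0, ∀ c ∈ U0, (r q)⁻¹ * (a * b * c) * r q ∈ T0)
    (c4 : ∀ p ∈ E, ∀ q ∈ E, ∀ a ∈ U0, ∀ b ∈ U0, ∀ c ∈ U0, ∀ d ∈ U0,
      a * (r p * b * (r p)⁻¹) * (r (p * q) * c * (r (p * q))⁻¹) * d ∈ T0)
    (P : ∀ y ∈ X3, ∀ t ∈ T0, t • y ∈ X3 → t ∈ U0)
    (ex0 : ∀ q ∈ E, ∀ y ∈ X0, ∃ u ∈ U0, (u * r q) • y ∈ X1)
    (ex1 : ∀ q ∈ E, ∀ y ∈ X1, ∃ u ∈ U0, (u * r q) • y ∈ X2)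
    (triv : ∀ p ∈ E, ∀ q ∈ E, p * q ∈ E → ∀ y ∈ X2, ∃ u ∈ U0,
      ((r (p * q))⁻¹ * r p * r q) • y = u • y)
    (free : ∀ q ∈ E, q ≠ 1 → ∀ y ∈ X3, ∀ a ∈ U0, ∀ b ∈ U0, (a * b * r q) • y ≠ y)
    (a b ε : ℝ) (ha : 0 < a) (hb : 0 < b)
    (M1 : ∀ y ∈ X2, ∃ D, D ⊆ X3 ∧ MeasurableSet D ∧ a ≤ ν.real D ∧ ∀ w ∈ D, ∃ u ∈ U0, w = u • y)
    (M2 : ∀ y ∈ X0, ∃ D, (∀ w ∈ X0, (∃ u ∈ U0, w = u • y) → w ∈ D) ∧ ν.real D ≤ b)
    (R : (1 - ε) * (ν.real X3 * b) ≤ ν.real X0 * a) (pos : 0 < ν.real X0) :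
    ∃ (Z : Type) (_ : Fintype Z) (_ : DecidableEq Z) (Z0 Z1 : Finset Z) (σ : Q → Z → Z),
      Z0.Nonempty ∧ Z0 ⊆ Z1 ∧ (∀ q ∈ E, Set.InjOn (σ q) Z1) ∧
      (∀ q ∈ E, ∀ z ∈ Z0, σ q z ∈ Z1) ∧
      (∀ p ∈ E, ∀ q ∈ E, p * q ∈ E → ∀ z ∈ Z0, σ p (σ q z) = σ (p * q) z) ∧
      (∀ q ∈ E, q ≠ 1 → ∀ z ∈ Z1, σ q z ≠ z) ∧
      (1 - ε) * Fintype.card Z ≤ Z0.card := by
  classical
  have h13 : X1 ⊆ X3 := h12.trans h23
  -- the relation
  let s : Setoid {y : Y // y ∈ X2} :=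
    { r := fun y y' => ∃ u ∈ U0, y'.1 = u • y.1
      iseqv := by
        refine ⟨fun y => ⟨1, hone, by simp⟩, ?_, ?_⟩
        · rintro y y' ⟨u, hu, h⟩
          exact ⟨u⁻¹, hsymm u hu, by rw [h, inv_smul_smul]⟩
        · rintro y y' y'' ⟨u, hu, h⟩ ⟨u', hu', h'⟩
          have e : y''.1 = (u' * u * 1) • y.1 := by rw [h', h, mul_one, mul_smul]
          refine ⟨u' * u * 1, P y.1 (h23 y.2) _ (c1 _ hu' _ hu _ hone) ?_, e⟩
          rw [← e]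
          exact h23 y''.2 }
  have hrel : ∀ y y' : {y : Y // y ∈ X2}, (Quotient.mk s y = Quotient.mk s y') ↔
      ∃ u ∈ U0, y'.1 = u • y.1 := by
    intro y y'
    exact Quotient.eq (r := s)
  have hT : ∀ (y y' : {y : Y // y ∈ X2}) (t : G), t ∈ T0 → y'.1 = t • y.1 →
      Quotient.mk s y = Quotient.mk s y' := by
    intro y y' t ht e
    rw [hrel]
    refine ⟨t, P y.1 (h23 y.2) t ht ?_, e⟩
    rw [← e]
    exact h23 y'.2
  -- bounded cardinalities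
  choose D hDsub hDm hDa hDu using M1
  have hcard : ∀ S : Finset (Quotient s), (S.card : ℝ) * a ≤ ν.real X3 := by
    intro S
    have hdisj : Set.PairwiseDisjoint (↑S) (fun z : Quotient s => D z.out.1 z.out.2) := by
      intro z1 _ z2 _ hne
      rw [Function.onFun, Set.disjoint_left]
      intro w hw1 hw2
      obtain ⟨u1, hu1, e1⟩ := hDu _ _ w hw1
      obtain ⟨u2, hu2, e2⟩ := hDu _ _ w hw2
      apply hne
      have hq := hT z1.out z2.out (u2⁻¹ * u1 * 1) (c1 _ (hsymm _ hu2) _ hu1 _ hone) (by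
        rw [mul_one, mul_smul, ← e1, e2, inv_smul_smul])
      rw [← z1.out_eq, ← z2.out_eq]
      exact hq
    have h1 : ν.real (⋃ z ∈ S, D (Quotient.out z).1 z.out.2) =
        ∑ z ∈ S, ν.real (D (Quotient.out z).1 z.out.2) :=
      measureReal_biUnion_finset hdisj (fun z _ => hDm _ _)
    have h2 : ν.real (⋃ z ∈ S, D (Quotient.out z).1 z.out.2) ≤ ν.real X3 := by
      apply measureReal_mono
      · intro w hw
        simp only [Set.mem_iUnion] at hw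
        obtain ⟨z, _, hw⟩ := hw
        exact hDsub _ _ hw
      · exact measure_ne_top _ _
    have h3 : (S.card : ℝ) * a ≤ ∑ z ∈ S, ν.real (D (Quotient.out z).1 z.out.2) := by
      have := Finset.card_nsmul_le_sum S (fun z => ν.real (D (Quotient.out z).1 z.out.2)) a
        (fun z _ => hDa _ _)
      simpa [nsmul_eq_mul] using this
    linarith
  have hfin : Finite (Quotient s) := by
    apply IR7.finite_of_bdd (c := ν.real X3 / a)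
    intro S
    rw [le_div_iff₀ ha]
    exact hcard S
  let ft : Fintype (Quotient s) := Fintype.ofFinite _
  let Z0 : Finset (Quotient s) := Finset.univ.filter
    (fun z => ∃ y : {y : Y // y ∈ X2}, y.1 ∈ X0 ∧ Quotient.mk s y = z)
  let Z1 : Finset (Quotient s) := Finset.univ.filter
    (fun z => ∃ y : {y : Y // y ∈ X2}, y.1 ∈ X1 ∧ Quotient.mk s y = z)
  have hZ0 : ∀ z, z ∈ Z0 ↔ ∃ y : {y : Y // y ∈ X2}, y.1 ∈ X0 ∧ Quotient.mk s y = z := by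
    intro z
    simp [Z0]
  have hZ1 : ∀ z, z ∈ Z1 ↔ ∃ y : {y : Y // y ∈ X2}, y.1 ∈ X1 ∧ Quotient.mk s y = z := by
    intro z
    simp [Z1]
  -- the maps
  let Rel : Q → Quotient s → Quotient s → Prop := fun q z z' =>
    ∃ y y' : {y : Y // y ∈ X2}, Quotient.mk s y = z ∧ Quotient.mk s y' = z' ∧
      ∃ u ∈ U0, y'.1 = (u * r q) • y.1
  have huniq : ∀ q ∈ E, ∀ z z1 z2, Rel q z z1 → Rel q z z2 → z1 = z2 := by
    rintro q hq z z1 z2 ⟨y1, y1', e1, e1', u1, hu1, f1⟩ ⟨y2, y2', e2, e2', u2, hu2, f2⟩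
    rw [← e1', ← e2']
    obtain ⟨u, hu, f⟩ := (hrel y1 y2).1 (e1.trans e2.symm)
    refine hT y1' y2' (u2 * (r q * u * (r q)⁻¹) * u1⁻¹) (c2 q hq _ hu2 _ hu _ (hsymm _ hu1)) ?_
    rw [f2, f1, f, smul_smul, smul_smul]
    congr 1
    group
  let σ : Q → Quotient s → Quotient s := fun q z =>
    if h : ∃ z', Rel q z z' then h.choose else z
  have hσ : ∀ q ∈ E, ∀ (y y' : {y : Y // y ∈ X2}) (u : G), u ∈ U0 → y'.1 = (u * r q) • y.1 →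
      σ q (Quotient.mk s y) = Quotient.mk s y' := by
    intro q hq y y' u hu e
    have hR : Rel q (Quotient.mk s y) (Quotient.mk s y') := ⟨y, y', rfl, rfl, u, hu, e⟩
    have hex : ∃ z', Rel q (Quotient.mk s y) z' := ⟨_, hR⟩
    have h1 : σ q (Quotient.mk s y) = hex.choose := by
      simp only [σ]
      rw [dif_pos hex]
    rw [h1]
    exact huniq q hq _ _ _ hex.choose_spec hR
  refine ⟨Quotient s, ft, inferInstance, Z0, Z1, σ, ?_, ?_, ?_, ?_, ?_, ?_, ?_⟩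
  · -- Z0 nonempty
    have hne : X0.Nonempty := by
      by_contra hn
      rw [Set.not_nonempty_iff_eq_empty] at hn
      rw [hn] at pos
      simp at pos
    obtain ⟨y, hy⟩ := hne
    exact ⟨Quotient.mk s ⟨y, h12 (h01 hy)⟩, (hZ0 _).2 ⟨_, hy, rfl⟩⟩
  · intro z hz
    obtain ⟨y, hy, e⟩ := (hZ0 z).1 hz
    exact (hZ1 z).2 ⟨y, h01 hy, e⟩
  · -- injectivity
    intro q hq z1 hz1 z2 hz2 he
    obtain ⟨y1, hy1, rfl⟩ := (hZ1 z1).1 (Finset.mem_coe.1 hz1)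
    obtain ⟨y2, hy2, rfl⟩ := (hZ1 z2).1 (Finset.mem_coe.1 hz2)
    obtain ⟨u1, hu1, m1⟩ := ex1 q hq y1.1 hy1
    obtain ⟨u2, hu2, m2⟩ := ex1 q hq y2.1 hy2
    have s1 := hσ q hq y1 ⟨_, m1⟩ u1 hu1 rfl
    have s2 := hσ q hq y2 ⟨_, m2⟩ u2 hu2 rfl
    have he' : σ q (Quotient.mk s y1) = σ q (Quotient.mk s y2) := he
    rw [s1, s2] at he'
    obtain ⟨u, hu, f⟩ := (hrel _ _).1 he'
    have f' : (u2 * r q) • y2.1 = u • (u1 * r q) • y1.1 := f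
    refine hT y1 y2 ((r q)⁻¹ * (u2⁻¹ * u * u1) * r q) (c3 q hq _ (hsymm _ hu2) _ hu _ hu1) ?_
    have : y2.1 = (u2 * r q)⁻¹ • ((u2 * r q) • y2.1) := by rw [inv_smul_smul]
    rw [this, f', smul_smul, smul_smul]
    congr 1
    group
  · -- Z0 to Z1
    intro q hq z hz
    obtain ⟨y, hy, rfl⟩ := (hZ0 z).1 hz
    obtain ⟨u, hu, m⟩ := ex0 q hq y.1 hy
    rw [hσ q hq y ⟨_, h12 m⟩ u hu rfl]
    exact (hZ1 _).2 ⟨_, m, rfl⟩
  · -- multiplicativity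
    intro p hp q hq hpq z hz
    obtain ⟨y, hy, rfl⟩ := (hZ0 z).1 hz
    obtain ⟨u2, hu2, m2⟩ := ex0 q hq y.1 hy
    obtain ⟨u1, hu1, m1⟩ := ex1 p hp _ m2
    obtain ⟨u3, hu3, m3⟩ := ex1 (p * q) hpq y.1 (h01 hy)
    obtain ⟨w, hw, e⟩ := triv p hp q hq hpq y.1 y.2
    rw [hσ q hq y ⟨_, h12 m2⟩ u2 hu2 rfl, hσ p hp ⟨_, h12 m2⟩ ⟨_, m1⟩ u1 hu1 rfl,
      hσ (p * q) hpq y ⟨_, m3⟩ u3 hu3 rfl]
    symm
    refine hT _ _ (u1 * (r p * u2 * (r p)⁻¹) * (r (p * q) * w * (r (p * q))⁻¹) * u3⁻¹)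
      (c4 p hp q hq _ hu1 _ hu2 _ hw _ (hsymm _ hu3)) ?_
    show (u1 * r p) • (u2 * r q) • y.1 =
      (u1 * (r p * u2 * (r p)⁻¹) * (r (p * q) * w * (r (p * q))⁻¹) * u3⁻¹) •
        (u3 * r (p * q)) • y.1
    have e1 : (u1 * (r p * u2 * (r p)⁻¹) * (r (p * q) * w * (r (p * q))⁻¹) * u3⁻¹) •
        (u3 * r (p * q)) • y.1 = (u1 * (r p * u2 * (r p)⁻¹) * r (p * q)) • (w • y.1) := by
      rw [smul_smul, smul_smul]
      congr 1
      group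
    rw [e1, ← e, smul_smul, smul_smul]
    congr 1
    group
  · -- no fixed point
    intro q hq hq1 z hz he
    obtain ⟨y, hy, rfl⟩ := (hZ1 z).1 hz
    obtain ⟨u, hu, m⟩ := ex1 q hq y.1 hy
    rw [hσ q hq y ⟨_, m⟩ u hu rfl] at he
    obtain ⟨u', hu', f⟩ := (hrel _ _).1 he
    have f' : y.1 = u' • (u * r q) • y.1 := f
    apply free q hq hq1 y.1 (h13 hy) u' hu' u hu
    rw [mul_assoc, mul_smul]
    exact f'.symm
  · -- counting
    have hb0 : ν.real X0 ≤ (Z0.card : ℝ) * b := by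
      have hch : ∀ z ∈ Z0, ∃ D' : Set Y, (∀ w ∈ X0, ∀ hw : w ∈ X2,
          Quotient.mk s ⟨w, hw⟩ = z → w ∈ D') ∧ ν.real D' ≤ b := by
        intro z hz
        obtain ⟨y, hy, rfl⟩ := (hZ0 z).1 hz
        obtain ⟨D', h1, h2⟩ := M2 y.1 hy
        refine ⟨D', ?_, h2⟩
        intro w hw hw2 e
        exact h1 w hw ((hrel y ⟨w, hw2⟩).1 e.symm)
      choose! D' hD1 hD2 using hch
      have h1 : X0 ⊆ ⋃ z ∈ Z0, D' z := by
        intro w hw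
        simp only [Set.mem_iUnion]
        have hz : Quotient.mk s ⟨w, h12 (h01 hw)⟩ ∈ Z0 := (hZ0 _).2 ⟨_, hw, rfl⟩
        exact ⟨_, hz, hD1 _ hz w hw (h12 (h01 hw)) rfl⟩
      have h2 : ν.real X0 ≤ ν.real (⋃ z ∈ Z0, D' z) := measureReal_mono h1 (measure_ne_top _ _)
      have h3 : ν.real (⋃ z ∈ Z0, D' z) ≤ ∑ z ∈ Z0, ν.real (D' z) :=
        measureReal_biUnion_finset_le _ _
      have h4 : ∑ z ∈ Z0, ν.real (D' z) ≤ (Z0.card : ℝ) * b := by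
        have := Finset.sum_le_card_nsmul Z0 (fun z => ν.real (D' z)) b (fun z hz => hD2 z hz)
        simpa [nsmul_eq_mul] using this
      linarith
    have hZ : (Fintype.card (Quotient s) : ℝ) * a ≤ ν.real X3 := by
      have := hcard Finset.univ
      rwa [Finset.card_univ] at this
    rcases le_or_gt 0 (1 - ε) with h | h
    · have hab : 0 < a * b := mul_pos ha hb
      have k1 : (1 - ε) * ((Fintype.card (Quotient s) : ℝ) * a * b) ≤ (1 - ε) * (ν.real X3 * b) :=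
        mul_le_mul_of_nonneg_left (mul_le_mul_of_nonneg_right hZ hb.le) h
      have k2 : ν.real X0 * a ≤ (Z0.card : ℝ) * b * a := mul_le_mul_of_nonneg_right hb0 ha.le
      have k3 : ((1 - ε) * (Fintype.card (Quotient s) : ℝ)) * (a * b) ≤ (Z0.card : ℝ) * (a * b) := by
        nlinarith
      exact le_of_mul_le_mul_right k3 hab
    · have k1 : (1 - ε) * (Fintype.card (Quotient s) : ℝ) ≤ 0 :=
        mul_nonpos_of_nonpos_of_nonneg h.le (Nat.cast_nonneg _)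
      exact k1.trans (Nat.cast_nonneg _)

end Helper418IRS

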